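import Pool.Agent.Lib.MP_48b749_nt.Three.FamOdd

/-!
Irreducibility of `γ t^(l^n) - α`.
-/

set_option autoImplicit false

open Polynomial

namespace Pool.Agent.BSDFF.Three

variable {k : Type} [Field k]

/-- if `l` divides `q - 1`, fewer than `l` nonzero elements do not meet all classes modulo `l`-th
powers -/
lemma exists_gamma [Finite k] {l : ℕ} (hl : l ∣ Nat.card k - 1) {ι : Type} [Fintype ι]
    (hι : Fintype.card ι < l) (α : ι → k) (hα : ∀ i, α i ≠ 0) :
    ∃ γ : k, γ ≠ 0 ∧ ∀ i, ∀ b : k, b ^ l ≠ α i / γ := by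
  classical
  have hidx : (powMonoidHom l : kˣ →* kˣ).range.index = l := by
    rw [IsCyclic.index_powMonoidHom_range, Nat.card_units]
    exact Nat.gcd_eq_right hl
  have hlt : Fintype.card ι < Nat.card (kˣ ⧸ (powMonoidHom l : kˣ →* kˣ).range) := by
    rw [← Subgroup.index_eq_card, hidx]
    exact hι
  obtain ⟨c, hc⟩ : ∃ c : kˣ ⧸ (powMonoidHom l : kˣ →* kˣ).range,
      ∀ i, ((Units.mk0 (α i) (hα i) : kˣ) : kˣ ⧸ (powMonoidHom l : kˣ →* kˣ).range) ≠ c := by
    by_contra hcon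
    push Not at hcon
    have hsurj : Function.Surjective
        (fun i => ((Units.mk0 (α i) (hα i) : kˣ) : kˣ ⧸ (powMonoidHom l : kˣ →* kˣ).range)) :=
      fun c => hcon c
    have := Nat.card_le_card_of_surjective _ hsurj
    rw [Nat.card_eq_fintype_card (α := ι)] at this
    omega
  obtain ⟨g, rfl⟩ := QuotientGroup.mk_surjective c
  refine ⟨(g : k), g.ne_zero, fun i b hb => hc i ?_⟩
  have hb0 : b ≠ 0 := by
    rintro rfl
    have hl0 : l ≠ 0 := by omega
    rw [zero_pow hl0] at hb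
    exact div_ne_zero (hα i) g.ne_zero hb.symm
  apply Eq.symm
  rw [QuotientGroup.eq]
  refine ⟨Units.mk0 b hb0, ?_⟩
  ext
  simp only [powMonoidHom_apply, Units.val_pow_eq_pow_val, Units.val_mk0, Units.val_mul,
    Units.val_inv_eq_inv_val]
  rw [hb, div_eq_inv_mul]

/-- irreducibility of `γ t^(l^n) - α` -/
lemma irreducible_pow {l : ℕ} (hl : l.Prime) (hl2 : l ≠ 2) (n : ℕ) {α γ : k} (hγ : γ ≠ 0)
    (h : ∀ b : k, b ^ l ≠ α / γ) : Irreducible (C γ * X ^ l ^ n - C α) := by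
  have h1 : (C γ * X ^ l ^ n - C α : k[X]) = C γ * (X ^ l ^ n - C (α / γ)) := by
    rw [mul_sub, ← C_mul, mul_div_cancel₀ _ hγ]
  rw [h1, irreducible_isUnit_mul (isUnit_C.mpr (isUnit_iff_ne_zero.mpr hγ))]
  exact X_pow_sub_C_irreducible_of_prime_pow hl hl2 n h

lemma natDegree_pow {γ : k} (hγ : γ ≠ 0) (N : ℕ) : (C γ * X ^ N : k[X]).natDegree = N :=
  natDegree_C_mul_X_pow N γ hγ

end Pool.Agent.BSDFF.Three
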