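import Pool.Agent.Lib.MP_48b749_nt.Three.RankT
import Pool.Agent.Lib.MP_48b749_nt.Three.FamPow
import Pool.Agent.Lib.MP_48b749_nt.Tors3.Low

/-!
Pull-backs: if `y² + a x y + b y = x³` over `k(t)`, `b` a product of distinct linear factors, has
the largest rank allowed by the `3`-isogeny descent, then so has its pull-back by `t ↦ u(t)`, and
the analytic rank is at most this number.
-/

set_option autoImplicit false

open Polynomial

namespace Pool.Agent.BSDFF.Three

open Classical in
lemma exists_point_map {F K : Type} [Field F] [Field K] (φ : F →+* K) (W : WeierstrassCurve F) :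
    ∃ f : W.toAffine.Point →+ (W.map φ).toAffine.Point, Function.Injective f := by
  let := φ.toAlgebra
  have h1 : ∃ f : (W.map (algebraMap F F)).toAffine.Point →+ (W.map φ).toAffine.Point,
      Function.Injective f :=
    ⟨WeierstrassCurve.Affine.Point.map (R := F) (S := F) (F := F) (K := K) (W' := W.toAffine)
      (Algebra.ofId F K), WeierstrassCurve.Affine.Point.map_injective (W' := W.toAffine)
      (Algebra.ofId F K)⟩
  have h2 : W.map (algebraMap F F) = W := W.map_id
  rwa [h2] at h1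

variable {k : Type} [Field k]

lemma comp_ne_zero' {u : k[X]} (hu : u.natDegree ≠ 0) {f : k[X]} (hf : f ≠ 0) : f.comp u ≠ 0 := by
  intro h
  rcases comp_eq_zero_iff.mp h with h1 | ⟨-, h1⟩
  · exact hf h1
  · apply hu
    rw [h1, natDegree_C]

/-- the substitution `t ↦ u` -/
noncomputable def subst (u : k[X]) (hu : u.natDegree ≠ 0) : RatFunc k →+* RatFunc k :=
  IsFractionRing.lift (A := k[X]) (K := RatFunc k) (L := RatFunc k)
    (g := (algebraMap k[X] (RatFunc k)).comp (compRingHom u)) (by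
      rw [injective_iff_map_eq_zero]
      intro f hf
      rw [RingHom.comp_apply, map_eq_zero_iff _ (IsFractionRing.injective k[X] (RatFunc k)),
        coe_compRingHom_apply] at hf
      by_contra h
      exact comp_ne_zero' hu h hf)

lemma subst_algebraMap (u : k[X]) (hu : u.natDegree ≠ 0) (f : k[X]) :
    subst u hu (algebraMap k[X] (RatFunc k) f) = algebraMap k[X] (RatFunc k) (f.comp u) := by
  unfold subst
  rw [IsFractionRing.lift_algebraMap]
  rfl

lemma E3_subst (u : k[X]) (hu : u.natDegree ≠ 0) (a b : k[X]) :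
    (E3 a b).map (subst u hu) = E3 (a.comp u) (b.comp u) := by
  simp [E3, WeierstrassCurve.map, subst_algebraMap]

/-- the rank does not drop -/
lemma rank_comp_ge (u : k[X]) (hu : u.natDegree ≠ 0) (a b : k[X])
    (hfin : open Classical in
      Module.Finite ℤ (E3 (a.comp u) (b.comp u)).toAffine.Point) :
    algebraicRank (E3 a b) ≤ algebraicRank (E3 (a.comp u) (b.comp u)) := by
  classical
  have h := exists_point_map (subst u hu) (E3 a b)
  rw [E3_subst] at h
  obtain ⟨f, hf⟩ := h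
  unfold algebraicRank
  exact LinearMap.finrank_le_finrank_of_injective (f := f.toIntLinearMap) hf

section

variable {n : ℕ} {u : k[X]} {r : Fin n → k} {κ : k}

lemma comp_b : (C κ * ∏ i, (X - C (r i)) : k[X]).comp u = C κ * ∏ i, (u - C (r i)) := by
  rw [mul_comp, C_comp, prod_comp]
  simp

lemma dvd_b {π : k[X]} (hκ : κ ≠ 0) (hπ : Irreducible π) (h : π ∣ C κ * ∏ i, (u - C (r i))) :
    ∃ i, π ∣ u - C (r i) := by
  rcases hπ.prime.dvd_or_dvd h with h | h
  · exact absurd (isUnit_of_dvd_unit h (isUnit_C.mpr (isUnit_iff_ne_zero.mpr hκ))) hπ.not_isUnit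
  · obtain ⟨i, -, hi⟩ := (hπ.prime.dvd_finsetProd_iff _).mp h
    exact ⟨i, hi⟩

lemma natDegree_sub (a : k) : (u - C a).natDegree = u.natDegree := natDegree_sub_C

lemma not_sq_dvd {π : k[X]} (hκ : κ ≠ 0) (hr : Function.Injective r)
    (hirr : ∀ i, Irreducible (u - C (r i))) (hπ : Irreducible π) :
    ¬ π ^ 2 ∣ C κ * ∏ i, (u - C (r i)) := by
  classical
  intro h
  obtain ⟨i, hi⟩ := dvd_b hκ hπ ((dvd_pow_self π two_ne_zero).trans h)
  have has : Associated π (u - C (r i)) :=
    ((hirr i).dvd_iff.mp hi).resolve_left hπ.not_isUnit |>.symm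
  rw [← Finset.mul_prod_erase _ _ (Finset.mem_univ i), mul_left_comm, sq] at h
  have h1 : π * π ∣ π * (C κ * ∏ j ∈ Finset.univ.erase i, (u - C (r j))) :=
    h.trans (Associated.mul_right has.symm _).dvd
  have h2 := (mul_dvd_mul_iff_left hπ.ne_zero).mp h1
  rcases hπ.prime.dvd_or_dvd h2 with h3 | h3
  · exact absurd (isUnit_of_dvd_unit h3 (isUnit_C.mpr (isUnit_iff_ne_zero.mpr hκ))) hπ.not_isUnit
  · obtain ⟨j, hj, hj2⟩ := (hπ.prime.dvd_finsetProd_iff _).mp h3
    have hji : j ≠ i := Finset.ne_of_mem_erase hj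
    have h4 : π ∣ C (r j - r i) := by
      have := dvd_sub hi hj2
      rw [C_sub]
      convert this using 1
      ring
    refine absurd (isUnit_of_dvd_unit h4 (isUnit_C.mpr (isUnit_iff_ne_zero.mpr ?_)))
      hπ.not_isUnit
    rw [sub_ne_zero]
    exact fun h => hji (hr h)

variable [Finite k]

lemma card_primesOf_le (hκ : κ ≠ 0) (hirr : ∀ i, Irreducible (u - C (r i))) :
    (primesOf (C κ * ∏ i, (u - C (r i)))).card ≤ n := by
  classical
  have hsub : primesOf (C κ * ∏ i, (u - C (r i))) ⊆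
      Finset.univ.image (fun i : Fin n => normalize (u - C (r i))) := by
    intro π hπ
    obtain ⟨h1, h2, h3⟩ := primesOf_spec hπ
    obtain ⟨i, hi⟩ := dvd_b hκ h2 h3
    rw [Finset.mem_image]
    refine ⟨i, Finset.mem_univ i, ?_⟩
    rw [← h1.normalize_eq_self]
    exact normalize_eq_normalize (h2.dvd_symm (hirr i) hi) hi
  calc (primesOf (C κ * ∏ i, (u - C (r i)))).card ≤ _ := Finset.card_le_card hsub
    _ ≤ (Finset.univ : Finset (Fin n)).card := Finset.card_image_le
    _ = n := by simp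

lemma natDegree_of_mem (hκ : κ ≠ 0) (hirr : ∀ i, Irreducible (u - C (r i))) {π : k[X]}
    (hπ : π ∈ primesOf (C κ * ∏ i, (u - C (r i)))) : π.natDegree = u.natDegree := by
  obtain ⟨h1, h2, h3⟩ := primesOf_spec hπ
  obtain ⟨i, hi⟩ := dvd_b hκ h2 h3
  have has : Associated π (u - C (r i)) :=
    ((hirr i).dvd_iff.mp hi).resolve_left h2.not_isUnit |>.symm
  rw [← natDegree_sub (u := u) (r i)]
  exact natDegree_eq_of_degree_eq (degree_eq_degree_of_associated has)

/-- **Pull-backs.** -/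
theorem pullback (h2 : (2 : k) ≠ 0) (h3 : (3 : k) ≠ 0) (hq : Nat.card k % 3 = 2)
    (hκ : κ ≠ 0) (hr : Function.Injective r) (hn : 0 < n) (a : k[X])
    (hc : a ^ 3 - 27 * (C κ * ∏ i, (X - C (r i))) ≠ 0)
    (hrank : n + (if 3 ∣ n ∧ 3 * a.natDegree ≤ n then 0 else 1) ≤
      algebraicRank (E3 a (C κ * ∏ i, (X - C (r i)))) + 2)
    (hu3 : ¬ 3 ∣ u.natDegree) (hirr : ∀ i, Irreducible (u - C (r i)))
    (hodd : ∀ π : k[X], Irreducible π →
      π ∣ (a ^ 3 - 27 * (C κ * ∏ i, (X - C (r i)))).comp u → Odd π.natDegree) :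
    (open Classical in Module.Finite ℤ
      (E3 (a.comp u) ((C κ * ∏ i, (X - C (r i))).comp u)).toAffine.Point) ∧
    algebraicRank (E3 (a.comp u) ((C κ * ∏ i, (X - C (r i))).comp u)) + 2 =
      n + (if 3 ∣ n ∧ 3 * a.natDegree ≤ n then 0 else 1) ∧
    ∀ (m : ℕ) (g : ℤ[X]), (((1 - C (Nat.card k : ℤ) * X) ^ m * g : ℤ[X]) : PowerSeries ℤ) =
      LSeries k (E3 (a.comp u) ((C κ * ∏ i, (X - C (r i))).comp u)) →
      m + 2 ≤ n + (if 3 ∣ n ∧ 3 * a.natDegree ≤ n then 0 else 1) := by
  classical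
  have hu0 : u.natDegree ≠ 0 := by
    intro h
    exact hu3 (h ▸ dvd_zero 3)
  have hb1 : (C κ * ∏ i, (X - C (r i)) : k[X]) ≠ 0 :=
    mul_ne_zero (C_ne_zero.mpr hκ) (Finset.prod_ne_zero_iff.mpr fun i _ => X_sub_C_ne_zero _)
  have hb : (C κ * ∏ i, (X - C (r i)) : k[X]).comp u ≠ 0 := comp_ne_zero' hu0 hb1
  have hdisc : (a ^ 3 - 27 * (C κ * ∏ i, (X - C (r i)))).comp u =
      (a.comp u) ^ 3 - 27 * ((C κ * ∏ i, (X - C (r i))).comp u) := by
    rw [sub_comp, pow_comp, mul_comp]
    congr 2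
    have : (27 : k[X]) = C 27 := (map_ofNat C 27).symm
    rw [this, C_comp]
  have hc' : (a.comp u) ^ 3 - 27 * ((C κ * ∏ i, (X - C (r i))).comp u) ≠ 0 := by
    rw [← hdisc]
    exact comp_ne_zero' hu0 hc
  have hdeg : (C κ * ∏ i, (X - C (r i)) : k[X]).natDegree = n := by
    rw [natDegree_C_mul hκ, natDegree_prod _ _ fun i _ => X_sub_C_ne_zero _]
    simp
  have hdega : (a.comp u).natDegree = a.natDegree * u.natDegree := natDegree_comp
  have hdegb : ((C κ * ∏ i, (X - C (r i)) : k[X]).comp u).natDegree = n * u.natDegree := by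
    rw [natDegree_comp, hdeg]
  have hcond : (3 ∣ ((C κ * ∏ i, (X - C (r i)) : k[X]).comp u).natDegree ∧
      3 * (a.comp u).natDegree ≤ ((C κ * ∏ i, (X - C (r i)) : k[X]).comp u).natDegree) ↔
      (3 ∣ n ∧ 3 * a.natDegree ≤ n) := by
    rw [hdega, hdegb, Nat.Prime.dvd_mul Nat.prime_three, or_iff_left hu3, ← mul_assoc,
      Nat.mul_le_mul_right_iff (Nat.pos_of_ne_zero hu0)]
  have hfilter : ((primesOf ((a.comp u) ^ 3 - 27 * ((C κ * ∏ i, (X - C (r i))).comp u))).filter
      (fun π => Even π.natDegree)) = ∅ := by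
    rw [Finset.filter_eq_empty_iff]
    intro π hπ
    obtain ⟨-, g2, g3⟩ := primesOf_spec hπ
    rw [← hdisc] at g3
    exact Nat.not_even_iff_odd.mpr (hodd π g2 g3)
  have hmin : ∀ π : k[X], π.Monic → Irreducible π → π ∣ a.comp u →
      ¬ π ^ 3 ∣ (C κ * ∏ i, (X - C (r i)) : k[X]).comp u := by
    intro π _ h2 _ h
    rw [comp_b] at h
    exact not_sq_dvd hκ hr hirr h2 ((pow_dvd_pow π (by norm_num)).trans h)
  have hcard : (primesOf ((C κ * ∏ i, (X - C (r i)) : k[X]).comp u)).card ≤ n := by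
    rw [comp_b]
    exact card_primesOf_le hκ hirr
  have hloc : ∃ π : k[X], π.Monic ∧ Irreducible π ∧
      π ∣ (C κ * ∏ i, (X - C (r i)) : k[X]).comp u ∧ ¬ 3 ∣ π.natDegree := by
    have hi := hirr ⟨0, hn⟩
    refine ⟨normalize (u - C (r ⟨0, hn⟩)), monic_normalize hi.ne_zero,
      (associated_normalize _).irreducible hi, ?_, ?_⟩
    · rw [comp_b, normalize_dvd_iff]
      exact (Finset.dvd_prod_of_mem _ (Finset.mem_univ _)).mul_left _
    · rw [natDegree_eq_of_degree_eq (degree_eq_degree_of_associated (associated_normalize _).symm),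
        natDegree_sub]
      exact hu3
  obtain ⟨hfin, hle⟩ := T3.algebraic_bound h3 hq (a.comp u)
    ((C κ * ∏ i, (X - C (r i))).comp u) hb hc' hmin (Or.inr hloc)
  rw [hfilter, Finset.card_empty, add_zero] at hle
  simp only [hcond] at hle
  have hge := rank_comp_ge u hu0 a _ hfin
  refine ⟨hfin, ?_, ?_⟩
  · omega
  · intro m g hg
    have h4 := analytic_bound h2 h3 hq _ _ hb hc' hmin m g hg
    unfold anBound at h4
    rw [hfilter, Finset.sum_empty, add_zero] at h4
    simp only [hcond] at h4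
    have h5 : ∑ π ∈ primesOf ((C κ * ∏ i, (X - C (r i)) : k[X]).comp u),
        3 ^ padicValNat 3 π.natDegree ≤ n := by
      calc ∑ π ∈ primesOf ((C κ * ∏ i, (X - C (r i)) : k[X]).comp u),
            3 ^ padicValNat 3 π.natDegree
          = ∑ π ∈ primesOf ((C κ * ∏ i, (X - C (r i)) : k[X]).comp u), 1 := by
            refine Finset.sum_congr rfl fun π hπ => ?_
            rw [comp_b] at hπ
            rw [natDegree_of_mem hκ hirr hπ, padicValNat.eq_zero_of_not_dvd hu3, pow_zero]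
        _ = (primesOf ((C κ * ∏ i, (X - C (r i)) : k[X]).comp u)).card := by simp
        _ ≤ n := hcard
    omega

end

end Pool.Agent.BSDFF.Three
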