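import Mathlib

/-!
The number of affine points of `y² + a x y + b y = x³` over a finite field, modulo three.
-/

set_option autoImplicit false

namespace Pool.Agent.BSDFF.Three

lemma nat_card_modEq_fixed3 {α : Type} [Finite α] (f : α → α) (hf : ∀ x, f (f (f x)) = x) :
    Nat.card α ≡ Nat.card {x : α // f x = x} [MOD 3] := by
  classical
  have : Fintype α := Fintype.ofFinite α
  let g : Function.End α := f
  have h : g ^ 3 ^ 1 = 1 := by
    rw [pow_one, pow_succ, pow_two]
    funext x
    exact hf x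
  have : Fact (Nat.Prime 3) := ⟨Nat.prime_three⟩
  have h1 := Equiv.Perm.card_fixedPoints_modEq (p := 3) (n := 1) (f := g) h
  have h2 : Fintype.card g.fixedPoints = Nat.card {x : α // f x = x} := by
    rw [← Nat.card_eq_fintype_card]
    exact Nat.card_congr (Equiv.refl _)
  rw [← h2, Nat.card_eq_fintype_card]
  exact h1

section

variable {F : Type} [Field F] (α β : F)

/-- the affine points of `y² + α x y + β y = x³` -/
abbrev Sol : Type := {p : F × F // p.2 ^ 2 + α * p.1 * p.2 + β * p.2 = p.1 ^ 3}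

variable {α β}

lemma y_ne (p : Sol α β) (hx : p.1.1 ≠ 0) : p.1.2 ≠ 0 := by
  intro hy
  have h := p.2
  rw [hy] at h
  apply pow_ne_zero 3 hx
  rw [← h]
  ring

/-- translation by the point `(0,0)` of order three -/
noncomputable def tr (hβ : β ≠ 0) (p : Sol α β) (hx : p.1.1 ≠ 0) : Sol α β :=
  ⟨(-β * p.1.2 / p.1.1 ^ 2, -β ^ 2 * p.1.2 / p.1.1 ^ 3), by
    have h := p.2
    have hy := y_ne p hx
    simp only
    field_simp
    linear_combination h⟩

lemma tr_x (hβ : β ≠ 0) (p : Sol α β) (hx : p.1.1 ≠ 0) :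
    (tr hβ p hx).1.1 = -β * p.1.2 / p.1.1 ^ 2 := rfl

lemma tr_y (hβ : β ≠ 0) (p : Sol α β) (hx : p.1.1 ≠ 0) :
    (tr hβ p hx).1.2 = -β ^ 2 * p.1.2 / p.1.1 ^ 3 := rfl

lemma tr_x_ne (hβ : β ≠ 0) (p : Sol α β) (hx : p.1.1 ≠ 0) : (tr hβ p hx).1.1 ≠ 0 := by
  have hy := y_ne p hx
  rw [tr_x]
  exact div_ne_zero (mul_ne_zero (neg_ne_zero.mpr hβ) hy) (pow_ne_zero _ hx)

open Classical in
/-- the permutation of order three -/
noncomputable def tau (hβ : β ≠ 0) (p : Sol α β) : Sol α β :=
  if hx : p.1.1 ≠ 0 then tr hβ p hx else p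

lemma tau_pos (hβ : β ≠ 0) (p : Sol α β) (hx : p.1.1 ≠ 0) : tau hβ p = tr hβ p hx := by
  unfold tau
  rw [dif_pos hx]

lemma tau_neg (hβ : β ≠ 0) (p : Sol α β) (hx : p.1.1 = 0) : tau hβ p = p := by
  unfold tau
  rw [dif_neg (not_not.mpr hx)]

lemma tau_tau_tau (hβ : β ≠ 0) (p : Sol α β) : tau hβ (tau hβ (tau hβ p)) = p := by
  by_cases hx : p.1.1 = 0
  · rw [tau_neg hβ p hx, tau_neg hβ p hx, tau_neg hβ p hx]
  · have hy := y_ne p hx
    have h1 := tr_x_ne hβ p hx
    have h2 := tr_x_ne hβ _ h1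
    rw [tau_pos hβ p hx, tau_pos hβ _ h1, tau_pos hβ _ h2]
    apply Subtype.ext
    apply Prod.ext
    · simp only [tr_x, tr_y]
      field_simp
    · simp only [tr_x, tr_y]
      field_simp

lemma fixed_iff (hβ : β ≠ 0) (h : α ^ 3 ≠ 27 * β) (p : Sol α β) :
    tau hβ p = p ↔ p.1.1 = 0 := by
  constructor
  · intro hp
    by_contra hx
    have hy := y_ne p hx
    rw [tau_pos hβ p hx] at hp
    have h1 : -β * p.1.2 / p.1.1 ^ 2 = p.1.1 := congrArg (fun z : Sol α β => z.1.1) hp
    have h2 : -β ^ 2 * p.1.2 / p.1.1 ^ 3 = p.1.2 := congrArg (fun z : Sol α β => z.1.2) hp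
    rw [div_eq_iff (pow_ne_zero _ hx)] at h1 h2
    have h3 : p.1.1 ^ 3 = -β ^ 2 := by
      apply mul_left_cancel₀ hy
      linear_combination -h2
    have h4 : p.1.2 = β := by
      apply mul_left_cancel₀ hβ
      linear_combination -h1 - h3
    have h5 := p.2
    rw [h3, h4] at h5
    have h6 : α * p.1.1 = -3 * β := by
      apply mul_left_cancel₀ hβ
      linear_combination h5
    apply h
    have h7 : (α * p.1.1) ^ 3 = (-3 * β) ^ 3 := by rw [h6]
    have h8 : β ^ 2 ≠ 0 := pow_ne_zero _ hβ
    apply mul_left_cancel₀ h8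
    linear_combination -h7 + α ^ 3 * h3
  · exact tau_neg hβ p

end

/-- the number of affine points of `y² + α x y + β y = x³` is `2` modulo `3` -/
theorem card_sol {F : Type} [Field F] [Finite F] {α β : F} (hβ : β ≠ 0) (h : α ^ 3 ≠ 27 * β) :
    Nat.card (Sol α β) ≡ 2 [MOD 3] := by
  refine (nat_card_modEq_fixed3 (tau hβ) (tau_tau_tau hβ)).trans ?_
  have e : {p : Sol α β // tau hβ p = p} ≃ {y : F // y = 0 ∨ y = -β} :=
    { toFun := fun p => ⟨p.1.1.2, by
        have hx := (fixed_iff hβ h p.1).mp p.2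
        have h1 := p.1.2
        rw [hx] at h1
        have h2 : p.1.1.2 * (p.1.1.2 + β) = 0 := by linear_combination h1
        rcases mul_eq_zero.mp h2 with h3 | h3
        · exact Or.inl h3
        · exact Or.inr (eq_neg_of_add_eq_zero_left h3)⟩
      invFun := fun y => ⟨⟨(0, y.1), by
          rcases y.2 with h3 | h3 <;> rw [h3] <;> ring⟩, (fixed_iff hβ h _).mpr rfl⟩
      left_inv := fun p => by
        apply Subtype.ext
        apply Subtype.ext
        apply Prod.ext
        · exact ((fixed_iff hβ h p.1).mp p.2).symm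
        · rfl
      right_inv := fun y => rfl }
  rw [Nat.card_congr e]
  have h2 : Nat.card {y : F // y = 0 ∨ y = -β} = 2 := by
    rw [Nat.card_eq_two_iff]
    refine ⟨⟨0, Or.inl rfl⟩, ⟨-β, Or.inr rfl⟩, ?_, ?_⟩
    · intro h3
      have := congrArg Subtype.val h3
      exact hβ (neg_eq_zero.mp this.symm)
    · ext ⟨y, hy⟩
      simp only [Set.mem_insert_iff, Set.mem_singleton_iff, Subtype.mk.injEq, Set.mem_univ,
        iff_true]
      exact hy
  rw [h2]

/-- `-3` is a square in a finite field with `Q ≡ 1 (mod 3)` elements -/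
theorem neg_three_isSquare {F : Type} [Field F] [Finite F] (h2 : (2 : F) ≠ 0) (h3 : (3 : F) ≠ 0) :
    IsSquare (-3 : F) ↔ Nat.card F % 3 = 1 := by
  classical
  have : Fintype F := Fintype.ofFinite F
  have hcard : Nat.card Fˣ = Nat.card F - 1 := by
    rw [Nat.card_eq_fintype_card, Nat.card_eq_fintype_card, Fintype.card_units]
  have hpos : 1 < Nat.card F := Finite.one_lt_card
  have : Fact (Nat.Prime 3) := ⟨Nat.prime_three⟩
  constructor
  · rintro ⟨s, hs⟩
    set w : F := (-1 + s) / 2 with hw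
    have hw2 : 2 * w = -1 + s := by rw [hw]; field_simp
    have hw1 : w ^ 2 + w + 1 = 0 := by
      have h4 : (4 : F) ≠ 0 := by
        have : (4 : F) = 2 * 2 := by norm_num
        rw [this]; exact mul_ne_zero h2 h2
      apply mul_left_cancel₀ h4
      linear_combination (2 * w + 1 + s) * hw2 - hs
    have hw0 : w ≠ 0 := by
      intro h
      rw [h] at hw1
      norm_num at hw1
    have hw3 : w ^ 3 = 1 := by linear_combination (w - 1) * hw1
    have hwne : w ≠ 1 := by
      intro h
      rw [h] at hw1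
      apply h3
      linear_combination hw1
    set u : Fˣ := Units.mk0 w hw0 with hu
    have hu3 : u ^ 3 = 1 := by
      apply Units.ext
      simpa [hu] using hw3
    have hune : u ≠ 1 := by
      intro h
      apply hwne
      have := congrArg Units.val h
      simpa [hu] using this
    have hord : orderOf u = 3 := orderOf_eq_prime hu3 hune
    have hdvd : 3 ∣ Nat.card Fˣ := by
      rw [← hord]
      exact orderOf_dvd_natCard u
    omega
  · intro h
    have hdvd : 3 ∣ Nat.card Fˣ := by omega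
    obtain ⟨u, hu⟩ := exists_prime_orderOf_dvd_card' 3 hdvd
    set w : F := (u : F) with hw
    have hw3 : w ^ 3 = 1 := by
      have := pow_orderOf_eq_one u
      rw [hu] at this
      have := congrArg Units.val this
      simpa using this
    have hwne : w ≠ 1 := by
      intro h
      have h1 : u = 1 := Units.ext h
      rw [h1, orderOf_one] at hu
      norm_num at hu
    have hw1 : w ^ 2 + w + 1 = 0 := by
      have : (w - 1) * (w ^ 2 + w + 1) = 0 := by linear_combination hw3
      exact (mul_eq_zero.mp this).resolve_left (sub_ne_zero.mpr hwne)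
    exact ⟨2 * w + 1, by linear_combination (-4) * hw1⟩

end Pool.Agent.BSDFF.Three
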