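import Mathlib

/-!
The elliptic curves over `k(t)` with a rational point of order three, in the form
`y² + a x y + b y = x³`.
-/

set_option autoImplicit false

open Polynomial

namespace Pool.Agent.BSDFF.Three

/-- The curve `y² + a x y + b y = x³` over any commutative ring. -/
def curve3 {R : Type} [CommRing R] (a b : R) : WeierstrassCurve R := ⟨a, 0, b, 0, 0⟩

/-- The curve `y² + a x y + b y = x³` over `k(t)`, for polynomials `a`, `b` in `k[t]`. -/
noncomputable def E3 {k : Type} [Field k] (a b : k[X]) : WeierstrassCurve (RatFunc k) :=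
  ⟨algebraMap k[X] (RatFunc k) a, 0, algebraMap k[X] (RatFunc k) b, 0, 0⟩

theorem E3_eq {k : Type} [Field k] (a b : k[X]) :
    E3 a b = (curve3 a b).map (algebraMap k[X] (RatFunc k)) := by
  simp [E3, curve3, WeierstrassCurve.map]

theorem curve3_Δ {R : Type} [CommRing R] (a b : R) :
    (curve3 a b).Δ = b ^ 3 * (a ^ 3 - 27 * b) := by
  simp only [curve3, WeierstrassCurve.Δ, WeierstrassCurve.b₂, WeierstrassCurve.b₄,
    WeierstrassCurve.b₆, WeierstrassCurve.b₈]
  ring

theorem curve3_c₄ {R : Type} [CommRing R] (a b : R) :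
    (curve3 a b).c₄ = a * (a ^ 3 - 24 * b) := by
  simp only [curve3, WeierstrassCurve.c₄, WeierstrassCurve.b₂, WeierstrassCurve.b₄]
  ring

end Pool.Agent.BSDFF.Three
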