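import Pool.Agent.Lib.MP_48b749_nt.Three.FamPull

/-!
Towers `t ↦ γ t^(l^N)`; lower bounds for the rank of `y² + a x y + b y = x³`, `b` a product of
distinct linear factors, from explicit points.
-/

set_option autoImplicit false

open Polynomial

namespace Pool.Agent.BSDFF.Three

variable {k : Type} [Field k]

section

variable {n : ℕ} {r : Fin n → k} {κ : k}

lemma three_not_dvd_pow {l : ℕ} (hl : l.Prime) (hl5 : 5 ≤ l) (N : ℕ) : ¬ 3 ∣ l ^ N := by
  intro h
  have := (Nat.prime_dvd_prime_iff_eq Nat.prime_three hl).mp (Nat.prime_three.dvd_of_dvd_pow h)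
  omega

/-- odd degrees in the tower -/
lemma odd_tower [Finite k] {l : ℕ} (hl : l.Prime) (hl5 : 5 ≤ l) (hlq : l ∣ Nat.card k - 1) (N : ℕ)
    {γ : k} (hγ : γ ≠ 0) {D : k[X]} (hD : D ≠ 0)
    (hodd : ∀ π : k[X], Irreducible π → π ∣ D → Odd π.natDegree) {π : k[X]} (hπ : Irreducible π)
    (h : π ∣ D.comp (C γ * X ^ l ^ N)) : Odd π.natDegree := by
  classical
  have hlo : Odd l := hl.odd_of_ne_two (by omega)
  -- factor `D`
  have key : ∀ s : Multiset k[X], (∀ P ∈ s, Irreducible P ∧ Odd P.natDegree) →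
      π ∣ (s.prod).comp (C γ * X ^ l ^ N) → Odd π.natDegree := by
    intro s
    induction s using Multiset.induction_on with
    | empty =>
      intro _ h1
      rw [Multiset.prod_zero, one_comp] at h1
      exact absurd (isUnit_of_dvd_one h1) hπ.not_isUnit
    | cons P s ih =>
      intro hs h1
      rw [Multiset.prod_cons, mul_comp] at h1
      rcases hπ.prime.dvd_or_dvd h1 with h2 | h2
      · obtain ⟨g1, g2⟩ := hs P (Multiset.mem_cons_self _ _)
        exact odd_natDegree_comp hlo hlq N hγ g1 g2 hπ h2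
      · exact ih (fun P hP => hs P (Multiset.mem_cons_of_mem hP)) h2
  obtain ⟨s, hs, hs2⟩ := UniqueFactorizationMonoid.exists_prime_factors D hD
  obtain ⟨w, hw⟩ := hs2
  have h1 : D = s.prod * (w : k[X]) := hw.symm
  have hw2 : IsUnit ((w : k[X]).comp (C γ * X ^ l ^ N)) := by
    obtain ⟨c, hc, hc2⟩ := isUnit_iff.mp w.isUnit
    rw [← hc2, C_comp]
    exact isUnit_C.mpr hc
  rw [h1, mul_comp] at h
  rcases hπ.prime.dvd_or_dvd h with h2 | h2
  · refine key s (fun P hP => ⟨(hs P hP).irreducible, hodd P (hs P hP).irreducible ?_⟩) h2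
    rw [h1]
    exact (Multiset.dvd_prod hP).mul_right _
  · exact absurd (isUnit_of_dvd_unit h2 hw2) hπ.not_isUnit

/-- **Towers.** -/
theorem tower [Finite k] (h2 : (2 : k) ≠ 0) (h3 : (3 : k) ≠ 0) (hq : Nat.card k % 3 = 2)
    (hκ : κ ≠ 0) (hr : Function.Injective r) (hn : 0 < n) (a : k[X])
    (hc : a ^ 3 - 27 * (C κ * ∏ i, (X - C (r i))) ≠ 0)
    (hrank : n + (if 3 ∣ n ∧ 3 * a.natDegree ≤ n then 0 else 1) ≤
      algebraicRank (E3 a (C κ * ∏ i, (X - C (r i)))) + 2)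
    (hodd : ∀ π : k[X], Irreducible π →
      π ∣ a ^ 3 - 27 * (C κ * ∏ i, (X - C (r i))) → Odd π.natDegree)
    {l : ℕ} (hl : l.Prime) (hl5 : 5 ≤ l) (hlq : l ∣ Nat.card k - 1)
    {γ : k} (hγ : γ ≠ 0) (hγr : ∀ i, ∀ b : k, b ^ l ≠ r i / γ) (N : ℕ) :
    (open Classical in Module.Finite ℤ
      (E3 (a.comp (C γ * X ^ l ^ N))
        ((C κ * ∏ i, (X - C (r i))).comp (C γ * X ^ l ^ N))).toAffine.Point) ∧
    algebraicRank (E3 (a.comp (C γ * X ^ l ^ N))
      ((C κ * ∏ i, (X - C (r i))).comp (C γ * X ^ l ^ N))) + 2 =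
      n + (if 3 ∣ n ∧ 3 * a.natDegree ≤ n then 0 else 1) ∧
    ∀ (m : ℕ) (g : ℤ[X]), (((1 - C (Nat.card k : ℤ) * X) ^ m * g : ℤ[X]) : PowerSeries ℤ) =
      LSeries k (E3 (a.comp (C γ * X ^ l ^ N))
        ((C κ * ∏ i, (X - C (r i))).comp (C γ * X ^ l ^ N))) →
      m + 2 ≤ n + (if 3 ∣ n ∧ 3 * a.natDegree ≤ n then 0 else 1) :=
  pullback h2 h3 hq hκ hr hn a hc hrank
    (by rw [natDegree_pow hγ]; exact three_not_dvd_pow hl hl5 N)
    (fun i => irreducible_pow hl (by omega) N hγ (hγr i))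
    (fun π hπ h => odd_tower hl hl5 hlq N hγ hc hodd hπ h)

/-- the value of a product of linear factors at one of them -/
lemma vchar_prod (hr : Function.Injective r) {c : k} (hc : c ≠ 0) (e : Fin n → ℕ) (i : Fin n) :
    T3.vchar (T3.pval (T3.ofPrime (irreducible_X_sub_C (r i)).prime))
      (algebraMap k[X] (RatFunc k) (C c * ∏ j, (X - C (r j)) ^ e j)) = -(e i : ZMod 3) := by
  classical
  have h1 : (C c * ∏ j, (X - C (r j)) ^ e j : k[X]) =
      (X - C (r i)) ^ e i * (C c * ∏ j ∈ Finset.univ.erase i, (X - C (r j)) ^ e j) := by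
    rw [← Finset.mul_prod_erase _ _ (Finset.mem_univ i)]
    ring
  rw [h1]
  refine T3.vchar_poly (irreducible_X_sub_C _) ?_ _
  rw [dvd_iff_isRoot, IsRoot.def, eval_mul, eval_C, eval_prod]
  refine mul_ne_zero hc (Finset.prod_ne_zero_iff.mpr fun j hj => ?_)
  rw [eval_pow, eval_sub, eval_X, eval_C]
  refine pow_ne_zero _ (sub_ne_zero.mpr fun h => Finset.ne_of_mem_erase hj (hr h.symm))

variable [Finite k]

lemma base_finite (h3 : (3 : k) ≠ 0) (hq : Nat.card k % 3 = 2)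
    (hκ : κ ≠ 0) (hr : Function.Injective r) (hn : 0 < n) (a : k[X])
    (hc : a ^ 3 - 27 * (C κ * ∏ i, (X - C (r i))) ≠ 0) :
    open Classical in
      Module.Finite ℤ (E3 a (C κ * ∏ i, (X - C (r i)))).toAffine.Point := by
  classical
  have hb1 : (C κ * ∏ i, (X - C (r i)) : k[X]) ≠ 0 :=
    mul_ne_zero (C_ne_zero.mpr hκ) (Finset.prod_ne_zero_iff.mpr fun i _ => X_sub_C_ne_zero _)
  refine (T3.algebraic_bound h3 hq a _ hb1 hc ?_ (Or.inr ?_)).1
  · intro π _ h2 _ h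
    exact not_sq_dvd (u := X) hκ hr (fun i => irreducible_X_sub_C _) h2
      ((pow_dvd_pow π (by norm_num)).trans h)
  · refine ⟨X - C (r ⟨0, hn⟩), monic_X_sub_C _, irreducible_X_sub_C _, ?_, ?_⟩
    · exact (Finset.dvd_prod_of_mem (fun i => X - C (r i)) (Finset.mem_univ _)).mul_left _
    · rw [natDegree_X_sub_C]; norm_num

/-- lower bound of the rank from explicit points -/
theorem rank_ge_points (h3 : (3 : k) ≠ 0) (hq : Nat.card k % 3 = 2)
    (hκ : κ ≠ 0) (hr : Function.Injective r) (hn : 0 < n) (a : k[X])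
    (hc : a ^ 3 - 27 * (C κ * ∏ i, (X - C (r i))) ≠ 0) {t : ℕ} (p : Fin t → Fin n)
    (c : Fin t → k) (hc0 : ∀ j, c j ≠ 0) (e : Fin t → Fin n → ℕ) (x : Fin t → k[X])
    (hxy : ∀ j, (C (c j) * ∏ i, (X - C (r i)) ^ e j i) ^ 2 +
      a * x j * (C (c j) * ∏ i, (X - C (r i)) ^ e j i) +
      (C κ * ∏ i, (X - C (r i))) * (C (c j) * ∏ i, (X - C (r i)) ^ e j i) = x j ^ 3)
    (hdet : (Matrix.of fun i j => -(e j (p i) : ZMod 3)).det ≠ 0) :
    t ≤ algebraicRank (E3 a (C κ * ∏ i, (X - C (r i)))) + 1 := by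
  have hb1 : (C κ * ∏ i, (X - C (r i)) : k[X]) ≠ 0 :=
    mul_ne_zero (C_ne_zero.mpr hκ) (Finset.prod_ne_zero_iff.mpr fun i _ => X_sub_C_ne_zero _)
  have hy : ∀ j, (C (c j) * ∏ i, (X - C (r i)) ^ e j i : k[X]) ≠ 0 := fun j =>
    mul_ne_zero (C_ne_zero.mpr (hc0 j))
      (Finset.prod_ne_zero_iff.mpr fun i _ => pow_ne_zero _ (X_sub_C_ne_zero _))
  refine T3.rank_ge h3 hq hb1 hc (base_finite h3 hq hκ hr hn a hc)
    (fun i => X - C (r (p i))) (fun i => irreducible_X_sub_C _)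
    (fun j => algebraMap k[X] (RatFunc k) (x j))
    (fun j => algebraMap k[X] (RatFunc k) (C (c j) * ∏ i, (X - C (r i)) ^ e j i))
    (fun j => (map_ne_zero_iff _ (IsFractionRing.injective k[X] (RatFunc k))).mpr (hy j))
    (fun j => ?_) ?_
  · rw [← map_pow, ← map_pow, ← map_mul, ← map_mul, ← map_mul, ← map_add, ← map_add, hxy j]
  · have h1 : (Matrix.of fun i j => T3.vchar (T3.pval (T3.ofPrime
        (irreducible_X_sub_C (r (p i))).prime))
        (algebraMap k[X] (RatFunc k) (C (c j) * ∏ i, (X - C (r i)) ^ e j i))) =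
        Matrix.of fun i j => -(e j (p i) : ZMod 3) := by
      ext i j
      rw [Matrix.of_apply, Matrix.of_apply]
      exact vchar_prod hr (hc0 j) (e j) (p i)
    rw [h1]
    exact hdet

end

end Pool.Agent.BSDFF.Three
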