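import Pool.Agent.Lib.MP_48b749_nt.Three.FamFinal

/-!
A member of the family of rank three in characteristic `101`, and its tower.
-/

set_option autoImplicit false

open Polynomial

namespace Pool.Agent.BSDFF.Three

variable {k : Type} [Field k]

lemma nz101 (h : (101 : k) = 0) (m : ℕ) (hm : ¬ 101 ∣ m) : (m : k) ≠ 0 := by
  have hp : CharP k 101 := by
    rw [CharP.charP_iff_prime_eq_zero (by norm_num)]
    exact_mod_cast h
  exact fun h0 => hm ((CharP.cast_eq_zero_iff k 101 m).mp h0)

lemma rst101 (h : (101 : k) = 0) : (10 * 15 * 33 : k) = 1 := by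
  linear_combination 49 * h

lemma k3_101 (h : (101 : k) = 0) : k3 (10 : k) 15 33 = -2 := by
  unfold k3
  linear_combination 9397 * h

lemma root3_101 : root3 (10 : k) 15 33 = ![58, 10, 15, 33] := by
  unfold root3
  norm_num

lemma a3_101 (h : (101 : k) = 0) : a3 (10 : k) 15 33 = 2 * X ^ 2 + 88 * X + 5 := by
  have h' : (101 : k[X]) = 0 := by
    have : (101 : k[X]) = C 101 := (map_ofNat C 101).symm
    rw [this, h, C_0]
  unfold a3
  simp only [C_add, C_sub, C_mul, C_pow, map_one, map_ofNat]
  linear_combination (9420 - 2 * X) * h'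

lemma b3_101 (h : (101 : k) = 0) : bOf (k3 (10 : k) 15 33) (root3 (10 : k) 15 33) =
    -2 * ((X - 10) * (X - 15) * (X - 33) * (X - 58)) := by
  unfold bOf
  rw [k3_101 h, root3_101]
  simp only [Fin.prod_univ_four, Matrix.cons_val_zero, Matrix.cons_val_one,
    Matrix.cons_val, map_neg, map_ofNat]
  ring

lemma disc101 (h : (101 : k) = 0) :
    (a3 (10 : k) 15 33) ^ 3 - 27 * bOf (k3 (10 : k) 15 33) (root3 (10 : k) 15 33) =
      C 8 * ((X - C 29) ^ 2 * (X - C 73) * (X - C 80) ^ 2 * (X - C 82)) := by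
  have h' : (101 : k[X]) = 0 := by
    have : (101 : k[X]) = C 101 := (map_ofNat C 101).symm
    rw [this, h, C_0]
  rw [a3_101 h, b3_101 h]
  simp only [map_ofNat]
  linear_combination ((-2551850175) + (305848480) * X + (-14465432) * X ^ 2 +
    (352992) * X ^ 3 + (-3998) * X ^ 4 + (40) * X ^ 5) * h'

section

variable [Finite k]

omit [Finite k] in
lemma odd101 (h : (101 : k) = 0) {π : k[X]} (hπ : Irreducible π)
    (hd : π ∣ (a3 (10 : k) 15 33) ^ 3 - 27 * bOf (k3 (10 : k) 15 33) (root3 (10 : k) 15 33)) :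
    Odd π.natDegree := by
  rw [disc101 h] at hd
  have h8 : (8 : k) ≠ 0 := by exact_mod_cast nz101 h 8 (by norm_num)
  rcases hπ.prime.dvd_or_dvd hd with hd | hd
  · exact absurd (isUnit_of_dvd_unit hd (isUnit_C.mpr (isUnit_iff_ne_zero.mpr h8))) hπ.not_isUnit
  rcases hπ.prime.dvd_or_dvd hd with hd | hd
  · rcases hπ.prime.dvd_or_dvd hd with hd | hd
    · rcases hπ.prime.dvd_or_dvd hd with hd | hd
      · exact odd_linear hπ (hπ.prime.dvd_of_dvd_pow hd)
      · exact odd_linear hπ hd
    · exact odd_linear hπ (hπ.prime.dvd_of_dvd_pow hd)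
  · exact odd_linear hπ hd

/-- five divides `q - 1` -/
lemma five_dvd101 (h : (101 : k) = 0) : 5 ∣ Nat.card k - 1 := by
  have hp1 : CharP k 101 := by
    rw [CharP.charP_iff_prime_eq_zero (by norm_num)]
    exact_mod_cast h
  have hp : Fact (Nat.Prime 101) := ⟨by norm_num⟩
  have hf : Fintype k := Fintype.ofFinite k
  obtain ⟨m, -, hm⟩ := FiniteField.card k 101
  rw [Nat.card_eq_fintype_card, hm]
  have h1 := Nat.sub_dvd_pow_sub_pow 101 1 (m : ℕ)
  rw [one_pow] at h1
  exact (by norm_num : 5 ∣ 101 - 1).trans h1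

/-- A member of the family of rank three and its tower. -/
theorem family3_ex (h : (101 : k) = 0) (hq : Nat.card k % 3 = 2) :
    ∃ γ : k, γ ≠ 0 ∧ ∀ N : ℕ, ∀ u : k[X], u = C γ * X ^ 5 ^ N →
      RankIs k (E3 (2 * u ^ 2 + 88 * u + 5 : k[X])
        (-2 * ((u - 10) * (u - 15) * (u - 33) * (u - 58)) : k[X])) 3 := by
  have h2 : (2 : k) ≠ 0 := by exact_mod_cast nz101 h 2 (by norm_num)
  have h3 : (3 : k) ≠ 0 := by exact_mod_cast nz101 h 3 (by norm_num)
  have hk : k3 (10 : k) 15 33 ≠ 0 := by
    rw [k3_101 h]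
    exact neg_ne_zero.mpr h2
  have hinj : Function.Injective (root3 (10 : k) 15 33) := by
    rw [root3_101]
    have d1 : (48 : k) ≠ 0 := by exact_mod_cast nz101 h 48 (by norm_num)
    have d2 : (43 : k) ≠ 0 := by exact_mod_cast nz101 h 43 (by norm_num)
    have d3 : (25 : k) ≠ 0 := by exact_mod_cast nz101 h 25 (by norm_num)
    have d4 : (5 : k) ≠ 0 := by exact_mod_cast nz101 h 5 (by norm_num)
    have d5 : (23 : k) ≠ 0 := by exact_mod_cast nz101 h 23 (by norm_num)
    have d6 : (18 : k) ≠ 0 := by exact_mod_cast nz101 h 18 (by norm_num)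
    intro i j hij
    fin_cases i <;> fin_cases j <;>
      simp only [Fin.zero_eta, Fin.mk_one, Fin.reduceFinMk, Matrix.cons_val_zero,
        Matrix.cons_val_one, Matrix.cons_val] at hij ⊢
    · exact absurd (by linear_combination hij) d1
    · exact absurd (by linear_combination hij) d2
    · exact absurd (by linear_combination hij) d3
    · exact absurd (by linear_combination -hij) d1
    · exact absurd (by linear_combination -hij) d4
    · exact absurd (by linear_combination -hij) d5
    · exact absurd (by linear_combination -hij) d2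
    · exact absurd (by linear_combination hij) d4
    · exact absurd (by linear_combination -hij) d6
    · exact absurd (by linear_combination -hij) d3
    · exact absurd (by linear_combination hij) d5
    · exact absurd (by linear_combination hij) d6
  have hD : (a3 (10 : k) 15 33) ^ 3 - 27 * bOf (k3 (10 : k) 15 33) (root3 (10 : k) 15 33) ≠ 0 :=
    disc3_ne_zero h2 10 15 33
  obtain ⟨γ, hγ, hγN⟩ := tower_final (r := root3 (10 : k) 15 33) (l := 5) hD
    (fun π hπ hd => odd101 h hπ hd) (by
      rw [root3_101]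
      intro i
      fin_cases i <;> simp only [Fin.zero_eta, Fin.mk_one, Fin.reduceFinMk, Matrix.cons_val_zero,
        Matrix.cons_val_one, Matrix.cons_val]
      · exact_mod_cast nz101 h 58 (by norm_num)
      · exact_mod_cast nz101 h 10 (by norm_num)
      · exact_mod_cast nz101 h 15 (by norm_num)
      · exact_mod_cast nz101 h 33 (by norm_num)) (by norm_num) le_rfl (by norm_num)
    (five_dvd101 h)
  refine ⟨γ, hγ, fun N u hu => ?_⟩
  have key := family3 h2 h3 hq (rst101 h) hk hinj (hγN N)
  rw [a3_101 h, b3_101 h, ← hu] at key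
  have ea : (2 * X ^ 2 + 88 * X + 5 : k[X]).comp u = 2 * u ^ 2 + 88 * u + 5 := by simp
  have eb : (-2 * ((X - 10) * (X - 15) * (X - 33) * (X - 58)) : k[X]).comp u =
      -2 * ((u - 10) * (u - 15) * (u - 33) * (u - 58)) := by simp
  rwa [ea, eb] at key

end

end Pool.Agent.BSDFF.Three
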