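import Pool.Agent.Lib.MP_48b749_nt.Three.FamR7b

/-!
The families: non-isotriviality, admissible pull-backs, the family of rank three.
-/

set_option autoImplicit false

open Polynomial

namespace Pool.Agent.BSDFF.Three

section

variable {k : Type} [Field k]

lemma E3_Δ_ne_zero {a b : k[X]} (hb : b ≠ 0) (hc : a ^ 3 - 27 * b ≠ 0) : (E3 a b).Δ ≠ 0 := by
  rw [E3_Δ]
  exact (map_ne_zero_iff _ (IsFractionRing.injective k[X] (RatFunc k))).mpr
    (mul_ne_zero (pow_ne_zero _ hb) hc)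

/-- the `j`-invariant is not constant -/
lemma E3_j {a b π : k[X]} (hπ : Irreducible π) (hb : π ∣ b) (ha : ¬ π ∣ a) (c : k) :
    (E3 a b).c₄ ^ 3 ≠ algebraMap k (RatFunc k) c * (E3 a b).Δ := by
  rw [E3_Δ, E3_c₄]
  have e : algebraMap k (RatFunc k) c = algebraMap k[X] (RatFunc k) (C c) := by
    rw [RatFunc.algebraMap_C, RatFunc.algebraMap_eq_C]
  rw [e, ← map_pow, ← map_mul]
  intro h
  have h1 := RatFunc.algebraMap_injective k h
  have h2 : π ∣ (a * (a ^ 3 - 24 * b)) ^ 3 := by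
    rw [h1]
    exact ((dvd_pow hb (by norm_num)).mul_right _).mul_left _
  rcases hπ.prime.dvd_or_dvd (hπ.prime.dvd_of_dvd_pow h2) with h3 | h3
  · exact ha h3
  · apply ha
    apply hπ.prime.dvd_of_dvd_pow (n := 3)
    have := dvd_add h3 (hb.mul_left 24)
    rwa [sub_add_cancel] at this

variable {n : ℕ} {r : Fin n → k} {κ : k}

lemma pull_dvd (u : k[X]) (i : Fin n) :
    u - C (r i) ∣ (C κ * ∏ i, (X - C (r i)) : k[X]).comp u := by
  rw [comp_b]
  exact (Finset.dvd_prod_of_mem (fun i => u - C (r i)) (Finset.mem_univ i)).mul_left _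

lemma pull_not_dvd {u a : k[X]} {i : Fin n} (hirr : Irreducible (u - C (r i)))
    (ha : a.eval (r i) ≠ 0) : ¬ u - C (r i) ∣ a.comp u := by
  intro h
  obtain ⟨q, hq⟩ := X_sub_C_dvd_sub_C_eval (a := r i) (p := a)
  have h1 : a.comp u - C (a.eval (r i)) = (u - C (r i)) * q.comp u := by
    have := congrArg (fun f => f.comp u) hq
    simpa using this
  have h2 : u - C (r i) ∣ C (a.eval (r i)) := by
    have := dvd_sub h (Dvd.intro _ h1.symm)
    rwa [sub_sub_cancel] at this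
  exact hirr.not_isUnit (isUnit_of_dvd_unit h2 (isUnit_C.mpr (isUnit_iff_ne_zero.mpr ha)))

end

section

variable {k : Type} [Field k]

/-- The curve `y² + a x y + b y = x³` over `k`, for `a`, `b` in `k[t]`, `b = κ ∏ (t - r i)`. -/
noncomputable def bOf {n : ℕ} (κ : k) (r : Fin n → k) : k[X] := C κ * ∏ i, (X - C (r i))

/-- `u` is admissible: its degree is prime to `3`, the polynomials `u - r i` are irreducible, and
every irreducible factor of `D(u)` has odd degree. -/
def Admissible3 {n : ℕ} (r : Fin n → k) (D u : k[X]) : Prop :=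
  ¬ 3 ∣ u.natDegree ∧ (∀ i, Irreducible (u - C (r i))) ∧
    ∀ π : k[X], Irreducible π → π ∣ D.comp u → Odd π.natDegree

/-- The largest rank allowed by the descent: `n - 1`, or `n - 2` if the reduction at infinity is
good or has no part of this kind. -/
def maxRank (n : ℕ) (a : k[X]) : ℕ :=
  n + (if 3 ∣ n ∧ 3 * a.natDegree ≤ n then 0 else 1) - 2

open Classical in
/-- `W` is an elliptic curve over `k(t)` with non-constant `j`-invariant, finitely generated
group of points of rank `ρ`, and the multiplicity of `1/q` as a root of its `L`-function is at most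
`ρ`. -/
def RankIs (k : Type) [Field k] [Finite k] (W : WeierstrassCurve (RatFunc k)) (ρ : ℕ) : Prop :=
  W.Δ ≠ 0 ∧ (∀ c : k, W.c₄ ^ 3 ≠ algebraMap k (RatFunc k) c * W.Δ) ∧
    Module.Finite ℤ W.toAffine.Point ∧ algebraicRank W = ρ ∧ analyticRank k W ≤ ρ ∧
    ∀ (m : ℕ) (g : ℤ[X]), (((1 - C (Nat.card k : ℤ) * X) ^ m * g : ℤ[X]) : PowerSeries ℤ) =
      LSeries k W → m ≤ ρ

variable [Finite k]

omit [Finite k] in
lemma natDegree_ne_zero_of_admissible {n : ℕ} {r : Fin n → k} {D u : k[X]}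
    (h : Admissible3 r D u) : u.natDegree ≠ 0 := by
  intro h0
  exact h.1 (h0 ▸ dvd_zero 3)

lemma rankIs_of {W : WeierstrassCurve (RatFunc k)} {ρ : ℕ} (h1 : W.Δ ≠ 0)
    (h2 : ∀ c : k, W.c₄ ^ 3 ≠ algebraMap k (RatFunc k) c * W.Δ)
    (h3 : open Classical in Module.Finite ℤ W.toAffine.Point) (h4 : algebraicRank W = ρ)
    (h5 : ∀ (m : ℕ) (g : ℤ[X]), (((1 - C (Nat.card k : ℤ) * X) ^ m * g : ℤ[X]) : PowerSeries ℤ) =
      LSeries k W → m ≤ ρ) : RankIs k W ρ := by
  classical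
  refine ⟨h1, h2, h3, h4, ?_, h5⟩
  unfold analyticRank
  rcases Set.eq_empty_or_nonempty {n : ℕ | ∃ g : ℤ[X],
    (((1 - C (Nat.card k : ℤ) * X) ^ n * g : ℤ[X]) : PowerSeries ℤ) = LSeries k W} with h | h
  · rw [h, csSup_empty]
    exact bot_le
  · apply csSup_le h
    rintro m ⟨g, hg⟩
    exact h5 m g hg

/-- **Pull-backs**, final form. -/
theorem pullback_final (h2 : (2 : k) ≠ 0) (h3 : (3 : k) ≠ 0) (hq : Nat.card k % 3 = 2)
    {n : ℕ} {r : Fin n → k} {κ : k} (hκ : κ ≠ 0) (hr : Function.Injective r) (a : k[X])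
    (ha : ∃ i, a.eval (r i) ≠ 0) (hc : a ^ 3 - 27 * bOf κ r ≠ 0)
    (hrank : maxRank n a ≤ algebraicRank (E3 a (bOf κ r))) {u : k[X]}
    (hu : Admissible3 r (a ^ 3 - 27 * bOf κ r) u) :
    RankIs k (E3 (a.comp u) ((bOf κ r).comp u)) (maxRank n a) := by
  classical
  obtain ⟨i, hi⟩ := ha
  have hn : 0 < n := Nat.pos_of_ne_zero (by rintro rfl; exact i.elim0)
  have hu0 := natDegree_ne_zero_of_admissible hu
  obtain ⟨hu3, hirr, hodd⟩ := hu
  have hmr : maxRank n a + 2 = n + (if 3 ∣ n ∧ 3 * a.natDegree ≤ n then 0 else 1) := by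
    unfold maxRank
    have : 2 ≤ n + (if 3 ∣ n ∧ 3 * a.natDegree ≤ n then 0 else 1) := by
      split_ifs with h
      · have := Nat.le_of_dvd hn h.1
        omega
      · omega
    omega
  obtain ⟨t1, t2, t3⟩ := pullback h2 h3 hq hκ hr hn a hc (by
    unfold bOf at hrank
    omega) hu3 hirr hodd
  have hb : (bOf κ r).comp u ≠ 0 := comp_ne_zero' hu0
    (mul_ne_zero (C_ne_zero.mpr hκ) (Finset.prod_ne_zero_iff.mpr fun i _ => X_sub_C_ne_zero _))
  have hc' : (a.comp u) ^ 3 - 27 * ((bOf κ r).comp u) ≠ 0 := by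
    have h27 : (27 : k[X]) = C 27 := (map_ofNat C 27).symm
    have h1 := comp_ne_zero' hu0 hc
    rw [sub_comp, pow_comp, mul_comp, h27, C_comp, ← h27] at h1
    exact h1
  refine rankIs_of (E3_Δ_ne_zero hb hc') (E3_j (hirr i) (pull_dvd u i) (pull_not_dvd (hirr i) hi))
    t1 (by unfold bOf; omega) fun m g hg => ?_
  have := t3 m g hg
  omega

/-- **Towers**, final form. -/
theorem tower_final {n : ℕ} {r : Fin n → k} {D : k[X]} (hD : D ≠ 0)
    (hodd : ∀ π : k[X], Irreducible π → π ∣ D → Odd π.natDegree)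
    (hr0 : ∀ i, r i ≠ 0) {l : ℕ} (hl : l.Prime) (hl5 : 5 ≤ l) (hln : n < l)
    (hlq : l ∣ Nat.card k - 1) :
    ∃ γ : k, γ ≠ 0 ∧ ∀ N : ℕ, Admissible3 r D (C γ * X ^ l ^ N) := by
  obtain ⟨γ, hγ, hγr⟩ := exists_gamma hlq (by simpa using hln) r hr0
  refine ⟨γ, hγ, fun N => ⟨?_, fun i => irreducible_pow hl (by omega) N hγ (hγr i),
    fun π hπ h => odd_tower hl hl5 hlq N hγ hD hodd hπ h⟩⟩
  rw [natDegree_pow hγ]
  exact three_not_dvd_pow hl hl5 N

/-- **The family of rank three.** -/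
theorem family3 (h2 : (2 : k) ≠ 0) (h3 : (3 : k) ≠ 0) (hq : Nat.card k % 3 = 2)
    {r s t : k} (h : r * s * t = 1) (hk : k3 r s t ≠ 0) (hr : Function.Injective (root3 r s t))
    {u : k[X]} (hu : Admissible3 (root3 r s t)
      ((a3 r s t) ^ 3 - 27 * bOf (k3 r s t) (root3 r s t)) u) :
    RankIs k (E3 ((a3 r s t).comp u) ((bOf (k3 r s t) (root3 r s t)).comp u)) 3 := by
  have hm : maxRank 4 (a3 r s t) = 3 := by
    unfold maxRank
    rw [if_neg (by omega)]
  have ha : ∃ i, (a3 r s t).eval (root3 r s t i) ≠ 0 := by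
    by_contra hcon
    push Not at hcon
    have ha0 : a3 r s t ≠ 0 := by
      intro h0
      have := natDegree_a3 h2 r s t
      rw [h0, natDegree_zero] at this
      omega
    have h1 : (a3 r s t).roots.card ≤ 2 := by
      have := card_roots' (a3 r s t)
      rwa [natDegree_a3 h2] at this
    classical
    have h4 : Finset.univ.image (root3 r s t) ⊆ (a3 r s t).roots.toFinset := by
      intro x hx
      obtain ⟨i, -, rfl⟩ := Finset.mem_image.mp hx
      rw [Multiset.mem_toFinset, mem_roots ha0]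
      exact hcon i
    have h5 := Finset.card_le_card h4
    rw [Finset.card_image_of_injective _ hr, Finset.card_univ, Fintype.card_fin] at h5
    have h6 := Multiset.toFinset_card_le (a3 r s t).roots
    omega
  have := pullback_final h2 h3 hq hk hr (a3 r s t) ha (disc3_ne_zero h2 r s t)
    (by rw [hm]; exact rank_base3 h2 h3 hq h hk hr) hu
  rwa [hm] at this

/-- **The family of rank seven.** -/
theorem family7 (h11 : (11 : k) = 0) (hq : Nat.card k % 3 = 2) :
    ∃ γ : k, γ ≠ 0 ∧ ∀ N : ℕ, ∀ u : k[X], u = C γ * X ^ 5 ^ N →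
      RankIs k (E3 (u ^ 2 + 6 : k[X]) (u ^ 8 + u ^ 6 + u ^ 4 + u ^ 2 + 1 : k[X])) 7 := by
  classical
  have h2 := two_ne_zero_of_eleven h11
  have h3 := three_ne_zero_of_eleven h11
  obtain ⟨γ, hγ, hγr⟩ := exists_gamma7 h11
  refine ⟨γ, hγ, fun N u hu => ?_⟩
  have hm : maxRank 8 (X ^ 2 + 6 : k[X]) = 7 := by
    unfold maxRank
    rw [if_neg (by omega)]
  have ha : ∃ i, (X ^ 2 + 6 : k[X]).eval (root7 k i) ≠ 0 := by
    refine ⟨0, ?_⟩
    have h10 := natCast_ne_zero_of_lt h11 (m := 10) (by norm_num) (by norm_num)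
    simp only [root7, eval_add, eval_pow, eval_X, eval_ofNat, Matrix.cons_val_zero]
    intro h
    apply h10
    push_cast
    linear_combination h
  have hadm : Admissible3 (root7 k) ((X ^ 2 + 6 : k[X]) ^ 3 - 27 * bOf 1 (root7 k)) u := by
    rw [hu]
    refine ⟨?_, fun i => irreducible_pow (by norm_num) (by norm_num) N hγ (hγr i),
      fun π hπ h => odd_tower (by norm_num) le_rfl (five_dvd h11) N hγ (disc7_ne_zero h11)
        (fun π hπ h => odd7 h11 hπ h) hπ h⟩
    rw [natDegree_pow hγ]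
    exact three_not_dvd_pow (by norm_num) le_rfl N
  have := pullback_final h2 h3 hq one_ne_zero (root7_injective h11) (X ^ 2 + 6 : k[X]) ha
    (disc7_ne_zero h11) (by rw [hm]; exact rank_base7 h11 hq) hadm
  rw [hm] at this
  have ea : (X ^ 2 + 6 : k[X]).comp u = u ^ 2 + 6 := by simp
  have eb : (bOf 1 (root7 k)).comp u = u ^ 8 + u ^ 6 + u ^ 4 + u ^ 2 + 1 := by
    unfold bOf
    rw [prod7 h11]; simp
  rwa [ea, eb] at this

end

end Pool.Agent.BSDFF.Three
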