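import Mathlib

/-!
Prime factors of `D(γ t^(l^n))` when `l` divides `q - 1`: their degrees are odd if those of the
prime factors of `D` are odd.
-/

set_option autoImplicit false

open Polynomial

namespace Pool.Agent.BSDFF.Three

/-- `(Q - 1) l^n` divides `Q^(l^n) - 1` if `l` divides `Q - 1`. -/
lemma mul_pow_dvd {Q l : ℕ} (hQ : 1 ≤ Q) (hl : l ∣ Q - 1) (n : ℕ) :
    (Q - 1) * l ^ n ∣ Q ^ l ^ n - 1 := by
  induction n with
  | zero => simp
  | succ n ih =>
    have h1 : Q ^ l ^ (n + 1) - 1 = (Q ^ l ^ n - 1) * ∑ i ∈ Finset.range l, (Q ^ l ^ n) ^ i := by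
      have h2 : 1 ≤ Q ^ l ^ n := Nat.one_le_pow _ _ hQ
      zify [h2, Nat.one_le_pow (l ^ (n + 1)) Q hQ]
      have h4 := (mul_geom_sum ((Q : ℤ) ^ l ^ n) l)
      rw [h4, ← pow_mul, pow_succ]
    have h2 : l ∣ ∑ i ∈ Finset.range l, (Q ^ l ^ n) ^ i := by
      rw [← Nat.modEq_zero_iff_dvd]
      have hQ1 : Q ≡ 1 [MOD l] := ((Nat.modEq_iff_dvd' hQ).mpr hl).symm
      have h3 : ∀ i ∈ Finset.range l, (Q ^ l ^ n) ^ i ≡ 1 [MOD l] := by
        intro i _
        have := (hQ1.pow (l ^ n)).pow i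
        rwa [one_pow, one_pow] at this
      calc ∑ i ∈ Finset.range l, (Q ^ l ^ n) ^ i ≡ ∑ i ∈ Finset.range l, 1 [MOD l] :=
            Nat.ModEq.sum h3
        _ = l := by simp
        _ ≡ 0 [MOD l] := by simp [Nat.ModEq]
    rw [h1, pow_succ, ← mul_assoc]
    exact mul_dvd_mul ih h2

variable {k : Type} [Field k] [Finite k]

/-- the primes dividing `P(γ t^(l^n))`, `P` a prime of odd degree -/
lemma odd_natDegree_comp {l : ℕ} (hlo : Odd l) (hl : l ∣ Nat.card k - 1) (n : ℕ) {γ : k}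
    (hγ0 : γ ≠ 0)
    {P π : k[X]} (hP : Irreducible P) (hPo : Odd P.natDegree)
    (hπ : Irreducible π) (h : π ∣ P.comp (C γ * X ^ l ^ n)) : Odd π.natDegree := by
  classical
  have : Fact (Irreducible π) := ⟨hπ⟩
  set θ := AdjoinRoot.root π with hθ
  by_cases hθ0 : θ = 0
  · -- `π` is associated to `X`
    have h1 : π ∣ X := by
      rw [← AdjoinRoot.mk_eq_zero]
      exact hθ0
    have h2 := (irreducible_X.dvd_iff.mp h1).resolve_left hπ.not_isUnit
    rw [← natDegree_eq_of_degree_eq (degree_eq_degree_of_associated h2), natDegree_X]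
    exact odd_one
  have hev : aeval (algebraMap k (AdjoinRoot π) γ * θ ^ l ^ n) P = 0 := by
    obtain ⟨R, hR⟩ := h
    have h1 := congrArg (aeval θ) hR
    have h2 : aeval θ π = 0 := by rw [hθ, AdjoinRoot.aeval_eq, AdjoinRoot.mk_self]
    rw [map_mul, h2, zero_mul, aeval_comp] at h1
    simpa using h1
  set m := P.natDegree with hm
  set Q := Nat.card k ^ m with hQ
  have hcard : 1 < Nat.card k := Finite.one_lt_card
  have hm0 : m ≠ 0 := hP.natDegree_pos.ne'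
  have hPd : P ∣ X ^ Q - X := hP.natDegree_dvd_iff_dvd_X_pow_card_pow_sub_X.mp dvd_rfl
  have h1 : (algebraMap k (AdjoinRoot π) γ * θ ^ l ^ n) ^ Q =
      algebraMap k (AdjoinRoot π) γ * θ ^ l ^ n := by
    obtain ⟨R, hR⟩ := hPd
    have h1 := congrArg (aeval (algebraMap k (AdjoinRoot π) γ * θ ^ l ^ n)) hR
    rw [map_mul, hev, zero_mul, map_sub, map_pow, aeval_X] at h1
    exact sub_eq_zero.mp h1
  have hγ : γ ^ Q = γ := by
    have hf : Fintype k := Fintype.ofFinite k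
    rw [hQ, Nat.card_eq_fintype_card]
    exact FiniteField.pow_card_pow m γ
  rw [mul_pow, ← map_pow, hγ] at h1
  have h2 : (θ ^ l ^ n) ^ Q = θ ^ l ^ n := by
    apply mul_left_cancel₀ _ h1
    rwa [Ne, map_eq_zero]
  have hQ1 : 1 ≤ Q := Nat.one_le_pow _ _ (by omega)
  have h3 : θ ^ (l ^ n * (Q - 1)) = 1 := by
    have h4 : θ ^ l ^ n * θ ^ (l ^ n * (Q - 1)) = θ ^ l ^ n * 1 := by
      rw [← pow_add, mul_one]
      have : l ^ n + l ^ n * (Q - 1) = l ^ n * Q := by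
        conv_rhs => rw [← Nat.sub_add_cancel hQ1, mul_add, mul_one, add_comm]
      rw [this, pow_mul]
      exact h2
    exact mul_left_cancel₀ (pow_ne_zero _ hθ0) h4
  have hlQ : l ∣ Q - 1 := by
    refine hl.trans ?_
    have := Nat.sub_dvd_pow_sub_pow (Nat.card k) 1 m
    rwa [one_pow] at this
  have h5 : θ ^ (Q ^ l ^ n - 1) = 1 := by
    obtain ⟨c, hc⟩ := mul_pow_dvd hQ1 hlQ n
    rw [hc, pow_mul, mul_comm (Q - 1), h3, one_pow]
  have h6 : π ∣ X ^ (Nat.card k) ^ (m * l ^ n) - X := by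
    rw [← AdjoinRoot.mk_eq_zero, map_sub, map_pow, AdjoinRoot.mk_X, ← hθ, pow_mul, ← hQ]
    have h7 : Q ^ l ^ n = (Q ^ l ^ n - 1) + 1 :=
      (Nat.sub_add_cancel (Nat.one_le_pow _ _ (by omega))).symm
    rw [h7, pow_succ, h5, one_mul, sub_self]
  have h7 := hπ.natDegree_dvd_of_dvd_X_pow_card_pow_sub_X h6
  exact Odd.of_dvd_nat (hPo.mul hlo.pow) h7

end Pool.Agent.BSDFF.Three
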