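import Pool.Agent.Lib.MP_48b749_nt.Three.FamBase

/-!
A two-parameter family of curves `y² + a x y + b y = x³` of rank three over `k(t)`.
-/

set_option autoImplicit false

open Polynomial

namespace Pool.Agent.BSDFF.Three

section points

variable {k : Type} [Field k] {n : ℕ} {r : Fin n → k} {κ : k}

/-- a splitting `a = β₁ + β₂ + β₃`, `b = β₁ β₂ β₃` gives a point -/
lemma point_of_split {a : k[X]} {c₁ c₂ c₃ : k} {e₁ e₂ e₃ : Fin n → ℕ} (hc : c₁ * c₂ * c₃ = κ)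
    (he : ∀ i, e₁ i + e₂ i + e₃ i = 1)
    (ha : a = C c₁ * ∏ i, (X - C (r i)) ^ e₁ i + C c₂ * ∏ i, (X - C (r i)) ^ e₂ i +
      C c₃ * ∏ i, (X - C (r i)) ^ e₃ i) :
    (C (c₁ ^ 2 * c₂) * ∏ i, (X - C (r i)) ^ (2 * e₁ i + e₂ i)) ^ 2 +
      a * (-((C c₁ * ∏ i, (X - C (r i)) ^ e₁ i) * (C c₂ * ∏ i, (X - C (r i)) ^ e₂ i))) *
      (C (c₁ ^ 2 * c₂) * ∏ i, (X - C (r i)) ^ (2 * e₁ i + e₂ i)) +
      (C κ * ∏ i, (X - C (r i))) * (C (c₁ ^ 2 * c₂) * ∏ i, (X - C (r i)) ^ (2 * e₁ i + e₂ i)) =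
      (-((C c₁ * ∏ i, (X - C (r i)) ^ e₁ i) * (C c₂ * ∏ i, (X - C (r i)) ^ e₂ i))) ^ 3 := by
  have h1 : (C κ * ∏ i, (X - C (r i)) : k[X]) = (C c₁ * ∏ i, (X - C (r i)) ^ e₁ i) *
      (C c₂ * ∏ i, (X - C (r i)) ^ e₂ i) * (C c₃ * ∏ i, (X - C (r i)) ^ e₃ i) := by
    have h2 : (∏ i, (X - C (r i)) : k[X]) = (∏ i, (X - C (r i)) ^ e₁ i) *
        (∏ i, (X - C (r i)) ^ e₂ i) * ∏ i, (X - C (r i)) ^ e₃ i := by
      rw [← Finset.prod_mul_distrib, ← Finset.prod_mul_distrib]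
      refine Finset.prod_congr rfl fun i _ => ?_
      rw [← pow_add, ← pow_add, he i, pow_one]
    rw [h2, ← hc, C_mul, C_mul]
    ring
  have h3 : (C (c₁ ^ 2 * c₂) * ∏ i, (X - C (r i)) ^ (2 * e₁ i + e₂ i) : k[X]) =
      (C c₁ * ∏ i, (X - C (r i)) ^ e₁ i) ^ 2 * (C c₂ * ∏ i, (X - C (r i)) ^ e₂ i) := by
    have h4 : (∏ i, (X - C (r i)) ^ (2 * e₁ i + e₂ i) : k[X]) =
        (∏ i, (X - C (r i)) ^ e₁ i) ^ 2 * ∏ i, (X - C (r i)) ^ e₂ i := by
      rw [← Finset.prod_pow, ← Finset.prod_mul_distrib]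
      refine Finset.prod_congr rfl fun i _ => ?_
      rw [pow_add, mul_comm 2, pow_mul]
    rw [h4, C_mul, C_pow]
    ring
  rw [h1, h3, ha]
  ring

end points

section family

variable {k : Type} [Field k]

/-- first coefficient of the family, `r s t = 1` -/
noncomputable def a3 (r s t : k) : k[X] :=
  2 * X ^ 2 - 2 * C (r + s + t - 1) * X +
    C ((r * s + s * t + t * r) ^ 2 + (r * s + s * t + t * r) - 3 * (r + s + t) - 1)

/-- the roots of the second coefficient -/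
def root3 (r s t : k) : Fin 4 → k := ![r + s + t, r, s, t]

/-- the leading coefficient of the second coefficient -/
def k3 (r s t : k) : k :=
  (r * s + s * t + t * r - (r + s + t)) * (r * s + s * t + t * r + (r + s + t) + 2)

lemma k3_eq {r s t : k} (h : r * s * t = 1) :
    -(1 - (r * s) ^ 2) * (1 - (r * t) ^ 2) * (1 - (s * t) ^ 2) = k3 r s t := by
  unfold k3
  linear_combination (-((r * s * t + 1) * (r + s + t) ^ 2 + 2 * (r + s + t) -
    2 * (r * s + s * t + t * r) * (r * s * t + 1) -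
    (1 + r * s * t) * (1 + (r * s * t) ^ 2))) * h

lemma natDegree_a3 (h2 : (2 : k) ≠ 0) (r s t : k) : (a3 r s t).natDegree = 2 := by
  unfold a3
  have h2' : (2 : k[X]) = C 2 := (map_ofNat C 2).symm
  rw [h2']
  have : (C 2 * X ^ 2 - C 2 * C (r + s + t - 1) * X + C ((r * s + s * t + t * r) ^ 2 +
      (r * s + s * t + t * r) - 3 * (r + s + t) - 1) : k[X]) =
      C 2 * X ^ 2 + C (-2 * (r + s + t - 1)) * X + C ((r * s + s * t + t * r) ^ 2 +
      (r * s + s * t + t * r) - 3 * (r + s + t) - 1) := by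
    rw [C_mul, C_neg]
    ring
  rw [this]
  exact natDegree_quadratic h2

/-- the three splittings -/
lemma split3 {r s t : k} (h : r * s * t = 1) :
    a3 r s t = C (-((1 - (r * s) ^ 2) * (1 - (r * t) ^ 2))) * ∏ i, (X - C (root3 r s t i)) ^
        (![0, 0, 0, 0] : Fin 4 → ℕ) i +
      C (1 - s * t) * ∏ i, (X - C (root3 r s t i)) ^ (![1, 1, 0, 0] : Fin 4 → ℕ) i +
      C (1 + s * t) * ∏ i, (X - C (root3 r s t i)) ^ (![0, 0, 1, 1] : Fin 4 → ℕ) i := by
  have h' : (C r * C s * C t : k[X]) = 1 := by rw [← C_mul, ← C_mul, h, C_1]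
  simp only [Fin.prod_univ_four, root3, a3, Matrix.cons_val_zero, Matrix.cons_val_one,
    Matrix.cons_val, pow_zero, pow_one, mul_one, one_mul, C_add, C_sub, C_mul, C_neg, C_pow,
    map_one, map_ofNat]
  linear_combination (-2 * X + 3 * (C r + C s + C t) + (C r) ^ 2 * (C r * C s * C t + 1)) * h'

lemma split3' {r s t : k} (h : r * s * t = 1) :
    a3 r s t = C (-((1 - (s * r) ^ 2) * (1 - (s * t) ^ 2))) * ∏ i, (X - C (root3 r s t i)) ^
        (![0, 0, 0, 0] : Fin 4 → ℕ) i +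
      C (1 - r * t) * ∏ i, (X - C (root3 r s t i)) ^ (![1, 0, 1, 0] : Fin 4 → ℕ) i +
      C (1 + r * t) * ∏ i, (X - C (root3 r s t i)) ^ (![0, 1, 0, 1] : Fin 4 → ℕ) i := by
  have h' : (C r * C s * C t : k[X]) = 1 := by rw [← C_mul, ← C_mul, h, C_1]
  simp only [Fin.prod_univ_four, root3, a3, Matrix.cons_val_zero, Matrix.cons_val_one,
    Matrix.cons_val, pow_zero, pow_one, mul_one, one_mul, C_add, C_sub, C_mul, C_neg, C_pow,
    map_one, map_ofNat]
  linear_combination (-2 * X + 3 * (C r + C s + C t) + (C s) ^ 2 * (C r * C s * C t + 1)) * h'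

lemma split3'' {r s t : k} (h : r * s * t = 1) :
    a3 r s t = C (-((1 - (t * r) ^ 2) * (1 - (t * s) ^ 2))) * ∏ i, (X - C (root3 r s t i)) ^
        (![0, 0, 0, 0] : Fin 4 → ℕ) i +
      C (1 - r * s) * ∏ i, (X - C (root3 r s t i)) ^ (![1, 0, 0, 1] : Fin 4 → ℕ) i +
      C (1 + r * s) * ∏ i, (X - C (root3 r s t i)) ^ (![0, 1, 1, 0] : Fin 4 → ℕ) i := by
  have h' : (C r * C s * C t : k[X]) = 1 := by rw [← C_mul, ← C_mul, h, C_1]
  simp only [Fin.prod_univ_four, root3, a3, Matrix.cons_val_zero, Matrix.cons_val_one,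
    Matrix.cons_val, pow_zero, pow_one, mul_one, one_mul, C_add, C_sub, C_mul, C_neg, C_pow,
    map_one, map_ofNat]
  linear_combination (-2 * X + 3 * (C r + C s + C t) + (C t) ^ 2 * (C r * C s * C t + 1)) * h'

/-- the second coefficient of the family -/
noncomputable def b3 (r s t : k) : k[X] := C (k3 r s t) * ∏ i, (X - C (root3 r s t i))

lemma disc3_ne_zero (h2 : (2 : k) ≠ 0) (r s t : k) :
    (a3 r s t) ^ 3 - 27 * (C (k3 r s t) * ∏ i, (X - C (root3 r s t i))) ≠ 0 := by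
  intro h
  have h1 : ((a3 r s t) ^ 3).natDegree = 6 := by
    rw [Polynomial.natDegree_pow, natDegree_a3 h2]
  have h4 : (27 * (C (k3 r s t) * ∏ i, (X - C (root3 r s t i))) : k[X]).natDegree ≤ 4 := by
    have e27 : (27 : k[X]) = C 27 := (map_ofNat C 27).symm
    rw [e27, ← mul_assoc, ← C_mul]
    refine (natDegree_C_mul_le _ _).trans ?_
    rw [natDegree_prod _ _ fun i _ => X_sub_C_ne_zero _]
    simp
  rw [sub_eq_zero.mp h] at h1
  omega

variable [Finite k]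

/-- **rank at least three** -/
theorem rank_base3 (h2 : (2 : k) ≠ 0) (h3 : (3 : k) ≠ 0) (hq : Nat.card k % 3 = 2) {r s t : k}
    (h : r * s * t = 1) (hk : k3 r s t ≠ 0) (hr : Function.Injective (root3 r s t)) :
    3 ≤ algebraicRank (E3 (a3 r s t) (C (k3 r s t) * ∏ i, (X - C (root3 r s t i)))) := by
  have hk' := hk
  rw [← k3_eq h] at hk'
  have n1 : 1 - (r * s) ^ 2 ≠ 0 := by
    intro h0; apply hk'; rw [h0]; ring
  have n2 : 1 - (r * t) ^ 2 ≠ 0 := by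
    intro h0; apply hk'; rw [h0]; ring
  have n3 : 1 - (s * t) ^ 2 ≠ 0 := by
    intro h0; apply hk'; rw [h0]; ring
  have m1 : 1 - r * s ≠ 0 := by
    intro h0; apply n1; linear_combination (1 + r * s) * h0
  have m2 : 1 - r * t ≠ 0 := by
    intro h0; apply n2; linear_combination (1 + r * t) * h0
  have m3 : 1 - s * t ≠ 0 := by
    intro h0; apply n3; linear_combination (1 + s * t) * h0
  have key := rank_ge_points h3 hq hk hr (by norm_num) (a3 r s t) (disc3_ne_zero h2 r s t)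
    (t := 4) id
    ![(-((1 - (r * s) ^ 2) * (1 - (r * t) ^ 2))) ^ 2 * (1 - s * t),
      (-((1 - (s * r) ^ 2) * (1 - (s * t) ^ 2))) ^ 2 * (1 - r * t),
      (-((1 - (t * r) ^ 2) * (1 - (t * s) ^ 2))) ^ 2 * (1 - r * s), -k3 r s t]
    (by
      intro j
      fin_cases j
      · exact mul_ne_zero (pow_ne_zero _ (neg_ne_zero.mpr (mul_ne_zero n1 n2))) m3
      · exact mul_ne_zero (pow_ne_zero _ (neg_ne_zero.mpr (mul_ne_zero
          (by rwa [mul_comm s r]) n3))) m2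
      · exact mul_ne_zero (pow_ne_zero _ (neg_ne_zero.mpr (mul_ne_zero
          (by rwa [mul_comm t r]) (by rwa [mul_comm t s])))) m1
      · exact neg_ne_zero.mpr hk)
    ![fun i => 2 * (![0, 0, 0, 0] : Fin 4 → ℕ) i + (![1, 1, 0, 0] : Fin 4 → ℕ) i,
      fun i => 2 * (![0, 0, 0, 0] : Fin 4 → ℕ) i + (![1, 0, 1, 0] : Fin 4 → ℕ) i,
      fun i => 2 * (![0, 0, 0, 0] : Fin 4 → ℕ) i + (![1, 0, 0, 1] : Fin 4 → ℕ) i,
      fun _ => 1]
    ![-((C (-((1 - (r * s) ^ 2) * (1 - (r * t) ^ 2))) *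
          ∏ i, (X - C (root3 r s t i)) ^ (![0, 0, 0, 0] : Fin 4 → ℕ) i) *
        (C (1 - s * t) * ∏ i, (X - C (root3 r s t i)) ^ (![1, 1, 0, 0] : Fin 4 → ℕ) i)),
      -((C (-((1 - (s * r) ^ 2) * (1 - (s * t) ^ 2))) *
          ∏ i, (X - C (root3 r s t i)) ^ (![0, 0, 0, 0] : Fin 4 → ℕ) i) *
        (C (1 - r * t) * ∏ i, (X - C (root3 r s t i)) ^ (![1, 0, 1, 0] : Fin 4 → ℕ) i)),
      -((C (-((1 - (t * r) ^ 2) * (1 - (t * s) ^ 2))) *
          ∏ i, (X - C (root3 r s t i)) ^ (![0, 0, 0, 0] : Fin 4 → ℕ) i) *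
        (C (1 - r * s) * ∏ i, (X - C (root3 r s t i)) ^ (![1, 0, 0, 1] : Fin 4 → ℕ) i)),
      0]
    (by
      intro j
      fin_cases j
      · exact point_of_split (c₃ := 1 + s * t) (e₃ := ![0, 0, 1, 1])
          (by rw [← k3_eq h]; ring) (by decide) (split3 h)
      · exact point_of_split (c₃ := 1 + r * t) (e₃ := ![0, 1, 0, 1])
          (by rw [← k3_eq h]; ring) (by decide) (split3' h)
      · exact point_of_split (c₃ := 1 + r * s) (e₃ := ![0, 1, 1, 0])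
          (by rw [← k3_eq h]; ring) (by decide) (split3'' h)
      · simp only [Fin.reduceFinMk, Matrix.cons_val, pow_one, C_neg]
        ring)
    (by
      have : (Matrix.of fun i j => -(((![fun i => 2 * (![0, 0, 0, 0] : Fin 4 → ℕ) i +
          (![1, 1, 0, 0] : Fin 4 → ℕ) i,
          fun i => 2 * (![0, 0, 0, 0] : Fin 4 → ℕ) i + (![1, 0, 1, 0] : Fin 4 → ℕ) i,
          fun i => 2 * (![0, 0, 0, 0] : Fin 4 → ℕ) i + (![1, 0, 0, 1] : Fin 4 → ℕ) i,
          fun _ => 1] : Fin 4 → Fin 4 → ℕ) j (id i) : ℕ) : ZMod 3)).det = 2 := by decide +kernel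
      rw [this]
      decide)
  omega

end family

end Pool.Agent.BSDFF.Three
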