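import Pool.Agent.Lib.MP_48b749_nt.Three.FamBase
import Pool.Agent.Lib.MP_48b749_nt.Three.FamR3

/-!
A curve of rank seven over `k(t)`, `k` of characteristic eleven.
-/

set_option autoImplicit false
set_option linter.style.longLine false

open Polynomial

namespace Pool.Agent.BSDFF.Three

section

variable {k : Type} [Field k]

/-- the roots of `b` -/
def root7 (k : Type) [Field k] : Fin 8 → k := ![2, 3, 4, 5, 6, 7, 8, 9]

lemma prod7 (h11 : (11 : k) = 0) :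
    (C 1 * ∏ i, (X - C (root7 k i)) : k[X]) = X ^ 8 + X ^ 6 + X ^ 4 + X ^ 2 + 1 := by
  have h' : (11 : k[X]) = 0 := by
    have : (11 : k[X]) = C 11 := (map_ofNat C 11).symm
    rw [this, h11, C_0]
  simp only [Fin.prod_univ_eight, root7, Matrix.cons_val_zero, Matrix.cons_val_one,
    Matrix.cons_val, map_one, map_ofNat]
  linear_combination (-((-32989) + (60336) * X + (-46273) * X ^ 2 + (19516) * X ^ 3 + (-4968) * X ^ 4 + (784) * X ^ 5 + (-75) * X ^ 6 + (4) * X ^ 7)) * h'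

lemma split7_0 (h11 : (11 : k) = 0) :
    (X ^ 2 + 6 : k[X]) = C (-1) * ∏ i, (X - C (root7 k i)) ^ (![1, 0, 1, 0, 0, 0, 0, 0] : Fin 8 → ℕ) i +
      C 1 * ∏ i, (X - C (root7 k i)) ^ (![0, 1, 0, 0, 0, 1, 1, 0] : Fin 8 → ℕ) i +
      C (-1) * ∏ i, (X - C (root7 k i)) ^ (![0, 0, 0, 1, 1, 0, 0, 1] : Fin 8 → ℕ) i := by
  have h' : (11 : k[X]) = 0 := by
    have : (11 : k[X]) = C 11 := (map_ofNat C 11).symm
    rw [this, h11, C_0]
  simp only [Fin.prod_univ_eight, root7, Matrix.cons_val_zero, Matrix.cons_val_one,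
    Matrix.cons_val, map_one, map_ofNat, map_neg, pow_zero, pow_one, one_mul, mul_one]
  linear_combination ((-8) + (2) * X) * h'

lemma split7_1 (h11 : (11 : k) = 0) :
    (X ^ 2 + 6 : k[X]) = C (-1) * ∏ i, (X - C (root7 k i)) ^ (![1, 0, 0, 0, 1, 0, 0, 0] : Fin 8 → ℕ) i +
      C (-1) * ∏ i, (X - C (root7 k i)) ^ (![0, 1, 0, 0, 0, 1, 0, 1] : Fin 8 → ℕ) i +
      C 1 * ∏ i, (X - C (root7 k i)) ^ (![0, 0, 1, 1, 0, 0, 1, 0] : Fin 8 → ℕ) i := by
  have h' : (11 : k[X]) = 0 := by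
    have : (11 : k[X]) = C 11 := (map_ofNat C 11).symm
    rw [this, h11, C_0]
  simp only [Fin.prod_univ_eight, root7, Matrix.cons_val_zero, Matrix.cons_val_one,
    Matrix.cons_val, map_one, map_ofNat, map_neg, pow_zero, pow_one, one_mul, mul_one]
  linear_combination ((-1) + (1) * X) * h'

lemma split7_2 (h11 : (11 : k) = 0) :
    (X ^ 2 + 6 : k[X]) = C (-1) * ∏ i, (X - C (root7 k i)) ^ (![0, 1, 0, 0, 0, 0, 1, 0] : Fin 8 → ℕ) i +
      C (-1) * ∏ i, (X - C (root7 k i)) ^ (![1, 0, 1, 0, 1, 0, 0, 0] : Fin 8 → ℕ) i +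
      C 1 * ∏ i, (X - C (root7 k i)) ^ (![0, 0, 0, 1, 0, 1, 0, 1] : Fin 8 → ℕ) i := by
  have h' : (11 : k[X]) = 0 := by
    have : (11 : k[X]) = C 11 := (map_ofNat C 11).symm
    rw [this, h11, C_0]
  simp only [Fin.prod_univ_eight, root7, Matrix.cons_val_zero, Matrix.cons_val_one,
    Matrix.cons_val, map_one, map_ofNat, map_neg, pow_zero, pow_one, one_mul, mul_one]
  linear_combination ((27) + (-10) * X + (1) * X ^ 2) * h'

lemma split7_3 (h11 : (11 : k) = 0) :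
    (X ^ 2 + 6 : k[X]) = C (-1) * ∏ i, (X - C (root7 k i)) ^ (![0, 0, 0, 1, 0, 0, 0, 1] : Fin 8 → ℕ) i +
      C 1 * ∏ i, (X - C (root7 k i)) ^ (![1, 0, 1, 0, 0, 0, 1, 0] : Fin 8 → ℕ) i +
      C (-1) * ∏ i, (X - C (root7 k i)) ^ (![0, 1, 0, 0, 1, 1, 0, 0] : Fin 8 → ℕ) i := by
  have h' : (11 : k[X]) = 0 := by
    have : (11 : k[X]) = C 11 := (map_ofNat C 11).symm
    rw [this, h11, C_0]
  simp only [Fin.prod_univ_eight, root7, Matrix.cons_val_zero, Matrix.cons_val_one,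
    Matrix.cons_val, map_one, map_ofNat, map_neg, pow_zero, pow_one, one_mul, mul_one]
  linear_combination ((-1) + (1) * X) * h'

lemma split7_4 (h11 : (11 : k) = 0) :
    (X ^ 2 + 6 : k[X]) = C (-1) * ∏ i, (X - C (root7 k i)) ^ (![0, 0, 0, 0, 0, 1, 0, 1] : Fin 8 → ℕ) i +
      C 1 * ∏ i, (X - C (root7 k i)) ^ (![1, 0, 0, 1, 1, 0, 0, 0] : Fin 8 → ℕ) i +
      C (-1) * ∏ i, (X - C (root7 k i)) ^ (![0, 1, 1, 0, 0, 0, 1, 0] : Fin 8 → ℕ) i := by
  have h' : (11 : k[X]) = 0 := by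
    have : (11 : k[X]) = C 11 := (map_ofNat C 11).symm
    rw [this, h11, C_0]
  simp only [Fin.prod_univ_eight, root7, Matrix.cons_val_zero, Matrix.cons_val_one,
    Matrix.cons_val, map_one, map_ofNat, map_neg, pow_zero, pow_one, one_mul, mul_one]
  linear_combination ((3)) * h'

lemma split7_5 (h11 : (11 : k) = 0) :
    (X ^ 2 + 6 : k[X]) = C (-3) * ∏ i, (X - C (root7 k i)) ^ (![0, 1, 0, 1, 0, 0, 0, 0] : Fin 8 → ℕ) i +
      C (-2) * ∏ i, (X - C (root7 k i)) ^ (![1, 0, 0, 0, 0, 0, 1, 1] : Fin 8 → ℕ) i +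
      C 2 * ∏ i, (X - C (root7 k i)) ^ (![0, 0, 1, 0, 1, 1, 0, 0] : Fin 8 → ℕ) i := by
  have h' : (11 : k[X]) = 0 := by
    have : (11 : k[X]) = C 11 := (map_ofNat C 11).symm
    rw [this, h11, C_0]
  simp only [Fin.prod_univ_eight, root7, Matrix.cons_val_zero, Matrix.cons_val_one,
    Matrix.cons_val, map_one, map_ofNat, map_neg, pow_zero, pow_one, one_mul, mul_one]
  linear_combination ((9)) * h'

lemma split7_6 (h11 : (11 : k) = 0) :
    (X ^ 2 + 6 : k[X]) = C (-3) * ∏ i, (X - C (root7 k i)) ^ (![0, 0, 0, 0, 1, 1, 0, 0] : Fin 8 → ℕ) i +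
      C (-2) * ∏ i, (X - C (root7 k i)) ^ (![1, 0, 1, 1, 0, 0, 0, 0] : Fin 8 → ℕ) i +
      C 2 * ∏ i, (X - C (root7 k i)) ^ (![0, 1, 0, 0, 0, 0, 1, 1] : Fin 8 → ℕ) i := by
  have h' : (11 : k[X]) = 0 := by
    have : (11 : k[X]) = C 11 := (map_ofNat C 11).symm
    rw [this, h11, C_0]
  simp only [Fin.prod_univ_eight, root7, Matrix.cons_val_zero, Matrix.cons_val_one,
    Matrix.cons_val, map_one, map_ofNat, map_neg, pow_zero, pow_one, one_mul, mul_one]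
  linear_combination ((44) + (-19) * X + (2) * X ^ 2) * h'

lemma natCast_ne_zero_of_lt (h11 : (11 : k) = 0) {m : ℕ} (hm : 0 < m) (hm2 : m < 11) :
    (m : k) ≠ 0 := by
  intro h
  have hcop : Nat.Coprime m 11 := by
    rw [Nat.coprime_comm, Nat.Prime.coprime_iff_not_dvd (by norm_num)]
    intro hd
    exact absurd (Nat.le_of_dvd hm hd) (by omega)
  have h1 := Nat.gcd_eq_gcd_ab m 11
  rw [hcop] at h1
  have h2 : (1 : k) = (m : k) * ((Nat.gcdA m 11 : ℤ) : k) + 11 * ((Nat.gcdB m 11 : ℤ) : k) := by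
    exact_mod_cast congrArg (fun z : ℤ => (z : k)) h1
  rw [h, h11, zero_mul, zero_mul, add_zero] at h2
  exact one_ne_zero h2

lemma root7_eq (i : Fin 8) : root7 k i = ((i.val + 2 : ℕ) : k) := by
  fin_cases i <;> simp [root7] <;> norm_num

lemma root7_injective (h11 : (11 : k) = 0) : Function.Injective (root7 k) := by
  intro i j hij
  rw [root7_eq, root7_eq] at hij
  by_contra hne
  have hne' : i.val ≠ j.val := fun h => hne (Fin.ext h)
  have hi := i.isLt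
  have hj := j.isLt
  rcases Nat.lt_or_gt_of_ne hne' with h | h
  · apply natCast_ne_zero_of_lt h11 (m := j.val - i.val) (by omega) (by omega)
    rw [Nat.cast_sub h.le]
    push_cast at hij
    linear_combination -hij
  · apply natCast_ne_zero_of_lt h11 (m := i.val - j.val) (by omega) (by omega)
    rw [Nat.cast_sub h.le]
    push_cast at hij
    linear_combination hij

lemma two_ne_zero_of_eleven (h11 : (11 : k) = 0) : (2 : k) ≠ 0 := by
  have := natCast_ne_zero_of_lt h11 (m := 2) (by norm_num) (by norm_num)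
  exact_mod_cast this

lemma three_ne_zero_of_eleven (h11 : (11 : k) = 0) : (3 : k) ≠ 0 := by
  have := natCast_ne_zero_of_lt h11 (m := 3) (by norm_num) (by norm_num)
  exact_mod_cast this

lemma disc7_ne_zero (h11 : (11 : k) = 0) :
    (X ^ 2 + 6 : k[X]) ^ 3 - 27 * (C 1 * ∏ i, (X - C (root7 k i))) ≠ 0 := by
  intro h
  rw [prod7 h11] at h
  have h1 := congrArg (eval 0) h
  simp only [eval_sub, eval_pow, eval_add, eval_X, eval_mul, eval_one, eval_ofNat, eval_zero] at h1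
  have h2 := natCast_ne_zero_of_lt h11 (m := 2) (by norm_num) (by norm_num)
  apply h2
  push_cast
  linear_combination h1 - 17 * h11

variable [Finite k]

/-- **rank at least seven** -/
theorem rank_base7 (h11 : (11 : k) = 0) (hq : Nat.card k % 3 = 2) :
    7 ≤ algebraicRank (E3 (X ^ 2 + 6 : k[X]) (C 1 * ∏ i, (X - C (root7 k i)))) := by
  have h2 := two_ne_zero_of_eleven h11
  have h3 := three_ne_zero_of_eleven h11
  have h6 : (6 : k) ≠ 0 := by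
    have : (6 : k) = 2 * 3 := by norm_num
    rw [this]
    exact mul_ne_zero h2 h3
  have key := rank_ge_points h3 hq one_ne_zero (root7_injective h11) (by norm_num)
    (X ^ 2 + 6 : k[X]) (disc7_ne_zero h11) (t := 8) id
    ![((-1) : k) ^ 2 * 1,
      ((-1) : k) ^ 2 * (-1),
      ((-1) : k) ^ 2 * (-1),
      ((-1) : k) ^ 2 * 1,
      ((-1) : k) ^ 2 * 1,
      ((-3) : k) ^ 2 * (-2),
      ((-3) : k) ^ 2 * (-2), -1]
    (by
      intro j
      fin_cases j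
      all_goals simp [h2, h3])
    ![fun i => 2 * (![1, 0, 1, 0, 0, 0, 0, 0] : Fin 8 → ℕ) i + (![0, 1, 0, 0, 0, 1, 1, 0] : Fin 8 → ℕ) i,
      fun i => 2 * (![1, 0, 0, 0, 1, 0, 0, 0] : Fin 8 → ℕ) i + (![0, 1, 0, 0, 0, 1, 0, 1] : Fin 8 → ℕ) i,
      fun i => 2 * (![0, 1, 0, 0, 0, 0, 1, 0] : Fin 8 → ℕ) i + (![1, 0, 1, 0, 1, 0, 0, 0] : Fin 8 → ℕ) i,
      fun i => 2 * (![0, 0, 0, 1, 0, 0, 0, 1] : Fin 8 → ℕ) i + (![1, 0, 1, 0, 0, 0, 1, 0] : Fin 8 → ℕ) i,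
      fun i => 2 * (![0, 0, 0, 0, 0, 1, 0, 1] : Fin 8 → ℕ) i + (![1, 0, 0, 1, 1, 0, 0, 0] : Fin 8 → ℕ) i,
      fun i => 2 * (![0, 1, 0, 1, 0, 0, 0, 0] : Fin 8 → ℕ) i + (![1, 0, 0, 0, 0, 0, 1, 1] : Fin 8 → ℕ) i,
      fun i => 2 * (![0, 0, 0, 0, 1, 1, 0, 0] : Fin 8 → ℕ) i + (![1, 0, 1, 1, 0, 0, 0, 0] : Fin 8 → ℕ) i,
      fun _ => 1]
    ![-((C (-1) * ∏ i, (X - C (root7 k i)) ^ (![1, 0, 1, 0, 0, 0, 0, 0] : Fin 8 → ℕ) i) *
        (C 1 * ∏ i, (X - C (root7 k i)) ^ (![0, 1, 0, 0, 0, 1, 1, 0] : Fin 8 → ℕ) i)),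
      -((C (-1) * ∏ i, (X - C (root7 k i)) ^ (![1, 0, 0, 0, 1, 0, 0, 0] : Fin 8 → ℕ) i) *
        (C (-1) * ∏ i, (X - C (root7 k i)) ^ (![0, 1, 0, 0, 0, 1, 0, 1] : Fin 8 → ℕ) i)),
      -((C (-1) * ∏ i, (X - C (root7 k i)) ^ (![0, 1, 0, 0, 0, 0, 1, 0] : Fin 8 → ℕ) i) *
        (C (-1) * ∏ i, (X - C (root7 k i)) ^ (![1, 0, 1, 0, 1, 0, 0, 0] : Fin 8 → ℕ) i)),
      -((C (-1) * ∏ i, (X - C (root7 k i)) ^ (![0, 0, 0, 1, 0, 0, 0, 1] : Fin 8 → ℕ) i) *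
        (C 1 * ∏ i, (X - C (root7 k i)) ^ (![1, 0, 1, 0, 0, 0, 1, 0] : Fin 8 → ℕ) i)),
      -((C (-1) * ∏ i, (X - C (root7 k i)) ^ (![0, 0, 0, 0, 0, 1, 0, 1] : Fin 8 → ℕ) i) *
        (C 1 * ∏ i, (X - C (root7 k i)) ^ (![1, 0, 0, 1, 1, 0, 0, 0] : Fin 8 → ℕ) i)),
      -((C (-3) * ∏ i, (X - C (root7 k i)) ^ (![0, 1, 0, 1, 0, 0, 0, 0] : Fin 8 → ℕ) i) *
        (C (-2) * ∏ i, (X - C (root7 k i)) ^ (![1, 0, 0, 0, 0, 0, 1, 1] : Fin 8 → ℕ) i)),
      -((C (-3) * ∏ i, (X - C (root7 k i)) ^ (![0, 0, 0, 0, 1, 1, 0, 0] : Fin 8 → ℕ) i) *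
        (C (-2) * ∏ i, (X - C (root7 k i)) ^ (![1, 0, 1, 1, 0, 0, 0, 0] : Fin 8 → ℕ) i)),
      0]
    (by
      intro j
      fin_cases j
      · exact point_of_split (c₃ := (-1)) (e₃ := ![0, 0, 0, 1, 1, 0, 0, 1])
          (by linear_combination (0 : k) * h11) (by decide) (split7_0 h11)
      · exact point_of_split (c₃ := 1) (e₃ := ![0, 0, 1, 1, 0, 0, 1, 0])
          (by linear_combination (0 : k) * h11) (by decide) (split7_1 h11)
      · exact point_of_split (c₃ := 1) (e₃ := ![0, 0, 0, 1, 0, 1, 0, 1])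
          (by linear_combination (0 : k) * h11) (by decide) (split7_2 h11)
      · exact point_of_split (c₃ := (-1)) (e₃ := ![0, 1, 0, 0, 1, 1, 0, 0])
          (by linear_combination (0 : k) * h11) (by decide) (split7_3 h11)
      · exact point_of_split (c₃ := (-1)) (e₃ := ![0, 1, 1, 0, 0, 0, 1, 0])
          (by linear_combination (0 : k) * h11) (by decide) (split7_4 h11)
      · exact point_of_split (c₃ := 2) (e₃ := ![0, 0, 1, 0, 1, 1, 0, 0])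
          (by linear_combination (1 : k) * h11) (by decide) (split7_5 h11)
      · exact point_of_split (c₃ := 2) (e₃ := ![0, 1, 0, 0, 0, 0, 1, 1])
          (by linear_combination (1 : k) * h11) (by decide) (split7_6 h11)
      · simp only [Fin.reduceFinMk, Matrix.cons_val, pow_one, C_neg]
        ring)
    (by
      apply Matrix.det_ne_zero_of_right_inverse (B := !![2, 1, 1, 2, 1, 1, 0, 1; 0, 1, 2, 1, 1, 2, 2, 0; 1, 0, 1, 0, 0, 2, 0, 2; 0, 0, 0, 0, 1, 2, 1, 2; 2, 0, 2, 2, 1, 2, 2, 1; 0, 1, 1, 2, 0, 0, 0, 2; 2, 0, 0, 0, 2, 1, 1, 0; 2, 1, 2, 2, 1, 2, 1, 0])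
      decide +kernel)
  omega

end

end Pool.Agent.BSDFF.Three
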