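import Pool.Agent.Lib.MP_48b749_nt.Three.FamR7

/-!
The discriminant of the curve of rank seven in characteristic eleven; its tower.
-/

set_option autoImplicit false

open Polynomial

namespace Pool.Agent.BSDFF.Three

section

variable {K : Type} [Field K]

lemma charP11 (h : (11 : K) = 0) : CharP K 11 := by
  rw [CharP.charP_iff_prime_eq_zero (by norm_num)]
  exact_mod_cast h

lemma frob1 (h : (11 : K) = 0) (x : K) :
    (4 * x ^ 2 + x - 4) ^ 11 = 4 * (x ^ 11) ^ 2 + x ^ 11 - 4 := by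
  have := charP11 h
  have : Fact (Nat.Prime 11) := ⟨by norm_num⟩
  rw [sub_pow_char, add_pow_char, mul_pow]
  linear_combination (381300 * (x ^ 11) ^ 2 - 381300) * h

lemma frob2 (h : (11 : K) = 0) (x : K) :
    (-4 * x ^ 2 + x + 4) ^ 11 = -4 * (x ^ 11) ^ 2 + x ^ 11 + 4 := by
  have := charP11 h
  have : Fact (Nat.Prime 11) := ⟨by norm_num⟩
  rw [add_pow_char, add_pow_char, mul_pow]
  linear_combination (-381300 * (x ^ 11) ^ 2 + 381300) * h

lemma cubic1 (h : (11 : K) = 0) {θ : K} (hθ : θ ^ 3 - θ ^ 2 - θ + 5 = 0) : θ ^ 1331 = θ := by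
  have h1 : θ ^ 11 = 4 * θ ^ 2 + θ - 4 := by
    linear_combination ((69) + (-4) * θ + (-12) * θ ^ 2 + (-17) * θ ^ 3 + (-5) * θ ^ 4 + (-2) * θ ^ 5 + (2) * θ ^ 6 + (1) * θ ^ 7 + (1) * θ ^ 8) * hθ + ((-31) + (8) * θ + (11) * θ ^ 2) * h
  have h2 : θ ^ 121 = 4 * (4 * θ ^ 2 + θ - 4) ^ 2 + (4 * θ ^ 2 + θ - 4) - 4 := by
    have e : θ ^ 121 = (θ ^ 11) ^ 11 := by rw [← pow_mul]
    rw [e, h1, frob1 h, h1]
  have h3 : θ ^ 1331 = 4 * (4 * (4 * θ ^ 2 + θ - 4) ^ 2 + (4 * θ ^ 2 + θ - 4) - 4) ^ 2 +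
      (4 * (4 * θ ^ 2 + θ - 4) ^ 2 + (4 * θ ^ 2 + θ - 4) - 4) - 4 := by
    have e : θ ^ 1331 = (θ ^ 121) ^ 11 := by rw [← pow_mul]
    have e2 : 4 * (4 * θ ^ 2 + θ - 4) ^ 2 + (4 * θ ^ 2 + θ - 4) - 4 =
        4 * (θ ^ 11) ^ 2 + θ ^ 11 - 4 := by rw [h1]
    rw [e, h2, e2, frob1 h, h1, frob1 h, h1]
  rw [h3]
  linear_combination ((-216416) + (-197568) * θ + (-103936) * θ ^ 2 + (-8192) * θ ^ 3 + (32768) * θ ^ 4 + (16384) * θ ^ 5) * hθ + ((99516) + (68864) * θ + (5060) * θ ^ 2) * h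

lemma cubic2 (h : (11 : K) = 0) {θ : K} (hθ : θ ^ 3 + θ ^ 2 - θ - 5 = 0) : θ ^ 1331 = θ := by
  have h1 := cubic1 h (θ := -θ) (by linear_combination -hθ)
  have h2 : (-θ) ^ 1331 = -θ ^ 1331 := Odd.neg_pow (by decide) θ
  rw [h2] at h1
  exact neg_inj.mp h1

end

section

variable {k : Type} [Field k] [Finite k]

lemma odd_of_pow_1331 (h11 : (11 : k) = 0) {π : k[X]} (hπ : Irreducible π)
    (h : (AdjoinRoot.root π) ^ 1331 = AdjoinRoot.root π) : Odd π.natDegree := by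
  classical
  have := charP11 h11
  have hp : Fact (Nat.Prime 11) := ⟨by norm_num⟩
  have hf : Fintype k := Fintype.ofFinite k
  obtain ⟨m, -, hm⟩ := FiniteField.card k 11
  have hcard : (Nat.card k) ^ 3 = 1331 ^ (m : ℕ) := by
    rw [Nat.card_eq_fintype_card, hm, ← pow_mul, mul_comm, pow_mul]
    norm_num
  have h1 : ∀ n : ℕ, (AdjoinRoot.root π) ^ (1331 ^ n) = AdjoinRoot.root π := by
    intro n
    induction n with
    | zero => simp
    | succ n ih => rw [pow_succ, pow_mul, ih, h]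
  have h6 : π ∣ X ^ (Nat.card k) ^ 3 - X := by
    rw [← AdjoinRoot.mk_eq_zero, map_sub, map_pow, AdjoinRoot.mk_X, hcard, h1, sub_self]
  have h7 := hπ.natDegree_dvd_of_dvd_X_pow_card_pow_sub_X h6
  exact Odd.of_dvd_nat (by decide) h7

omit [Finite k] in
lemma odd_linear {π : k[X]} (hπ : Irreducible π) {c : k} (h : π ∣ X - C c) :
    Odd π.natDegree := by
  have h1 : Associated π (X - C c) :=
    (((irreducible_X_sub_C c).dvd_iff.mp h).resolve_left hπ.not_isUnit).symm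
  rw [natDegree_eq_of_degree_eq (degree_eq_degree_of_associated h1), natDegree_X_sub_C]
  exact odd_one

/-- the prime factors of the discriminant have odd degree -/
lemma odd7 (h11 : (11 : k) = 0) {π : k[X]} (hπ : Irreducible π)
    (h : π ∣ (X ^ 2 + 6 : k[X]) ^ 3 - 27 * (C 1 * ∏ i, (X - C (root7 k i)))) :
    Odd π.natDegree := by
  classical
  have h' : (11 : k[X]) = 0 := by
    have : (11 : k[X]) = C 11 := (map_ofNat C 11).symm
    rw [this, h11, C_0]
  have e : (X ^ 2 + 6 : k[X]) ^ 3 - 27 * (C 1 * ∏ i, (X - C (root7 k i))) =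
      C 6 * ((X - C 4) * (X - C (-4)) * (X ^ 3 - X ^ 2 - X + 5) * (X ^ 3 + X ^ 2 - X - 5)) := by
    rw [prod7 h11]
    simp only [map_ofNat, map_neg]
    linear_combination ((99) + (-15) * X ^ 2 + (3) * X ^ 4 + (-4) * X ^ 6 + (-3) * X ^ 8 +
      12 * (X ^ 3 - X ^ 2 - X + 5) * (X ^ 3 + X ^ 2 - X - 5)) * h'
  rw [e] at h
  have h6 : (6 : k) ≠ 0 := by
    have : (6 : k) = 2 * 3 := by norm_num
    rw [this]
    exact mul_ne_zero (two_ne_zero_of_eleven h11) (three_ne_zero_of_eleven h11)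
  have : Fact (Irreducible π) := ⟨hπ⟩
  have hK : (11 : AdjoinRoot π) = 0 := by
    have : (11 : AdjoinRoot π) = algebraMap k (AdjoinRoot π) 11 := (map_ofNat _ 11).symm
    rw [this, h11, map_zero]
  rcases hπ.prime.dvd_or_dvd h with h | h
  · exact absurd (isUnit_of_dvd_unit h (isUnit_C.mpr (isUnit_iff_ne_zero.mpr h6))) hπ.not_isUnit
  rcases hπ.prime.dvd_or_dvd h with h | h
  · rcases hπ.prime.dvd_or_dvd h with h | h
    · rcases hπ.prime.dvd_or_dvd h with h | h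
      · exact odd_linear hπ h
      · exact odd_linear hπ h
    · apply odd_of_pow_1331 h11 hπ
      apply cubic1 hK
      rw [← AdjoinRoot.mk_eq_zero] at h
      have e5 : AdjoinRoot.mk π 5 = 5 := map_ofNat _ 5
      simpa [e5] using h
  · apply odd_of_pow_1331 h11 hπ
    apply cubic2 hK
    rw [← AdjoinRoot.mk_eq_zero] at h
    have e5 : AdjoinRoot.mk π 5 = 5 := map_ofNat _ 5
    simpa [e5] using h

/-- five divides `q - 1` -/
lemma five_dvd (h11 : (11 : k) = 0) : 5 ∣ Nat.card k - 1 := by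
  have := charP11 h11
  have hp : Fact (Nat.Prime 11) := ⟨by norm_num⟩
  have hf : Fintype k := Fintype.ofFinite k
  obtain ⟨m, -, hm⟩ := FiniteField.card k 11
  rw [Nat.card_eq_fintype_card, hm]
  have h1 := Nat.sub_dvd_pow_sub_pow 11 1 (m : ℕ)
  rw [one_pow] at h1
  exact (by norm_num : 5 ∣ 11 - 1).trans h1

lemma exists_gamma7 (h11 : (11 : k) = 0) :
    ∃ γ : k, γ ≠ 0 ∧ ∀ i, ∀ b : k, b ^ 5 ≠ root7 k i / γ := by
  classical
  have h2 := two_ne_zero_of_eleven h11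
  have h3 := three_ne_zero_of_eleven h11
  have h5 : (5 : k) ≠ 0 := by
    exact_mod_cast natCast_ne_zero_of_lt h11 (m := 5) (by norm_num) (by norm_num)
  have h4 : (4 : k) ≠ 0 := by
    exact_mod_cast natCast_ne_zero_of_lt h11 (m := 4) (by norm_num) (by norm_num)
  obtain ⟨γ, hγ, hγr⟩ := exists_gamma (k := k) (five_dvd h11) (ι := Fin 4) (by simp) ![2, 3, 4, 5]
    (by intro i; fin_cases i <;> simp [h2, h3, h4, h5])
  refine ⟨γ, hγ, ?_⟩
  have g2 := hγr 0
  have g3 := hγr 1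
  have g4 := hγr 2
  have g5 := hγr 3
  simp only [Matrix.cons_val_zero, Matrix.cons_val_one, Matrix.cons_val] at g2 g3 g4 g5
  have hneg : ∀ c d : k, c + d = 0 → (∀ b : k, b ^ 5 ≠ c / γ) → ∀ b : k, b ^ 5 ≠ d / γ := by
    intro c d hcd h b hb
    apply h (-b)
    rw [Odd.neg_pow (by decide), hb]
    have : c = -d := by linear_combination hcd
    rw [this, neg_div]
  intro i
  fin_cases i
  · exact g2
  · exact g3
  · exact g4
  · exact g5
  · exact hneg 5 6 (by linear_combination h11) g5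
  · exact hneg 4 7 (by linear_combination h11) g4
  · exact hneg 3 8 (by linear_combination h11) g3
  · exact hneg 2 9 (by linear_combination h11) g2

end

end Pool.Agent.BSDFF.Three
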