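import Pool.Agent.Lib.MP_48b749_nt.Three.LocalA

/-!
The local polynomial of `y² + a x y + b y = x³` at infinity, modulo three.
-/

set_option autoImplicit false

open Polynomial WithZero Multiplicative IsDiscreteValuationRing IsDedekindDomain.HeightOneSpectrum

namespace Pool.Agent.BSDFF.Three

section infinity

variable {k : Type} [Field k]

lemma isUnit_const_infty {c : k} (hc : c ≠ 0) :
    IsUnit ((algebraMap k (RatFunc k)).codRestrict (placeInfty k).ring.toSubring
      (placeInfty k).const_mem c : (placeInfty k).ring) :=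
  (isUnit_iff_ne_zero.mpr hc).map _

lemma isUnit_two_infty (h2 : (2 : k) ≠ 0) : IsUnit (2 : (placeInfty k).ring) := by
  have h := isUnit_const_infty h2
  have e : ((algebraMap k (RatFunc k)).codRestrict (placeInfty k).ring.toSubring
      (placeInfty k).const_mem 2 : (placeInfty k).ring) = 2 := by
    rw [map_ofNat]
  rwa [e] at h

lemma isUnit_three_infty (h3 : (3 : k) ≠ 0) : IsUnit (3 : (placeInfty k).ring) := by
  have h := isUnit_const_infty h3
  have e : ((algebraMap k (RatFunc k)).codRestrict (placeInfty k).ring.toSubring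
      (placeInfty k).const_mem 3 : (placeInfty k).ring) = 3 := by
    rw [map_ofNat]
  rwa [e] at h

lemma bijective_constMap : Function.Bijective (placeInfty k).constMap :=
  ⟨RingHom.injective _, constMap_infty_surjective⟩

lemma card_residue_infty :
    Nat.card (IsLocalRing.ResidueField (placeInfty k).ring) = Nat.card k :=
  (Nat.card_congr (Equiv.ofBijective _ bijective_constMap)).symm

lemma finite_residue_infty [Finite k] :
    Finite (IsLocalRing.ResidueField (placeInfty k).ring) :=
  Finite.of_surjective _ constMap_infty_surjective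

/-- `f / X ^ m` -/
noncomputable def sc (m : ℕ) (f : k[X]) : RatFunc k :=
  (RatFunc.X ^ m)⁻¹ * algebraMap k[X] (RatFunc k) f

lemma intDegree_sc (m : ℕ) {f : k[X]} (hf : f ≠ 0) :
    (sc m f).intDegree = (f.natDegree : ℤ) - m := by
  have h1 : algebraMap k[X] (RatFunc k) f ≠ 0 := fun h =>
    hf ((FaithfulSMul.algebraMap_eq_zero_iff _ _).mp h)
  unfold sc
  rw [RatFunc.intDegree_mul (inv_ne_zero (pow_ne_zero _ RatFunc.X_ne_zero)) h1,
    RatFunc.intDegree_inv, ← RatFunc.algebraMap_X, ← map_pow, RatFunc.intDegree_polynomial,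
    RatFunc.intDegree_polynomial, natDegree_X_pow]
  ring

lemma sc_ne_zero (m : ℕ) {f : k[X]} (hf : f ≠ 0) : sc m f ≠ 0 := by
  have h1 : algebraMap k[X] (RatFunc k) f ≠ 0 := fun h =>
    hf ((FaithfulSMul.algebraMap_eq_zero_iff _ _).mp h)
  exact mul_ne_zero (inv_ne_zero (pow_ne_zero _ RatFunc.X_ne_zero)) h1

lemma sc_mem (m : ℕ) {f : k[X]} (hf : f.natDegree ≤ m) : sc m f ∈ (placeInfty k).ring := by
  rw [mem_placeInfty_iff]
  rcases eq_or_ne f 0 with rfl | hf0
  · left; simp [sc]
  · right; rw [intDegree_sc m hf0]; omega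

/-- the element of the valuation ring at infinity -/
noncomputable def scR (m : ℕ) (f : k[X]) (hf : f.natDegree ≤ m) : (placeInfty k).ring :=
  ⟨sc m f, sc_mem m hf⟩

lemma isUnit_scR (m : ℕ) (f : k[X]) (hf : f.natDegree ≤ m) :
    IsUnit (scR m f hf) ↔ f ≠ 0 ∧ f.natDegree = m := by
  rw [isUnit_infty_iff]
  change sc m f ≠ 0 ∧ (sc m f).intDegree = 0 ↔ _
  constructor
  · rintro ⟨h1, h2⟩
    have hf0 : f ≠ 0 := by
      rintro rfl
      exact h1 (by simp [sc])
    rw [intDegree_sc m hf0] at h2
    exact ⟨hf0, by omega⟩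
  · rintro ⟨h1, h2⟩
    exact ⟨sc_ne_zero m h1, by rw [intDegree_sc m h1]; omega⟩

lemma scR_ne_zero (m : ℕ) {f : k[X]} (hf : f.natDegree ≤ m) (hf0 : f ≠ 0) : scR m f hf ≠ 0 := by
  intro h
  exact sc_ne_zero m hf0 (congrArg Subtype.val h)

lemma natDegree_disc {a b : k[X]} {n : ℕ} (ha : a.natDegree ≤ n) (hb : b.natDegree ≤ 3 * n) :
    (a ^ 3 - 27 * b).natDegree ≤ 3 * n := by
  refine (natDegree_sub_le _ _).trans (max_le ?_ ?_)
  · refine (natDegree_pow_le).trans ?_
    exact Nat.mul_le_mul_left 3 ha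
  · have e27 : (27 : k[X]) = C 27 := by rw [C_ofNat]
    rw [e27]
    exact (natDegree_C_mul_le _ _).trans hb

lemma scR_disc {a b : k[X]} {n : ℕ} (ha : a.natDegree ≤ n) (hb : b.natDegree ≤ 3 * n) :
    scR n a ha ^ 3 - 27 * scR (3 * n) b hb = scR (3 * n) (a ^ 3 - 27 * b) (natDegree_disc ha hb) := by
  apply Subtype.ext
  change sc n a ^ 3 - 27 * sc (3 * n) b = sc (3 * n) (a ^ 3 - 27 * b)
  unfold sc
  rw [map_sub, map_pow, map_mul, map_ofNat, mul_comm 3 n, pow_mul]
  field_simp

/-- the change of variables at infinity -/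
noncomputable def chInf (n : ℕ) : WeierstrassCurve.VariableChange (RatFunc k) :=
  ⟨Units.mk0 ((RatFunc.X : RatFunc k) ^ n) (pow_ne_zero _ RatFunc.X_ne_zero), 0, 0, 0⟩

lemma chInf_smul (a b : k[X]) (n : ℕ) (ha : a.natDegree ≤ n) (hb : b.natDegree ≤ 3 * n) :
    chInf (k := k) n • E3 a b = (curve3 (scR n a ha) (scR (3 * n) b hb)).map
      (algebraMap (placeInfty k).ring (RatFunc k)) := by
  have hu : (((chInf (k := k) n).u⁻¹ : (RatFunc k)ˣ) : RatFunc k) = (RatFunc.X ^ n)⁻¹ := by
    simp [chInf]
  have hXn : (RatFunc.X : RatFunc k) ^ n ≠ 0 := pow_ne_zero _ RatFunc.X_ne_zero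
  ext
  · rw [WeierstrassCurve.variableChange_a₁, hu]
    change ((RatFunc.X : RatFunc k) ^ n)⁻¹ * (algebraMap k[X] (RatFunc k) a + 2 * 0) = sc n a
    unfold sc; ring
  · rw [WeierstrassCurve.variableChange_a₂, hu]
    change ((RatFunc.X : RatFunc k) ^ n)⁻¹ ^ 2 * (0 - 0 * algebraMap k[X] (RatFunc k) a + 3 * 0 - 0 ^ 2) =
      algebraMap (placeInfty k).ring (RatFunc k) 0
    rw [map_zero]; ring
  · rw [WeierstrassCurve.variableChange_a₃, hu]
    change ((RatFunc.X : RatFunc k) ^ n)⁻¹ ^ 3 * (algebraMap k[X] (RatFunc k) b +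
      0 * algebraMap k[X] (RatFunc k) a + 2 * 0) = sc (3 * n) b
    unfold sc
    rw [mul_comm 3 n, pow_mul]
    field_simp
    ring
  · rw [WeierstrassCurve.variableChange_a₄, hu]
    simp [chInf, E3, curve3]
  · rw [WeierstrassCurve.variableChange_a₆, hu]
    simp [chInf, E3, curve3]

/-- **the local polynomial at infinity, modulo three** -/
theorem local_infty [Finite k] (h2 : (2 : k) ≠ 0) (h3 : (3 : k) ≠ 0) (a b : k[X]) (hb : b ≠ 0)
    (hc : a ^ 3 - 27 * b ≠ 0) :
    ∃ δ : ℕ, ((E3 a b).localPolynomial (placeInfty k).ring).map (Int.castRingHom (ZMod 3)) *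
      ((1 - X) ^ δ * (if 3 ∣ b.natDegree ∧ 3 * a.natDegree ≤ b.natDegree then 1 else
        1 - C (Nat.card k : ZMod 3) * X)) =
      (1 - X) * (1 - C (Nat.card k : ZMod 3) * X) := by
  have hfin := finite_residue_infty (k := k)
  have hQ := card_residue_infty (k := k)
  have i2 := isUnit_two_infty h2
  have i3 := isUnit_three_infty h3
  by_cases hI : 3 ∣ b.natDegree ∧ 3 * a.natDegree ≤ b.natDegree
  · rw [if_pos hI]
    obtain ⟨⟨n, hn⟩, hab⟩ := hI
    have ha' : a.natDegree ≤ n := by omega
    have hb' : b.natDegree ≤ 3 * n := by omega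
    have hW0 := chInf_smul a b n ha' hb'
    have hBu : IsUnit (scR (3 * n) b hb') := (isUnit_scR _ _ _).mpr ⟨hb, hn⟩
    by_cases hcu : IsUnit (scR n a ha' ^ 3 - 27 * scR (3 * n) b hb')
    · refine ⟨0, ?_⟩
      have := local_good3 (placeInfty k).ring (E3 a b) (chInf n) _ _ hW0 hBu hcu i2 i3
      rw [this, hQ]
      ring
    · refine ⟨1, ?_⟩
      have := local_nodal3 (placeInfty k).ring (E3 a b) (chInf n) _ _ hW0 hBu hcu
        (by rw [scR_disc]; exact scR_ne_zero _ _ hc) i2 i3
      rw [this, hQ]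
      ring
  · rw [if_neg hI]
    by_cases hII : b.natDegree < 3 * a.natDegree
    · -- split multiplicative
      refine ⟨0, ?_⟩
      have ha0 : a ≠ 0 := by
        rintro rfl
        simp at hII
      have hb' : b.natDegree ≤ 3 * a.natDegree := by omega
      have hW0 := chInf_smul a b a.natDegree le_rfl hb'
      have := local_split3 (placeInfty k).ring (E3 a b) (chInf a.natDegree) _ _ hW0
        ((isUnit_scR _ _ _).mpr ⟨ha0, rfl⟩)
        (fun h => by
          have := ((isUnit_scR _ _ _).mp h).2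
          omega)
        (scR_ne_zero _ _ hb) i2 i3
      rw [this, Polynomial.map_sub, Polynomial.map_one, Polynomial.map_X]
      ring
    · -- additive
      refine ⟨1, ?_⟩
      have h3b : ¬ 3 ∣ b.natDegree := fun h => hI ⟨h, by omega⟩
      set n := b.natDegree / 3 + 1 with hn
      have ha' : a.natDegree ≤ n := by omega
      have hb' : b.natDegree ≤ 3 * n := by omega
      have hab : 3 * a.natDegree < b.natDegree := by omega
      have h27 : (27 : k) ≠ 0 := by
        have : (27 : k) = 3 ^ 3 := by norm_num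
        rw [this]; exact pow_ne_zero _ h3
      have hdc : (a ^ 3 - 27 * b).natDegree = b.natDegree := by
        rw [natDegree_sub_eq_right_of_natDegree_lt]
        · exact natDegree_ofNat_mul h27 b
        · rw [natDegree_ofNat_mul h27 b]
          exact lt_of_le_of_lt natDegree_pow_le hab
      have hu : (((chInf (k := k) n).u⁻¹ : (RatFunc k)ˣ) : RatFunc k) = (RatFunc.X ^ n)⁻¹ := by
        simp [chInf]
      have hΔ0 : b ^ 3 * (a ^ 3 - 27 * b) ≠ 0 := mul_ne_zero (pow_ne_zero _ hb) hc
      have hΔ1 : (chInf (k := k) n • E3 a b).Δ = sc (12 * n) (b ^ 3 * (a ^ 3 - 27 * b)) := by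
        rw [WeierstrassCurve.variableChange_Δ, hu, E3_Δ]
        unfold sc
        rw [mul_comm 12 n, pow_mul, inv_pow]
      have hΔ : vv (placeInfty k).ring (chInf (k := k) n • E3 a b).Δ =
          exp (4 * b.natDegree - 12 * n : ℤ) := by
        rw [hΔ1, vv_infty _ (sc_ne_zero _ hΔ0), intDegree_sc _ hΔ0,
          natDegree_mul (pow_ne_zero _ hb) hc, natDegree_pow, hdc]
        congr 1
        push_cast
        ring
      have hadd : (E3 a b).localPolynomial (placeInfty k).ring = 1 := by
        apply local_additive (placeInfty k).ring _ (chInf n)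
        · exact ⟨⟨_, chInf_smul a b n ha' hb'⟩⟩
        · rw [hΔ, exp_lt_exp]; omega
        · rw [hΔ, ← exp_zero, exp_lt_exp]; omega
        · have hc4 : (chInf (k := k) n • E3 a b).c₄ = sc (4 * n) (a * (a ^ 3 - 24 * b)) := by
            rw [WeierstrassCurve.variableChange_c₄, hu, E3_c₄]
            unfold sc
            rw [mul_comm 4 n, pow_mul, inv_pow]
          rw [hc4]
          rcases eq_or_ne (a * (a ^ 3 - 24 * b)) 0 with h0 | h0
          · rw [h0]
            simp [sc]
          · rw [vv_infty _ (sc_ne_zero _ h0), intDegree_sc _ h0, ← exp_zero, exp_lt_exp]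
            have e24 : (24 : k[X]) = C 24 := by rw [C_ofNat]
            have g1 : (a ^ 3 - 24 * b).natDegree ≤ b.natDegree := by
              refine (natDegree_sub_le _ _).trans (max_le ?_ ?_)
              · exact natDegree_pow_le.trans hab.le
              · rw [e24]; exact natDegree_C_mul_le _ _
            have g2 : (a * (a ^ 3 - 24 * b)).natDegree ≤ a.natDegree + b.natDegree :=
              natDegree_mul_le.trans (by omega)
            omega
      rw [hadd, Polynomial.map_one]
      ring

end infinity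

end Pool.Agent.BSDFF.Three
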