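import Pool.Agent.Lib.MP_48b749_nt.Global
import Pool.Agent.Lib.MP_48b749_nt.Three.InfT

/-!
The L-function of `y² + a x y + b y = x³` over `k(t)` modulo three.
-/

set_option autoImplicit false

open Polynomial

namespace Pool.Agent.BSDFF.Three

section general

variable {k : Type} [Field k] [Finite k]

/-- the closed point of a monic irreducible polynomial of degree at most `n` -/
noncomputable def plc (n : ℕ) (π : {π // π ∈ irrLE k n}) : Place k (RatFunc k) :=
  placeOf π.1 ((mem_irrLE n π.1).mp π.2).2.1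

lemma plc_injective (n : ℕ) : Function.Injective (plc (k := k) n) := by
  intro π π' h
  exact Subtype.ext (placeOf_injective _ _ ((mem_irrLE n π.1).mp π.2).1
    ((mem_irrLE n π'.1).mp π'.2).1 h)

lemma degree_placeOf {π : k[X]} (hπ : Irreducible π) : (placeOf π hπ).degree = π.natDegree :=
  degree_eq (placeOf π hπ) (X_mem_placeOf π hπ) hπ (nonunit_placeOf π hπ)

lemma places_le (n : ℕ) (hn : 1 ≤ n) :
    {v : Place k (RatFunc k) | v.degree ≤ n} = insert (placeInfty k) (Set.range (plc (k := k) n)) := by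
  ext v
  rw [Set.mem_insert_iff, Set.mem_ofPred_eq]
  by_cases hX : RatFunc.X ∈ v.ring
  · obtain ⟨π, hm, hπ, hpn⟩ := exists_irreducible_nonunit v hX
    have hveq := eq_placeOf v hX hπ hpn
    have hdeg := degree_eq v hX hπ hpn
    constructor
    · intro h
      right
      exact ⟨⟨π, (mem_irrLE n π).mpr ⟨hm, hπ, by omega⟩⟩, hveq.symm⟩
    · rintro (h | ⟨⟨π', hπ'⟩, h⟩)
      · exfalso
        rw [h] at hX
        exact X_not_mem_placeInfty k hX
      · obtain ⟨i1, i2, i3⟩ := (mem_irrLE n π').mp hπ'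
        have : placeOf π' i2 = placeOf π hπ := by rw [← hveq]; exact h
        have h5 := placeOf_injective _ _ i1 hm this
        rw [hdeg, ← h5]
        exact i3
  · have hveq := eq_placeInfty v hX
    constructor
    · intro _
      left; exact hveq
    · intro _
      rw [hveq, degree_placeInfty]
      exact hn

lemma places_zero : {v : Place k (RatFunc k) | v.degree ≤ 0} = ∅ := by
  rw [Set.eq_empty_iff_forall_notMem]
  intro v hv
  rw [Set.mem_ofPred_eq] at hv
  by_cases hX : RatFunc.X ∈ v.ring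
  · obtain ⟨π, hm, hπ, hpn⟩ := exists_irreducible_nonunit v hX
    have hdeg := degree_eq v hX hπ hpn
    have := hπ.natDegree_pos
    omega
  · rw [eq_placeInfty v hX, degree_placeInfty] at hv
    omega

lemma irrLE_zero : irrLE k 0 = ∅ := by
  rw [Finset.eq_empty_iff_forall_notMem]
  intro π hπ
  obtain ⟨-, h2, h3⟩ := (mem_irrLE 0 π).mp hπ
  have := h2.natDegree_pos
  omega

/-- inverse of the local factor -/
noncomputable def iL (W : WeierstrassCurve (RatFunc k)) (v : Place k (RatFunc k)) : PowerSeries ℤ :=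
  PowerSeries.invOfUnit (localFactor W v : PowerSeries ℤ) 1

lemma degree_ne_zero (v : Place k (RatFunc k)) : v.degree ≠ 0 := by
  intro h
  have h1 : v ∈ {v : Place k (RatFunc k) | v.degree ≤ 0} := h.le
  rw [places_zero] at h1
  exact h1

lemma mul_iL (W : WeierstrassCurve (RatFunc k)) (v : Place k (RatFunc k)) :
    (localFactor W v : PowerSeries ℤ) * iL W v = 1 :=
  PowerSeries.mul_invOfUnit (localFactor W v : PowerSeries ℤ) 1
      (by rw [localFactor_constantCoeff _ _ (degree_ne_zero v)]; rfl)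

/-- the finite Euler product -/
noncomputable def Bn (W : WeierstrassCurve (RatFunc k)) (n : ℕ) : PowerSeries ℤ :=
  iL W (placeInfty k) * ∏ π : {π // π ∈ irrLE k n}, iL W (plc n π)

lemma LSeries_coeff (W : WeierstrassCurve (RatFunc k)) (n : ℕ) :
    PowerSeries.coeff n (LSeries k W) = PowerSeries.coeff n (Bn W n) := by
  rw [LSeries, PowerSeries.coeff_mk]
  change PowerSeries.coeff n (∏ᶠ (v : Place k (RatFunc k))
    (_ : v ∈ {v : Place k (RatFunc k) | v.degree ≤ n}), iL W v) = _
  rcases Nat.eq_zero_or_pos n with rfl | hn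
  · rw [places_zero, finprod_mem_empty]
    unfold Bn
    have hemp : IsEmpty {π : k[X] // π ∈ irrLE k 0} := by
      rw [irrLE_zero]
      exact ⟨fun x => (Finset.notMem_empty _ x.2).elim⟩
    rw [Finset.univ_eq_empty, Finset.prod_empty, mul_one]
    have h := congrArg (PowerSeries.constantCoeff (R := ℤ)) (mul_iL W (placeInfty k))
    rw [map_mul, localFactor_constantCoeff _ _ (degree_ne_zero _), one_mul] at h
    rw [PowerSeries.coeff_zero_eq_constantCoeff_apply, PowerSeries.coeff_zero_eq_constantCoeff_apply]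
    exact h.symm
  · rw [places_le n hn, finprod_mem_insert, finprod_mem_range (plc_injective n),
      finprod_eq_prod_of_fintype]
    · rfl
    · rintro ⟨π, h⟩
      have h1 := X_not_mem_placeInfty k
      apply h1
      rw [← h]
      exact X_mem_placeOf _ _
    · exact Set.finite_range _

end general

section mod3

/-- truncation of power series modulo `T^(n+1)` -/
noncomputable abbrev phi3 (n : ℕ) : PowerSeries (ZMod 3) →+*
    PowerSeries (ZMod 3) ⧸ Ideal.span {(PowerSeries.X : PowerSeries (ZMod 3)) ^ (n + 1)} :=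
  Ideal.Quotient.mk _

lemma phi3_eq_iff (n : ℕ) (A B : PowerSeries (ZMod 3)) :
    phi3 n A = phi3 n B ↔ ∀ m, m ≤ n → PowerSeries.coeff m A = PowerSeries.coeff m B := by
  rw [Ideal.Quotient.eq, Ideal.mem_span_singleton, PowerSeries.X_pow_dvd_iff]
  constructor
  · intro h m hm
    have := h m (by omega)
    rw [map_sub, sub_eq_zero] at this
    exact this
  · intro h m hm
    rw [map_sub, sub_eq_zero]
    exact h m (by omega)

/-- `1 - c^d T^d` as a polynomial -/
noncomputable def sb (c : ZMod 3) (d : ℕ) : (ZMod 3)[X] := 1 - C (c ^ d) * X ^ d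

lemma coe_sb (c : ZMod 3) (d : ℕ) : ((sb c d : (ZMod 3)[X]) : PowerSeries (ZMod 3)) =
    1 - PowerSeries.C (c ^ d) * PowerSeries.X ^ d := by
  unfold sb
  rw [Polynomial.coe_sub, Polynomial.coe_one, Polynomial.coe_mul, Polynomial.coe_C,
    Polynomial.coe_pow, Polynomial.coe_X]

lemma phi3_sb_of_lt (c : ZMod 3) (n d : ℕ) (h : n < d) :
    phi3 n ((sb c d : (ZMod 3)[X]) : PowerSeries (ZMod 3)) = 1 := by
  rw [← map_one (phi3 n), phi3_eq_iff, coe_sb]
  intro m hm
  rw [map_sub, PowerSeries.coeff_C_mul, PowerSeries.coeff_X_pow, if_neg (by omega), mul_zero,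
    sub_zero]

variable {k : Type} [Field k] [Finite k]

/-- Euler product, twisted by `c^deg` -/
lemma euler_mod3 (c : ZMod 3) (n : ℕ) :
    phi3 n (∏ π ∈ irrLE k n, ((sb c π.natDegree : (ZMod 3)[X]) : PowerSeries (ZMod 3))) =
      phi3 n ((1 - C ((Nat.card k : ZMod 3) * c) * X : (ZMod 3)[X]) : PowerSeries (ZMod 3)) := by
  rw [phi3_eq_iff]
  intro m hm
  have h := congrArg (Int.castRingHom (ZMod 3)) (euler_prod (k := k) n m hm)
  rw [← PowerSeries.coeff_map, ← PowerSeries.coeff_map, map_prod] at h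
  have h' := congrArg (c ^ m * ·) h
  rw [← PowerSeries.coeff_rescale, ← PowerSeries.coeff_rescale, map_prod] at h'
  have h1 : ∀ π ∈ irrLE k n, PowerSeries.rescale c (PowerSeries.map (Int.castRingHom (ZMod 3))
      (1 - (PowerSeries.X : PowerSeries ℤ) ^ π.natDegree)) =
        ((sb c π.natDegree : (ZMod 3)[X]) : PowerSeries (ZMod 3)) := by
    intro π _
    rw [map_sub, map_one, map_pow, PowerSeries.map_X, map_sub, map_one, map_pow,
      PowerSeries.rescale_X, coe_sb, mul_pow, map_pow]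
  rw [Finset.prod_congr rfl h1] at h'
  rw [h']
  congr 1
  rw [map_sub, map_one, map_mul, PowerSeries.map_C, PowerSeries.map_X, map_sub, map_one, map_mul,
    PowerSeries.rescale_X, Polynomial.coe_sub, Polynomial.coe_one, Polynomial.coe_mul,
    Polynomial.coe_C, Polynomial.coe_X, map_mul]
  have e : PowerSeries.rescale c (PowerSeries.C ((Int.castRingHom (ZMod 3)) (Nat.card k : ℤ))) =
      PowerSeries.C (Nat.card k : ZMod 3) := by
    ext j
    rw [PowerSeries.coeff_rescale, PowerSeries.coeff_C, PowerSeries.coeff_C]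
    split_ifs with hj
    · rw [hj, pow_zero, one_mul]; simp
    · rw [mul_zero]
  rw [e]
  ring

open Classical in
/-- the product over the primes dividing `D` -/
lemma phi3_primesOf (D : k[X]) (hD : D ≠ 0) (c : ZMod 3) (n : ℕ) :
    phi3 n (∏ π ∈ irrLE k n, ((if π ∣ D then sb c π.natDegree else 1 : (ZMod 3)[X]) :
      PowerSeries (ZMod 3))) =
      phi3 n ((∏ π ∈ primesOf D, sb c π.natDegree : (ZMod 3)[X]) : PowerSeries (ZMod 3)) := by
  rw [coe_prod', map_prod, map_prod]
  have h1 : primesOf D = (irrLE k (max n D.natDegree)).filter (fun π => π ∣ D) := by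
    ext π
    unfold primesOf
    rw [Finset.mem_filter, Finset.mem_filter, mem_irrLE, mem_irrLE]
    constructor
    · rintro ⟨⟨g1, g2, g3⟩, g4⟩
      exact ⟨⟨g1, g2, g3.trans (le_max_right _ _)⟩, g4⟩
    · rintro ⟨⟨g1, g2, g3⟩, g4⟩
      exact ⟨⟨g1, g2, natDegree_le_of_dvd g4 hD⟩, g4⟩
  have hsub : irrLE k n ⊆ irrLE k (max n D.natDegree) := by
    intro π hπ
    rw [mem_irrLE] at hπ ⊢
    exact ⟨hπ.1, hπ.2.1, hπ.2.2.trans (le_max_left _ _)⟩
  rw [h1, Finset.prod_filter]
  rw [← Finset.prod_sdiff hsub]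
  have h2 : ∏ π ∈ irrLE k (max n D.natDegree) \ irrLE k n,
      (if π ∣ D then phi3 n ((sb c π.natDegree : (ZMod 3)[X]) : PowerSeries (ZMod 3)) else 1) = 1 := by
    apply Finset.prod_eq_one
    intro π hπ
    rw [Finset.mem_sdiff, mem_irrLE, mem_irrLE] at hπ
    split_ifs
    · apply phi3_sb_of_lt
      by_contra hcon
      exact hπ.2 ⟨hπ.1.1, hπ.1.2.1, by omega⟩
    · rfl
  rw [h2, one_mul]
  apply Finset.prod_congr rfl
  intro π _
  split_ifs
  · rfl
  · rw [Polynomial.coe_one, map_one]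

lemma q_sq (h3 : (3 : k) ≠ 0) : (Nat.card k : ZMod 3) * (Nat.card k : ZMod 3) = 1 := by
  have h := card_mod3 h3
  rcases (show Nat.card k % 3 = 1 ∨ Nat.card k % 3 = 2 by omega) with h1 | h1
  · rw [cast_of_mod1 h1, one_mul]
  · rw [cast_of_mod2 h1]; ring

/-- the local factor modulo three at a finite place -/
noncomputable def LB3 (W : WeierstrassCurve (RatFunc k)) (v : Place k (RatFunc k)) : (ZMod 3)[X] :=
  (localFactor W v).map (Int.castRingHom (ZMod 3))

open Classical in
/-- the correction factors -/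
noncomputable def CB3 (a b π : k[X]) : (ZMod 3)[X] :=
  (if π ∣ b then sb (Nat.card k : ZMod 3) π.natDegree else 1) *
    (if π ∣ a ^ 3 - 27 * b then sb 1 π.natDegree else 1)

lemma local_compare3 (h2 : (2 : k) ≠ 0) (h3 : (3 : k) ≠ 0) (a b : k[X]) (hb : b ≠ 0)
    (hc : a ^ 3 - 27 * b ≠ 0) {π : k[X]} (hπ : Irreducible π) (hmin : π ∣ a → ¬ π ^ 3 ∣ b) :
    LB3 (E3 a b) (placeOf π hπ) * CB3 a b π =
      sb 1 π.natDegree * sb (Nat.card k : ZMod 3) π.natDegree := by
  classical
  have h := local_finite h2 h3 (placeOf π hπ) (X_mem_placeOf π hπ) hπ (nonunit_placeOf π hπ) a b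
    hb hc hmin
  have h' := congrArg (fun p : (ZMod 3)[X] => p.comp (X ^ π.natDegree)) h
  simp only [mul_comp, sub_comp, one_comp, X_comp, C_comp] at h'
  have e1 : LB3 (E3 a b) (placeOf π hπ) =
      (((E3 a b).localPolynomial (placeOf π hπ).ring).map (Int.castRingHom (ZMod 3))).comp
        (X ^ π.natDegree) := by
    unfold LB3 localFactor
    rw [degree_placeOf hπ, Polynomial.map_comp, Polynomial.map_pow, Polynomial.map_X]
  have e2 : CB3 a b π = (if π ∣ b then 1 - C ((Nat.card k ^ π.natDegree : ℕ) : ZMod 3) * X else 1 :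
      (ZMod 3)[X]).comp (X ^ π.natDegree) *
        (if π ∣ a ^ 3 - 27 * b then 1 - X else 1 : (ZMod 3)[X]).comp (X ^ π.natDegree) := by
    unfold CB3 sb
    congr 1
    · split_ifs
      · simp only [sub_comp, one_comp, mul_comp, X_comp, C_comp, Nat.cast_pow]
      · rw [one_comp]
    · split_ifs
      · simp only [sub_comp, one_comp, X_comp, one_pow, C_1, one_mul]
      · rw [one_comp]
  rw [e1, e2, h']
  unfold sb
  rw [one_pow, C_1, one_mul, Nat.cast_pow]

open Classical in
/-- **the L-function modulo three** -/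
theorem LSeries_mod3 (h2 : (2 : k) ≠ 0) (h3 : (3 : k) ≠ 0) (a b : k[X]) (hb : b ≠ 0)
    (hc : a ^ 3 - 27 * b ≠ 0)
    (hmin : ∀ π : k[X], π.Monic → Irreducible π → π ∣ a → ¬ π ^ 3 ∣ b) :
    ∃ δ : ℕ, PowerSeries.map (Int.castRingHom (ZMod 3)) (LSeries k (E3 a b)) *
      (((1 - X) * (1 - C (Nat.card k : ZMod 3) * X)) ^ 2 : (ZMod 3)[X]) =
      ((((1 - X) ^ δ * (if 3 ∣ b.natDegree ∧ 3 * a.natDegree ≤ b.natDegree then 1 else
        1 - C (Nat.card k : ZMod 3) * X)) * ((∏ π ∈ primesOf b, sb (Nat.card k : ZMod 3) π.natDegree) *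
        (∏ π ∈ primesOf (a ^ 3 - 27 * b), sb 1 π.natDegree)) : (ZMod 3)[X]) :
        PowerSeries (ZMod 3)) := by
  obtain ⟨δ, hδ⟩ := local_infty h2 h3 a b hb hc
  refine ⟨δ, ?_⟩
  set q : ZMod 3 := (Nat.card k : ZMod 3) with hq
  set f : ZMod 3 →+* ZMod 3 := RingHom.id _ with hf
  set Cinf : (ZMod 3)[X] := (1 - X) ^ δ * (if 3 ∣ b.natDegree ∧ 3 * a.natDegree ≤ b.natDegree
    then 1 else 1 - C q * X) with hCinf
  set Pb : (ZMod 3)[X] := ∏ π ∈ primesOf b, sb q π.natDegree with hPb
  set Pc : (ZMod 3)[X] := ∏ π ∈ primesOf (a ^ 3 - 27 * b), sb 1 π.natDegree with hPc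
  set U0 : (ZMod 3)[X] := (1 - X) * (1 - C q * X) with hU0
  have hUc : PowerSeries.constantCoeff ((U0 ^ 2 : (ZMod 3)[X]) : PowerSeries (ZMod 3)) =
      ((1 : (ZMod 3)ˣ) : ZMod 3) := by
    rw [← PowerSeries.coeff_zero_eq_constantCoeff_apply, Polynomial.coeff_coe,
      coeff_zero_eq_eval_zero, hU0]
    simp
  set V := PowerSeries.invOfUnit ((U0 ^ 2 : (ZMod 3)[X]) : PowerSeries (ZMod 3)) 1 with hV
  have hUV : ((U0 ^ 2 : (ZMod 3)[X]) : PowerSeries (ZMod 3)) * V = 1 :=
    PowerSeries.mul_invOfUnit _ 1 hUc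
  -- the Euler product
  have hkey : ∀ n : ℕ, phi3 n (PowerSeries.map (Int.castRingHom (ZMod 3)) (Bn (E3 a b) n)) =
      phi3 n ((((Cinf * (Pb * Pc)) : (ZMod 3)[X]) : PowerSeries (ZMod 3)) * V) := by
    intro n
    have g1 : ∀ v : Place k (RatFunc k), PowerSeries.map (Int.castRingHom (ZMod 3))
        (iL (E3 a b) v) * ((LB3 (E3 a b) v : (ZMod 3)[X]) : PowerSeries (ZMod 3)) = 1 := by
      intro v
      have := congrArg (PowerSeries.map (Int.castRingHom (ZMod 3))) (mul_iL (E3 a b) v)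
      rw [map_mul, map_one, coe_map, mul_comm] at this
      exact this
    have g2 : PowerSeries.map (Int.castRingHom (ZMod 3)) (Bn (E3 a b) n) *
        ((LB3 (E3 a b) (placeInfty k) * ∏ π : {π // π ∈ irrLE k n}, LB3 (E3 a b) (plc n π) :
          (ZMod 3)[X]) : PowerSeries (ZMod 3)) = 1 := by
      unfold Bn
      rw [map_mul, map_prod, Polynomial.coe_mul, coe_prod', mul_mul_mul_comm, g1, one_mul,
        ← Finset.prod_mul_distrib]
      exact Finset.prod_eq_one fun π _ => g1 _
    have g3 : phi3 n ((∏ π : {π // π ∈ irrLE k n}, LB3 (E3 a b) (plc n π) : (ZMod 3)[X]) :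
        PowerSeries (ZMod 3)) * phi3 n (((Pb * Pc : (ZMod 3)[X])) : PowerSeries (ZMod 3)) =
          phi3 n ((U0 : (ZMod 3)[X]) : PowerSeries (ZMod 3)) := by
      have k1 := phi3_primesOf b hb q n
      have k2 := phi3_primesOf (a ^ 3 - 27 * b) hc 1 n
      rw [Polynomial.coe_mul, map_mul, ← k1, ← k2, ← map_mul, ← map_mul, coe_prod',
        ← Finset.prod_mul_distrib, ← Finset.prod_coe_sort (irrLE k n) (fun π =>
          ((if π ∣ b then sb q π.natDegree else 1 : (ZMod 3)[X]) : PowerSeries (ZMod 3)) *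
          ((if π ∣ a ^ 3 - 27 * b then sb 1 π.natDegree else 1 : (ZMod 3)[X]) :
            PowerSeries (ZMod 3))), ← Finset.prod_mul_distrib]
      have k3 : ∀ π : {π // π ∈ irrLE k n},
          ((LB3 (E3 a b) (plc n π) : (ZMod 3)[X]) : PowerSeries (ZMod 3)) *
          (((if π.1 ∣ b then sb q π.1.natDegree else 1 : (ZMod 3)[X]) : PowerSeries (ZMod 3)) *
          ((if π.1 ∣ a ^ 3 - 27 * b then sb 1 π.1.natDegree else 1 : (ZMod 3)[X]) :
            PowerSeries (ZMod 3))) =
          ((sb 1 π.1.natDegree : (ZMod 3)[X]) : PowerSeries (ZMod 3)) *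
          ((sb q π.1.natDegree : (ZMod 3)[X]) : PowerSeries (ZMod 3)) := by
        intro π
        obtain ⟨i1, i2, i3⟩ := (mem_irrLE n π.1).mp π.2
        have := local_compare3 h2 h3 a b hb hc i2 (hmin π.1 i1 i2)
        have := congrArg (fun p : (ZMod 3)[X] => (p : PowerSeries (ZMod 3))) this
        unfold CB3 at this
        simp only [Polynomial.coe_mul] at this
        exact this
      rw [Finset.prod_congr rfl (fun π _ => k3 π),
        Finset.prod_coe_sort (irrLE k n) (fun π =>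
          ((sb 1 π.natDegree : (ZMod 3)[X]) : PowerSeries (ZMod 3)) *
          ((sb q π.natDegree : (ZMod 3)[X]) : PowerSeries (ZMod 3))), Finset.prod_mul_distrib,
        map_mul, euler_mod3, euler_mod3, ← map_mul, ← Polynomial.coe_mul, ← hq, hq, q_sq h3,
        mul_one, C_1, one_mul, hU0, mul_comm (1 - X : (ZMod 3)[X])]
    have g4 : LB3 (E3 a b) (placeInfty k) * Cinf = U0 := by
      rw [← hδ]
      congr 1
      unfold LB3 localFactor
      rw [degree_placeInfty, pow_one, comp_X]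
    have g5 : phi3 n ((LB3 (E3 a b) (placeInfty k) * ∏ π : {π // π ∈ irrLE k n},
          LB3 (E3 a b) (plc n π) : (ZMod 3)[X]) : PowerSeries (ZMod 3)) *
        phi3 n (((Cinf * (Pb * Pc)) : (ZMod 3)[X]) : PowerSeries (ZMod 3)) =
        phi3 n ((U0 ^ 2 : (ZMod 3)[X]) : PowerSeries (ZMod 3)) := by
      rw [Polynomial.coe_mul, Polynomial.coe_mul Cinf, map_mul, map_mul, mul_mul_mul_comm, g3,
        ← map_mul, ← Polynomial.coe_mul, g4, ← map_mul, ← Polynomial.coe_mul, pow_two]
    calc phi3 n (PowerSeries.map (Int.castRingHom (ZMod 3)) (Bn (E3 a b) n))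
        = phi3 n (PowerSeries.map (Int.castRingHom (ZMod 3)) (Bn (E3 a b) n)) *
            phi3 n (((U0 ^ 2 : (ZMod 3)[X]) : PowerSeries (ZMod 3)) * V) := by
          rw [hUV, map_one, mul_one]
      _ = phi3 n (PowerSeries.map (Int.castRingHom (ZMod 3)) (Bn (E3 a b) n) *
            ((LB3 (E3 a b) (placeInfty k) * ∏ π : {π // π ∈ irrLE k n},
              LB3 (E3 a b) (plc n π) : (ZMod 3)[X]) : PowerSeries (ZMod 3))) *
            (phi3 n (((Cinf * (Pb * Pc)) : (ZMod 3)[X]) : PowerSeries (ZMod 3)) * phi3 n V) := by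
          rw [map_mul (phi3 n) ((U0 ^ 2 : (ZMod 3)[X]) : PowerSeries (ZMod 3)), ← g5,
            map_mul (phi3 n) (PowerSeries.map (Int.castRingHom (ZMod 3)) (Bn (E3 a b) n))]
          ring
      _ = _ := by rw [g2, map_one, one_mul, map_mul]
  have hL : PowerSeries.map (Int.castRingHom (ZMod 3)) (LSeries k (E3 a b)) =
      (((Cinf * (Pb * Pc)) : (ZMod 3)[X]) : PowerSeries (ZMod 3)) * V := by
    ext n
    rw [PowerSeries.coeff_map, LSeries_coeff, ← PowerSeries.coeff_map]
    exact (phi3_eq_iff n _ _).mp (hkey n) n le_rfl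
  rw [hL, mul_assoc, mul_comm V, hUV, mul_one]

end mod3

end Pool.Agent.BSDFF.Three
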