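import Pool.Agent.Lib.MP_48b749_nt.Three.Model

/-!
The local polynomials of `y² + A x y + B y = x³` modulo three.
-/

set_option autoImplicit false

open Polynomial WithZero Multiplicative IsDiscreteValuationRing IsDedekindDomain.HeightOneSpectrum

namespace Pool.Agent.BSDFF.Three

/-- the quadratic polynomial of the tangent directions at the node splits iff `-c₄ c₆` is a
square -/
theorem splits_iff {F : Type} [Field F] (h2 : (2 : F) ≠ 0) (W : WeierstrassCurve F)
    (hc : W.c₄ ≠ 0) :
    (C W.c₄ * X ^ 2 + C (W.a₁ * W.c₄) * X - C (54 * W.b₆ - 3 * W.b₂ * W.b₄ + W.a₂ * W.c₄) :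
      F[X]).Splits ↔ IsSquare (-(W.c₄ * W.c₆)) := by
  have hdisc : -(W.c₄ * W.c₆) = (W.a₁ * W.c₄) ^ 2 +
      4 * W.c₄ * (54 * W.b₆ - 3 * W.b₂ * W.b₄ + W.a₂ * W.c₄) := by
    have e4 : W.c₄ = W.b₂ ^ 2 - 24 * W.b₄ := rfl
    have e6 : W.c₆ = -W.b₂ ^ 3 + 36 * W.b₂ * W.b₄ - 216 * W.b₆ := rfl
    have e2 : W.b₂ = W.a₁ ^ 2 + 4 * W.a₂ := rfl
    have e : W.c₄ * (W.a₁ ^ 2 + 4 * W.a₂) = W.b₂ ^ 3 - 24 * W.b₂ * W.b₄ := by
      rw [← e2, e4]; ring
    rw [e6]
    linear_combination (-W.c₄) * e
  set c := W.c₄ with hcdef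
  set d := 54 * W.b₆ - 3 * W.b₂ * W.b₄ + W.a₂ * c with hd
  constructor
  · intro h
    have hdeg : (C c * X ^ 2 + C (W.a₁ * c) * X - C d : F[X]).degree = 2 := by
      compute_degree!
    obtain ⟨x, hx⟩ := h.exists_eval_eq_zero (by rw [hdeg]; norm_num)
    simp only [eval_sub, eval_add, eval_mul, eval_C, eval_X, eval_pow] at hx
    refine ⟨2 * c * x + W.a₁ * c, ?_⟩
    rw [hdisc]
    linear_combination (-4 * c) * hx
  · rintro ⟨s, hs⟩
    rw [hdisc] at hs
    have e : (C c * X ^ 2 + C (W.a₁ * c) * X - C d : F[X]) =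
        C c * ((X - C ((-(W.a₁ * c) + s) / (2 * c))) * (X - C ((-(W.a₁ * c) - s) / (2 * c)))) := by
      have e1 : c * (((-(W.a₁ * c) + s) / (2 * c)) + ((-(W.a₁ * c) - s) / (2 * c))) =
          -(W.a₁ * c) := by
        field_simp; ring
      have e2 : c * (((-(W.a₁ * c) + s) / (2 * c)) * ((-(W.a₁ * c) - s) / (2 * c))) = -d := by
        have h4 : (4 : F) ≠ 0 := by
          have : (4 : F) = 2 * 2 := by norm_num
          rw [this]; exact mul_ne_zero h2 h2
        field_simp
        linear_combination hs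
      have e1' := congrArg (C : F → F[X]) e1
      have e2' := congrArg (C : F → F[X]) e2
      rw [C_mul, C_add, C_neg] at e1'
      rw [C_mul, C_mul, C_neg] at e2'
      linear_combination X * e1' - e2'
    rw [e]
    exact ((Splits.X_sub_C _).mul (Splits.X_sub_C _)).C_mul _

section DVR

variable (R : Type) {K : Type} [CommRing R] [IsDomain R] [IsDiscreteValuationRing R]
  [Field K] [Algebra R K] [IsFractionRing R K]

lemma residue_two_ne (h2 : IsUnit (2 : R)) : (2 : IsLocalRing.ResidueField R) ≠ 0 := by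
  have : (2 : IsLocalRing.ResidueField R) = IsLocalRing.residue R 2 := by rw [map_ofNat]
  rw [this]
  intro h
  exact (IsLocalRing.mem_maximalIdeal _).mp ((IsLocalRing.residue_eq_zero_iff (2 : R)).mp h) h2

lemma residue_unit_ne {x : R} (h : IsUnit x) : IsLocalRing.residue R x ≠ 0 := by
  intro h1
  exact (IsLocalRing.mem_maximalIdeal _).mp ((IsLocalRing.residue_eq_zero_iff x).mp h1) h

/-- multiplicative reduction -/
theorem local_mult (W : WeierstrassCurve K) (C0 : WeierstrassCurve.VariableChange K)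
    (W0 : WeierstrassCurve R) (hW0 : C0 • W = W0.map (algebraMap R K)) (hD : W0.Δ ≠ 0)
    (hD1 : ¬ IsUnit W0.Δ) (hc : IsUnit W0.c₄) (h2 : IsUnit (2 : R)) (h3 : IsUnit (3 : R)) :
    (IsSquare (-(IsLocalRing.residue R W0.c₄ * IsLocalRing.residue R W0.c₆)) →
      W.localPolynomial R = 1 - X) ∧
    (¬ IsSquare (-(IsLocalRing.residue R W0.c₄ * IsLocalRing.residue R W0.c₆)) →
      W.localPolynomial R = 1 + X) := by
  have hinj : Function.Injective (algebraMap R K) := IsFractionRing.injective R K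
  have hint : WeierstrassCurve.IsIntegral R (C0 • W) := ⟨⟨_, hW0⟩⟩
  have hD0 : (C0 • W).Δ ≠ 0 := by
    rw [hW0, WeierstrassCurve.map_Δ]
    exact fun h => hD (hinj (by rw [h, map_zero]))
  have hc4 : vv R (C0 • W).c₄ = 1 := by
    rw [hW0, WeierstrassCurve.map_c₄]
    exact val_unit R hc
  have hDlt : vv R (C0 • W).Δ < 1 := by
    rw [hW0, WeierstrassCurve.map_Δ]
    apply (IsDedekindDomain.HeightOneSpectrum.valuation_lt_one_iff_mem (K := K)
      (IsDiscreteValuationRing.maximalIdeal R) W0.Δ).mpr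
    exact (IsLocalRing.mem_maximalIdeal _).mpr hD1
  obtain ⟨Cv, hC⟩ := exists_variableChange R W C0
  have hu := unit_of_c4 R W Cv _ hC hint hD0 hc4
  have h1 := val_Δ_eq R W Cv _ hC hu
  have h2' := val_c4_eq R W Cv _ hC hu
  have hng : ¬ (W.minimal R).HasGoodReduction R := by
    intro h
    have := h.goodReduction
    change vv R (W.minimal R).Δ = 1 at this
    rw [h1] at this
    exact absurd this (ne_of_lt hDlt)
  have hm : (W.minimal R).HasMultiplicativeReduction R := by
    refine { badReduction := ?_, multiplicativeReduction := ?_ }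
    · change vv R (W.minimal R).Δ < 1
      rw [h1]; exact hDlt
    · change vv R (W.minimal R).c₄ = 1
      rw [h2']; exact hc4
  obtain ⟨C', hC'⟩ := model_change R W C0 W0 hW0 Cv hC hu h2 h3
  set I := WeierstrassCurve.integralModel R (W.minimal R) with hI
  set ρ := IsLocalRing.residue R with hρ
  have hIρ : I.map ρ = (C'.map ρ) • (W0.map ρ) := by
    rw [hC', WeierstrassCurve.map_variableChange]
  have hκ2 := residue_two_ne R h2
  have hkey : ∀ v : IsLocalRing.ResidueField R, v ≠ 0 →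
      (IsSquare (-((v ^ 4 * ρ W0.c₄) * (v ^ 6 * ρ W0.c₆))) ↔
        IsSquare (-(ρ W0.c₄ * ρ W0.c₆))) := by
    intro v hv
    constructor
    · rintro ⟨s, hs⟩
      refine ⟨s / v ^ 5, ?_⟩
      field_simp
      linear_combination hs
    · rintro ⟨s, hs⟩
      refine ⟨s * v ^ 5, ?_⟩
      linear_combination v ^ 10 * hs
  have hc4ρ : (I.map ρ).c₄ = ((C'.map ρ).u⁻¹ : (IsLocalRing.ResidueField R)ˣ) ^ 4 * ρ W0.c₄ := by
    rw [hIρ, WeierstrassCurve.variableChange_c₄, WeierstrassCurve.map_c₄]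
  have hc6ρ : (I.map ρ).c₆ = ((C'.map ρ).u⁻¹ : (IsLocalRing.ResidueField R)ˣ) ^ 6 * ρ W0.c₆ := by
    rw [hIρ, WeierstrassCurve.variableChange_c₆, WeierstrassCurve.map_c₆]
  have hc4ne : (I.map ρ).c₄ ≠ 0 := by
    rw [hc4ρ]
    exact mul_ne_zero (pow_ne_zero _ (Units.ne_zero _)) (residue_unit_ne R hc)
  have hsplit : (W.minimal R).HasSplitMultiplicativeReduction R ↔
      IsSquare (-(ρ W0.c₄ * ρ W0.c₆)) := by
    rw [← hkey _ (Units.ne_zero ((C'.map ρ).u⁻¹ : (IsLocalRing.ResidueField R)ˣ)), ← hc4ρ, ← hc6ρ,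
      ← splits_iff hκ2 (I.map ρ) hc4ne]
    have e : (Polynomial.map ρ (C I.c₄ * X ^ 2 + C (I.a₁ * I.c₄) * X -
        C (54 * I.b₆ - 3 * I.b₂ * I.b₄ + I.a₂ * I.c₄))) =
        C (I.map ρ).c₄ * X ^ 2 + C ((I.map ρ).a₁ * (I.map ρ).c₄) * X -
          C (54 * (I.map ρ).b₆ - 3 * (I.map ρ).b₂ * (I.map ρ).b₄ +
            (I.map ρ).a₂ * (I.map ρ).c₄) := by
      simp only [Polynomial.map_sub, Polynomial.map_add, Polynomial.map_mul, Polynomial.map_pow,
        Polynomial.map_C, Polynomial.map_X, WeierstrassCurve.map_c₄, WeierstrassCurve.map_b₆,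
        WeierstrassCurve.map_b₂, WeierstrassCurve.map_b₄, WeierstrassCurve.map_a₁,
        WeierstrassCurve.map_a₂, map_sub, map_add, map_mul, map_ofNat, Polynomial.map_ofNat]
    rw [← e]
    constructor
    · intro h
      exact h.splitMultiplicativeReduction
    · intro h
      exact { toHasMultiplicativeReduction := hm, splitMultiplicativeReduction := h }
  simp only [WeierstrassCurve.localPolynomial]
  rw [if_neg hng, hsplit.symm]
  constructor
  · intro hs
    rw [if_pos hs]
  · intro hs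
    rw [if_neg hs, if_pos hm]

/-- good reduction of `y² + A x y + B y = x³` -/
theorem local_good3 [Finite (IsLocalRing.ResidueField R)]
    (W : WeierstrassCurve K) (C0 : WeierstrassCurve.VariableChange K) (A B : R)
    (hW0 : C0 • W = (curve3 A B).map (algebraMap R K))
    (hB : IsUnit B) (hc : IsUnit (A ^ 3 - 27 * B)) (h2 : IsUnit (2 : R)) (h3 : IsUnit (3 : R)) :
    (W.localPolynomial R).map (Int.castRingHom (ZMod 3)) =
      (1 - X) * (1 - C (Nat.card (IsLocalRing.ResidueField R) : ZMod 3) * X) := by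
  have hint : WeierstrassCurve.IsIntegral R (C0 • W) := ⟨⟨_, hW0⟩⟩
  have hΔ0 : (C0 • W).Δ = algebraMap R K (B ^ 3 * (A ^ 3 - 27 * B)) := by
    rw [hW0, WeierstrassCurve.map_Δ, curve3_Δ]
  have hval : vv R (C0 • W).Δ = 1 := by rw [hΔ0]; exact val_unit R ((hB.pow 3).mul hc)
  obtain ⟨Cv, hC⟩ := exists_variableChange R W C0
  have hu : vv R (Cv.u : K) = 1 := unit_of_disc R W Cv _ hC hint (by
    rw [hval, ← exp_zero, exp_lt_exp]; norm_num)
  have h1 := val_Δ_eq R W Cv _ hC hu
  have hgood : (W.minimal R).HasGoodReduction R := by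
    refine { goodReduction := ?_ }
    change vv R (W.minimal R).Δ = 1
    rw [h1, hval]
  obtain ⟨C', hC'⟩ := model_change R W C0 _ hW0 Cv hC hu h2 h3
  set I := WeierstrassCurve.integralModel R (W.minimal R) with hI
  set ρ := IsLocalRing.residue R with hρ
  have hIρ : (W.minimal R).reduction R = (C'.map ρ) • (curve3 (ρ A) (ρ B)) := by
    change I.map ρ = _
    rw [hC', ← WeierstrassCurve.map_variableChange]
    have e5 : (curve3 A B).map ρ = curve3 (ρ A) (ρ B) := by
      simp only [curve3, WeierstrassCurve.map, map_zero]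
    rw [e5]
  have hrΔ : ((W.minimal R).reduction R).Δ ≠ 0 := by
    have := (WeierstrassCurve.hasGoodReduction_iff_isElliptic_reduction R).mp hgood
    exact this.isUnit.ne_zero
  have hcard : Nat.card ((W.minimal R).reduction R).toAffine.Point ≡ 0 [MOD 3] := by
    rw [card_point_eq _ hrΔ, hIρ, card_eqn_change]
    have e : {p : IsLocalRing.ResidueField R × IsLocalRing.ResidueField R //
        (curve3 (ρ A) (ρ B)).toAffine.Equation p.1 p.2} ≃ Sol (ρ A) (ρ B) := by
      apply Equiv.subtypeEquivRight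
      intro p
      rw [WeierstrassCurve.Affine.equation_iff]
      simp [curve3]
    rw [Nat.card_congr e]
    have h4 : Nat.card (Sol (ρ A) (ρ B)) ≡ 2 [MOD 3] := by
      apply card_sol (residue_unit_ne R hB)
      intro h
      apply residue_unit_ne R hc
      change ρ _ = 0
      rw [map_sub, map_pow, map_mul, map_ofNat, h, sub_self]
    have h5 := h4.add_left 1
    exact h5
  have hc3 : ((Nat.card ((W.minimal R).reduction R).toAffine.Point : ℕ) : ZMod 3) = 0 := by
    have := (ZMod.natCast_eq_natCast_iff _ _ _).mpr hcard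
    rw [this, Nat.cast_zero]
  simp only [WeierstrassCurve.localPolynomial]
  rw [if_pos hgood]
  simp only [Polynomial.map_add, Polynomial.map_sub, Polynomial.map_mul, Polynomial.map_one,
    Polynomial.map_X, Polynomial.map_pow, eq_intCast, Int.cast_sub, Int.cast_add,
    Int.cast_natCast, Int.cast_one, Polynomial.map_natCast]
  rw [← map_natCast (Polynomial.C : ZMod 3 →+* (ZMod 3)[X]) (Nat.card (IsLocalRing.ResidueField R)),
    ← map_natCast (Polynomial.C : ZMod 3 →+* (ZMod 3)[X])
      (Nat.card ((W.minimal R).reduction R).toAffine.Point), hc3, C_0]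
  ring

end DVR

end Pool.Agent.BSDFF.Three
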