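import Pool.Agent.Lib.MP_48b749_nt.CurveInf
import Pool.Agent.Lib.MP_48b749_nt.Three.LocalT

/-!
The local polynomials of `y² + A x y + B y = x³` modulo three, bad reduction, and the finite
places of `k(t)`.
-/

set_option autoImplicit false

open Polynomial WithZero Multiplicative IsDiscreteValuationRing IsDedekindDomain.HeightOneSpectrum

namespace Pool.Agent.BSDFF.Three

theorem curve3_c₆ {R : Type} [CommRing R] (a b : R) :
    (curve3 a b).c₆ = -a ^ 6 + 36 * a ^ 3 * b - 216 * b ^ 2 := by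
  simp only [curve3, WeierstrassCurve.c₆, WeierstrassCurve.b₂, WeierstrassCurve.b₄,
    WeierstrassCurve.b₆]
  ring

lemma card_mod3 {F : Type} [Field F] [Finite F] (h3 : (3 : F) ≠ 0) : Nat.card F % 3 ≠ 0 := by
  intro h
  have : Fact (Nat.Prime 3) := ⟨Nat.prime_three⟩
  obtain ⟨x, hx⟩ := exists_prime_addOrderOf_dvd_card' (G := F) 3 (Nat.dvd_of_mod_eq_zero h)
  have h1 : 3 • x = 0 := by rw [← hx]; exact addOrderOf_nsmul_eq_zero x
  rw [nsmul_eq_mul] at h1
  rcases mul_eq_zero.mp h1 with h4 | h4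
  · exact h3 (by exact_mod_cast h4)
  · rw [h4, addOrderOf_zero] at hx
    norm_num at hx

lemma cast_of_mod1 {n : ℕ} (h : n % 3 = 1) : (n : ZMod 3) = 1 := by
  rw [← Nat.cast_one, ZMod.natCast_eq_natCast_iff]
  exact h

lemma cast_of_mod2 {n : ℕ} (h : n % 3 = 2) : (n : ZMod 3) = -1 := by
  have : (n : ZMod 3) = ((2 : ℕ) : ZMod 3) := by
    rw [ZMod.natCast_eq_natCast_iff]
    exact h
  rw [this]
  decide

section DVR

variable (R : Type) {K : Type} [CommRing R] [IsDomain R] [IsDiscreteValuationRing R]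
  [Field K] [Algebra R K] [IsFractionRing R K]

/-- multiplicative reduction at the zeros of `A³ - 27 B` -/
theorem local_nodal3 [Finite (IsLocalRing.ResidueField R)]
    (W : WeierstrassCurve K) (C0 : WeierstrassCurve.VariableChange K) (A B : R)
    (hW0 : C0 • W = (curve3 A B).map (algebraMap R K))
    (hB : IsUnit B) (hc : ¬ IsUnit (A ^ 3 - 27 * B)) (hc0 : A ^ 3 - 27 * B ≠ 0)
    (h2 : IsUnit (2 : R)) (h3 : IsUnit (3 : R)) :
    (W.localPolynomial R).map (Int.castRingHom (ZMod 3)) =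
      1 - C (Nat.card (IsLocalRing.ResidueField R) : ZMod 3) * X := by
  set ρ := IsLocalRing.residue R with hρ
  have hΔ0 : (curve3 A B).Δ ≠ 0 := by
    rw [curve3_Δ]
    exact mul_ne_zero (pow_ne_zero _ hB.ne_zero) hc0
  have hρc : ρ A ^ 3 = 27 * ρ B := by
    have h : ρ (A ^ 3 - 27 * B) = 0 := by
      rw [hρ, IsLocalRing.residue_eq_zero_iff]
      exact (IsLocalRing.mem_maximalIdeal _).mpr hc
    rw [map_sub, map_pow, map_mul, map_ofNat] at h
    exact sub_eq_zero.mp h
  have hβ : ρ B ≠ 0 := residue_unit_ne R hB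
  have hκ3 : (3 : IsLocalRing.ResidueField R) ≠ 0 := by
    have h := residue_unit_ne R h3
    rwa [map_ofNat] at h
  have hκ2 := residue_two_ne R h2
  have hα : ρ A ≠ 0 := by
    intro h
    rw [h] at hρc
    have h27 : (27 : IsLocalRing.ResidueField R) ≠ 0 := by
      have : (27 : IsLocalRing.ResidueField R) = 3 ^ 3 := by norm_num
      rw [this]; exact pow_ne_zero _ hκ3
    exact mul_ne_zero h27 hβ (by rw [← hρc]; ring)
  have hunit : ∀ x : R, ρ x ≠ 0 → IsUnit x := by
    intro x hx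
    by_contra hcon
    apply hx
    rw [hρ, IsLocalRing.residue_eq_zero_iff]
    exact (IsLocalRing.mem_maximalIdeal _).mpr hcon
  have hc4 : IsUnit (curve3 A B).c₄ := by
    apply hunit
    rw [curve3_c₄, map_mul, map_sub, map_pow, map_mul, map_ofNat, hρc]
    have : ρ A * (27 * ρ B - 24 * ρ B) = 3 * (ρ A * ρ B) := by ring
    rw [this]
    exact mul_ne_zero hκ3 (mul_ne_zero hα hβ)
  have hD1 : ¬ IsUnit (curve3 A B).Δ := by
    rw [curve3_Δ]
    intro h
    exact hc (isUnit_of_mul_isUnit_right h)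
  have hsq : -(ρ (curve3 A B).c₄ * ρ (curve3 A B).c₆) = -3 * (ρ A ^ 2 * ρ B) ^ 2 := by
    rw [curve3_c₄, curve3_c₆]
    simp only [map_mul, map_sub, map_add, map_pow, map_neg, map_ofNat]
    have e6 : ρ A ^ 6 = (27 * ρ B) ^ 2 := by rw [← hρc]; ring
    rw [e6, hρc]
    linear_combination (3 * ρ A * ρ B ^ 2) * hρc
  have hsq' : IsSquare (-(ρ (curve3 A B).c₄ * ρ (curve3 A B).c₆)) ↔
      Nat.card (IsLocalRing.ResidueField R) % 3 = 1 := by
    rw [← neg_three_isSquare hκ2 hκ3, hsq]
    have hne : ρ A ^ 2 * ρ B ≠ 0 := mul_ne_zero (pow_ne_zero _ hα) hβ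
    constructor
    · rintro ⟨s, hs⟩
      refine ⟨s / (ρ A ^ 2 * ρ B), ?_⟩
      field_simp
      linear_combination hs
    · rintro ⟨s, hs⟩
      refine ⟨s * (ρ A ^ 2 * ρ B), ?_⟩
      linear_combination (ρ A ^ 2 * ρ B) ^ 2 * hs
  obtain ⟨g1, g2⟩ := local_mult R W C0 _ hW0 hΔ0 hD1 hc4 h2 h3
  have hmod := card_mod3 hκ3
  by_cases h1 : Nat.card (IsLocalRing.ResidueField R) % 3 = 1
  · rw [g1 (hsq'.mpr h1), cast_of_mod1 h1]
    simp
  · rw [g2 (fun h => h1 (hsq'.mp h)), cast_of_mod2 (by omega)]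
    simp

/-- split multiplicative reduction at the zeros of `B` -/
theorem local_split3 (W : WeierstrassCurve K) (C0 : WeierstrassCurve.VariableChange K) (A B : R)
    (hW0 : C0 • W = (curve3 A B).map (algebraMap R K))
    (hA : IsUnit A) (hB : ¬ IsUnit B) (hB0 : B ≠ 0) (h2 : IsUnit (2 : R)) (h3 : IsUnit (3 : R)) :
    W.localPolynomial R = 1 - X := by
  set ρ := IsLocalRing.residue R with hρ
  have hρB : ρ B = 0 := by
    rw [hρ, IsLocalRing.residue_eq_zero_iff]
    exact (IsLocalRing.mem_maximalIdeal _).mpr hB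
  have hα : ρ A ≠ 0 := residue_unit_ne R hA
  have hunit : ∀ x : R, ρ x ≠ 0 → IsUnit x := by
    intro x hx
    by_contra hcon
    apply hx
    rw [hρ, IsLocalRing.residue_eq_zero_iff]
    exact (IsLocalRing.mem_maximalIdeal _).mpr hcon
  have hcu : IsUnit (A ^ 3 - 27 * B) := by
    apply hunit
    rw [map_sub, map_pow, map_mul, hρB, mul_zero, sub_zero]
    exact pow_ne_zero _ hα
  have hΔ0 : (curve3 A B).Δ ≠ 0 := by
    rw [curve3_Δ]
    exact mul_ne_zero (pow_ne_zero _ hB0) hcu.ne_zero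
  have hD1 : ¬ IsUnit (curve3 A B).Δ := by
    rw [curve3_Δ]
    intro h
    exact hB ((isUnit_pow_iff (by norm_num)).mp (isUnit_of_mul_isUnit_left h))
  have hc4 : IsUnit (curve3 A B).c₄ := by
    apply hunit
    rw [curve3_c₄, map_mul, map_sub, map_pow, map_mul, hρB, mul_zero, sub_zero]
    exact mul_ne_zero hα (pow_ne_zero _ hα)
  have hsq : IsSquare (-(ρ (curve3 A B).c₄ * ρ (curve3 A B).c₆)) := by
    refine ⟨ρ A ^ 5, ?_⟩
    rw [curve3_c₄, curve3_c₆]
    simp only [map_mul, map_sub, map_add, map_pow, map_neg, hρB]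
    ring
  exact (local_mult R W C0 _ hW0 hΔ0 hD1 hc4 h2 h3).1 hsq

end DVR

section finite

variable {k : Type} [Field k]

lemma E3_map (v : Place k (RatFunc k)) (hX : RatFunc.X ∈ v.ring) (a b : k[X]) :
    (1 : WeierstrassCurve.VariableChange (RatFunc k)) • E3 a b =
      (curve3 (polyHom v hX a) (polyHom v hX b)).map (algebraMap v.ring (RatFunc k)) := by
  rw [one_smul]
  ext
  · rfl
  · exact (map_zero (algebraMap v.ring (RatFunc k))).symm
  · rfl
  · exact (map_zero (algebraMap v.ring (RatFunc k))).symm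
  · exact (map_zero (algebraMap v.ring (RatFunc k))).symm

lemma E3_Δ (a b : k[X]) :
    (E3 a b).Δ = algebraMap k[X] (RatFunc k) (b ^ 3 * (a ^ 3 - 27 * b)) := by
  rw [E3_eq, WeierstrassCurve.map_Δ, curve3_Δ]

lemma E3_c₄ (a b : k[X]) :
    (E3 a b).c₄ = algebraMap k[X] (RatFunc k) (a * (a ^ 3 - 24 * b)) := by
  rw [E3_eq, WeierstrassCurve.map_c₄, curve3_c₄]

lemma card_residue [Finite k] (v : Place k (RatFunc k)) (hX : RatFunc.X ∈ v.ring) {π : k[X]}
    (hπ : Irreducible π) (hn : ¬ IsUnit (polyHom v hX π)) :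
    Nat.card (IsLocalRing.ResidueField v.ring) = Nat.card k ^ π.natDegree := by
  obtain ⟨e, -⟩ := residue_equiv v hX hπ hn
  rw [← Nat.card_congr e.toEquiv]
  have : Module.Finite k (AdjoinRoot π) := (AdjoinRoot.powerBasis hπ.ne_zero).finite
  rw [Module.natCard_eq_pow_finrank (K := k),
    (AdjoinRoot.powerBasis hπ.ne_zero).finrank, AdjoinRoot.powerBasis_dim]

open Classical in
/-- **the local polynomials at the finite places, modulo three** -/
theorem local_finite [Finite k] (h2 : (2 : k) ≠ 0) (h3 : (3 : k) ≠ 0)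
    (v : Place k (RatFunc k)) (hX : RatFunc.X ∈ v.ring) {π : k[X]}
    (hπ : Irreducible π) (hn : ¬ IsUnit (polyHom v hX π)) (a b : k[X]) (hb : b ≠ 0)
    (hc : a ^ 3 - 27 * b ≠ 0) (hmin : π ∣ a → ¬ π ^ 3 ∣ b) :
    ((E3 a b).localPolynomial v.ring).map (Int.castRingHom (ZMod 3)) *
      ((if π ∣ b then 1 - C ((Nat.card k ^ π.natDegree : ℕ) : ZMod 3) * X else 1) *
        (if π ∣ a ^ 3 - 27 * b then 1 - X else 1)) =
      (1 - X) * (1 - C ((Nat.card k ^ π.natDegree : ℕ) : ZMod 3) * X) := by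
  have hfin := residue_finite v hX hπ hn
  have hQ := card_residue v hX hπ hn
  have hW0 := E3_map v hX a b
  have i2 := isUnit_two h2 v hX
  have i3 := isUnit_three h3 v hX
  have hinjp : ∀ f : k[X], f ≠ 0 → polyHom v hX f ≠ 0 := fun f hf => polyHom_ne_zero v hX hf
  have huc : polyHom v hX a ^ 3 - 27 * polyHom v hX b = polyHom v hX (a ^ 3 - 27 * b) := by
    rw [map_sub, map_pow, map_mul, map_ofNat]
  by_cases hπb : π ∣ b
  · rw [if_pos hπb]
    by_cases hπc : π ∣ a ^ 3 - 27 * b
    · -- additive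
      rw [if_pos hπc]
      have hπa : π ∣ a := by
        have h : π ∣ a ^ 3 := by
          have := dvd_add hπc (Dvd.dvd.mul_left hπb 27)
          rwa [sub_add_cancel] at this
        exact hπ.prime.dvd_of_dvd_pow h
      have hm := hmin hπa
      have h27 : ¬ π ∣ (27 : k[X]) := by
        intro h
        have e27 : (27 : k[X]) = C 27 := by rw [C_ofNat]
        rw [e27] at h
        have hu : IsUnit (C (27 : k)) := by
          rw [Polynomial.isUnit_C, isUnit_iff_ne_zero]
          have : (27 : k) = 3 ^ 3 := by norm_num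
          rw [this]; exact pow_ne_zero _ h3
        exact hπ.not_isUnit (isUnit_of_dvd_unit h hu)
      obtain ⟨a', rfl⟩ := hπa
      obtain ⟨b1, rfl⟩ := hπb
      have hval : ∃ e : ℤ, e ≤ 8 ∧ 0 < e ∧ vv v.ring (E3 (π * a') (π * b1)).Δ = exp (-e) := by
        by_cases hb1 : π ∣ b1
        · obtain ⟨b2, rfl⟩ := hb1
          have hb2 : ¬ π ∣ b2 := by
            rintro ⟨b3, rfl⟩
            exact hm ⟨b3, by ring⟩
          refine ⟨8, le_rfl, by norm_num, ?_⟩
          have e : (π * (π * b2)) ^ 3 * ((π * a') ^ 3 - 27 * (π * (π * b2))) =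
              π ^ 8 * (b2 ^ 3 * (π * a' ^ 3 - 27 * b2)) := by ring
          have hnd : ¬ π ∣ b2 ^ 3 * (π * a' ^ 3 - 27 * b2) := by
            intro h
            rcases hπ.prime.dvd_or_dvd h with h | h
            · exact hb2 (hπ.prime.dvd_of_dvd_pow h)
            · have h5 : π ∣ 27 * b2 := by
                have := dvd_sub (Dvd.intro (a' ^ 3) rfl : π ∣ π * a' ^ 3) h
                rwa [sub_sub_cancel] at this
              rcases hπ.prime.dvd_or_dvd h5 with h6 | h6
              · exact h27 h6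
              · exact hb2 h6
          rw [E3_Δ, e, map_mul, map_mul, vv_unit_of_not_dvd v hX hπ hn hnd, mul_one, map_pow,
            map_pow, vv_pi v hX hπ hn, ← exp_nsmul]
          norm_num
        · refine ⟨4, by norm_num, by norm_num, ?_⟩
          have e : (π * b1) ^ 3 * ((π * a') ^ 3 - 27 * (π * b1)) =
              π ^ 4 * (b1 ^ 3 * (π ^ 2 * a' ^ 3 - 27 * b1)) := by ring
          have hnd : ¬ π ∣ b1 ^ 3 * (π ^ 2 * a' ^ 3 - 27 * b1) := by
            intro h
            rcases hπ.prime.dvd_or_dvd h with h | h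
            · exact hb1 (hπ.prime.dvd_of_dvd_pow h)
            · have h5 : π ∣ 27 * b1 := by
                have := dvd_sub (Dvd.intro (π * a' ^ 3) (by ring) : π ∣ π ^ 2 * a' ^ 3) h
                rwa [sub_sub_cancel] at this
              rcases hπ.prime.dvd_or_dvd h5 with h6 | h6
              · exact h27 h6
              · exact hb1 h6
          rw [E3_Δ, e, map_mul, map_mul, vv_unit_of_not_dvd v hX hπ hn hnd, mul_one, map_pow,
            map_pow, vv_pi v hX hπ hn, ← exp_nsmul]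
          norm_num
      obtain ⟨e, he8, he0, hv⟩ := hval
      have hadd : (E3 (π * a') (π * b1)).localPolynomial v.ring = 1 := by
        apply local_additive v.ring _ 1
        · exact ⟨⟨_, hW0⟩⟩
        · rw [one_smul, hv, exp_lt_exp]; omega
        · rw [one_smul, hv, ← exp_zero, exp_lt_exp]; omega
        · rw [one_smul, E3_c₄]
          apply vv_lt_one_of_dvd v hX hπ hn
          exact ⟨a' * ((π * a') ^ 3 - 24 * (π * b1)), by ring⟩
      rw [hadd, Polynomial.map_one]
      ring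
    · -- split multiplicative
      rw [if_neg hπc, mul_one]
      have hπa : ¬ π ∣ a := by
        intro h
        apply hπc
        exact dvd_sub (Dvd.dvd.pow h (by norm_num)) (Dvd.dvd.mul_left hπb 27)
      have hsp := local_split3 v.ring (E3 a b) 1 _ _ hW0
        ((polyHom_unit_iff v hX hπ hn a).mpr hπa)
        (fun h => (polyHom_unit_iff v hX hπ hn b).mp h hπb) (hinjp b hb) i2 i3
      rw [hsp, Polynomial.map_sub, Polynomial.map_one, Polynomial.map_X]
  · rw [if_neg hπb, one_mul]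
    have hBu := (polyHom_unit_iff v hX hπ hn b).mpr hπb
    by_cases hπc : π ∣ a ^ 3 - 27 * b
    · rw [if_pos hπc]
      have hno := local_nodal3 v.ring (E3 a b) 1 _ _ hW0 hBu
        (by rw [huc]; exact fun h => (polyHom_unit_iff v hX hπ hn _).mp h hπc)
        (by rw [huc]; exact hinjp _ hc) i2 i3
      rw [hno, hQ]
      ring
    · rw [if_neg hπc, mul_one]
      have hgo := local_good3 v.ring (E3 a b) 1 _ _ hW0 hBu
        (by rw [huc]; exact (polyHom_unit_iff v hX hπ hn _).mpr hπc) i2 i3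
      rw [hgo, hQ]

end finite

end Pool.Agent.BSDFF.Three
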