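import Pool.Agent.Lib.MP_48b749_nt.LocalGood
import Pool.Agent.Lib.MP_48b749_nt.Three.Defs3
import Pool.Agent.Lib.MP_48b749_nt.Three.CountF

/-!
The minimal model is obtained from any integral model with the same valuation of the discriminant
by an integral change of variables; consequences for the local polynomial.
-/

set_option autoImplicit false

open Polynomial WithZero Multiplicative IsDiscreteValuationRing IsDedekindDomain.HeightOneSpectrum

namespace Pool.Agent.BSDFF.Three

section DVR

variable (R : Type) {K : Type} [CommRing R] [IsDomain R] [IsDiscreteValuationRing R]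
  [Field K] [Algebra R K] [IsFractionRing R K]

theorem model_change (W : WeierstrassCurve K) (C0 : WeierstrassCurve.VariableChange K)
    (W0 : WeierstrassCurve R) (hW0 : C0 • W = W0.map (algebraMap R K))
    (C : WeierstrassCurve.VariableChange K) (hC : W.minimal R = C • (C0 • W))
    (hu : vv R (C.u : K) = 1) (h2 : IsUnit (2 : R)) (h3 : IsUnit (3 : R)) :
    ∃ C' : WeierstrassCurve.VariableChange R,
      WeierstrassCurve.integralModel R (W.minimal R) = C' • W0 := by
  have hinj : Function.Injective (algebraMap R K) := IsFractionRing.injective R K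
  set Wm := W.minimal R with hWm
  set I := WeierstrassCurve.integralModel R Wm with hI
  obtain ⟨uR, huR⟩ : ∃ a : R, algebraMap R K a = (C.u : K) := by
    apply IsDiscreteValuationRing.exists_lift_of_le_one
    exact le_of_eq hu
  have huRu : IsUnit uR := isUnit_of_val (K := K) R (by rw [huR]; exact hu)
  obtain ⟨i2, hi2⟩ := h2.exists_right_inv
  obtain ⟨i3, hi3⟩ := h3.exists_right_inv
  have hi2' : (2 : K) * algebraMap R K i2 = 1 := by
    have := congrArg (algebraMap R K) hi2
    rwa [map_mul, map_one, map_ofNat] at this
  have hi3' : (3 : K) * algebraMap R K i3 = 1 := by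
    have := congrArg (algebraMap R K) hi3
    rwa [map_mul, map_one, map_ofNat] at this
  have hune : (C.u : K) ≠ 0 := C.u.ne_zero
  have huinv : ((C.u⁻¹ : Kˣ) : K) = (C.u : K)⁻¹ := by simp
  set sR : R := (uR * I.a₁ - W0.a₁) * i2 with hsR
  have hs : algebraMap R K sR = C.s := by
    have h := WeierstrassCurve.variableChange_a₁ (C0 • W) C
    rw [← hC, ← WeierstrassCurve.integralModel_a₁_eq R Wm, huinv, hW0] at h
    simp only [WeierstrassCurve.map_a₁] at h
    rw [hsR, map_mul, map_sub, map_mul, huR, h]
    field_simp
    linear_combination C.s * hi2'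
  set rR : R := (uR ^ 2 * I.a₂ - W0.a₂ + sR * W0.a₁ + sR ^ 2) * i3 with hrR
  have hr : algebraMap R K rR = C.r := by
    have h := WeierstrassCurve.variableChange_a₂ (C0 • W) C
    rw [← hC, ← WeierstrassCurve.integralModel_a₂_eq R Wm, huinv, hW0] at h
    simp only [WeierstrassCurve.map_a₁, WeierstrassCurve.map_a₂] at h
    rw [hrR]
    simp only [map_mul, map_add, map_sub, map_pow, huR, hs]
    rw [h]
    field_simp
    linear_combination C.r * hi3'
  set tR : R := (uR ^ 3 * I.a₃ - W0.a₃ - rR * W0.a₁) * i2 with htR
  have ht : algebraMap R K tR = C.t := by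
    have h := WeierstrassCurve.variableChange_a₃ (C0 • W) C
    rw [← hC, ← WeierstrassCurve.integralModel_a₃_eq R Wm, huinv, hW0] at h
    simp only [WeierstrassCurve.map_a₁, WeierstrassCurve.map_a₃] at h
    rw [htR]
    simp only [map_mul, map_sub, map_pow, huR, hr]
    rw [h]
    field_simp
    linear_combination C.t * hi2'
  refine ⟨⟨huRu.unit, rR, sR, tR⟩, ?_⟩
  apply WeierstrassCurve.map_injective hinj
  change I.map (algebraMap R K) = WeierstrassCurve.map ((⟨huRu.unit, rR, sR, tR⟩ :
    WeierstrassCurve.VariableChange R) • W0) (algebraMap R K)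
  rw [← WeierstrassCurve.map_variableChange]
  have hCm : WeierstrassCurve.VariableChange.map
      (⟨huRu.unit, rR, sR, tR⟩ : WeierstrassCurve.VariableChange R) (algebraMap R K) = C := by
    apply WeierstrassCurve.VariableChange.ext
    · apply Units.ext
      simp [WeierstrassCurve.VariableChange.map, huR]
    · exact hr
    · exact hs
    · exact ht
  rw [hCm, ← hW0, ← hC]
  exact WeierstrassCurve.baseChange_integralModel_eq R Wm

end DVR

/-- the number of affine solutions does not change under a change of variables -/
theorem card_eqn_change {F : Type} [Field F] (C : WeierstrassCurve.VariableChange F)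
    (W : WeierstrassCurve F) :
    Nat.card {p : F × F // (C • W).toAffine.Equation p.1 p.2} =
      Nat.card {p : F × F // W.toAffine.Equation p.1 p.2} := by
  have hune : (C.u : F) ≠ 0 := C.u.ne_zero
  have huinv : ((C.u⁻¹ : Fˣ) : F) = (C.u : F)⁻¹ := by simp
  have key : ∀ x y : F, (C • W).toAffine.Equation x y ↔
      W.toAffine.Equation (C.u ^ 2 * x + C.r) (C.u ^ 3 * y + C.u ^ 2 * C.s * x + C.t) := by
    intro x y
    rw [WeierstrassCurve.Affine.equation_iff, WeierstrassCurve.Affine.equation_iff]
    simp only [WeierstrassCurve.variableChange_a₁, WeierstrassCurve.variableChange_a₂,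
      WeierstrassCurve.variableChange_a₃, WeierstrassCurve.variableChange_a₄,
      WeierstrassCurve.variableChange_a₆, huinv]
    constructor
    · intro h
      field_simp at h
      linear_combination h
    · intro h
      have h6 : (C.u : F) ^ 6 ≠ 0 := pow_ne_zero _ hune
      apply mul_left_cancel₀ h6
      field_simp
      linear_combination h
  apply Nat.card_congr
  exact
    { toFun := fun p => ⟨(C.u ^ 2 * p.1.1 + C.r, C.u ^ 3 * p.1.2 + C.u ^ 2 * C.s * p.1.1 + C.t),
        (key _ _).mp p.2⟩
      invFun := fun p => ⟨((p.1.1 - C.r) / C.u ^ 2,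
        (p.1.2 - C.s * (p.1.1 - C.r) - C.t) / C.u ^ 3), by
          rw [key]
          have e1 : (C.u : F) ^ 2 * ((p.1.1 - C.r) / C.u ^ 2) + C.r = p.1.1 := by
            field_simp; ring
          have e2 : (C.u : F) ^ 3 * ((p.1.2 - C.s * (p.1.1 - C.r) - C.t) / C.u ^ 3) +
              C.u ^ 2 * C.s * ((p.1.1 - C.r) / C.u ^ 2) + C.t = p.1.2 := by
            field_simp; ring
          rw [e1, e2]
          exact p.2⟩
      left_inv := fun p => by
        apply Subtype.ext
        apply Prod.ext
        · simp only; field_simp; ring
        · simp only; field_simp; ring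
      right_inv := fun p => by
        apply Subtype.ext
        apply Prod.ext
        · simp only; field_simp; ring
        · simp only; field_simp; ring }

theorem card_point_eq {F : Type} [Field F] [Finite F] (W : WeierstrassCurve F) (hΔ : W.Δ ≠ 0) :
    Nat.card W.toAffine.Point = 1 + Nat.card {p : F × F // W.toAffine.Equation p.1 p.2} := by
  let S := {p : F × F // W.toAffine.Equation p.1 p.2}
  have e1 : W.toAffine.Point ≃ Option S :=
    { toFun := fun P => match P with
        | .zero => none
        | .some x y h => some ⟨(x, y), h.1⟩
      invFun := fun o => match o with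
        | none => .zero
        | some p => .some p.1.1 p.1.2
            ((WeierstrassCurve.Affine.equation_iff_nonsingular_of_Δ_ne_zero hΔ).mp p.2)
      left_inv := fun P => by
        cases P with
        | zero => rfl
        | some x y h => rfl
      right_inv := fun o => by
        cases o with
        | none => rfl
        | some p => rfl }
  rw [Nat.card_congr e1, Finite.card_option, add_comm]

end Pool.Agent.BSDFF.Three
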