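import Pool.Agent.Lib.MP_48b749_nt.Three.GlobalT

/-!
The bound for the analytic rank of `y² + a x y + b y = x³` from the L-function modulo three.
-/

set_option autoImplicit false

open Polynomial

namespace Pool.Agent.BSDFF.Three

/-- root multiplicity at `-1` over `𝔽₃` -/
noncomputable abbrev mu (p : (ZMod 3)[X]) : ℕ := p.rootMultiplicity (-1)

instance : Fact (Nat.Prime 3) := ⟨Nat.prime_three⟩

lemma mu_mul {p q : (ZMod 3)[X]} (hp : p ≠ 0) (hq : q ≠ 0) : mu (p * q) = mu p + mu q :=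
  rootMultiplicity_mul (mul_ne_zero hp hq)

lemma mu_pow {p : (ZMod 3)[X]} (hp : p ≠ 0) (n : ℕ) : mu (p ^ n) = n * mu p := by
  induction n with
  | zero => simp [mu]
  | succ n ih => rw [pow_succ, mu_mul (pow_ne_zero _ hp) hp, ih]; ring

lemma mu_prod {ι : Type} (s : Finset ι) (f : ι → (ZMod 3)[X]) (h : ∀ i ∈ s, f i ≠ 0) :
    mu (∏ i ∈ s, f i) = ∑ i ∈ s, mu (f i) := by
  classical
  induction s using Finset.induction_on with
  | empty => simp [mu]
  | insert i s hi ih =>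
    rw [Finset.prod_insert hi, Finset.sum_insert hi, mu_mul (h i (Finset.mem_insert_self _ _))
      (Finset.prod_ne_zero_iff.mpr fun j hj => h j (Finset.mem_insert_of_mem hj)),
      ih (fun j hj => h j (Finset.mem_insert_of_mem hj))]

lemma mu_eq_zero {p : (ZMod 3)[X]} (h : p.eval (-1) ≠ 0) : mu p = 0 :=
  rootMultiplicity_eq_zero h

lemma sb_ne_zero (c : ZMod 3) {d : ℕ} (hd : d ≠ 0) : sb c d ≠ 0 := by
  intro h
  have := congrArg (eval 0) h
  unfold sb at this
  simp [zero_pow hd] at this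

lemma mu_sb_le_one (c : ZMod 3) {d : ℕ} (hd : ¬ 3 ∣ d) : mu (sb c d) ≤ 1 := by
  have hd0 : d ≠ 0 := by rintro rfl; exact hd (dvd_zero 3)
  by_contra hcon
  rw [not_le] at hcon
  rw [mu, one_lt_rootMultiplicity_iff_isRoot (sb_ne_zero c hd0)] at hcon
  obtain ⟨h1, h2⟩ := hcon
  rw [IsRoot.def] at h1 h2
  unfold sb at h1 h2
  rw [derivative_sub, derivative_one, derivative_C_mul, derivative_X_pow, zero_sub, eval_neg,
    neg_eq_zero] at h2
  simp only [eval_sub, eval_one, eval_mul, eval_C, eval_pow, eval_X, map_natCast, eval_natCast,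
    mul_eq_zero] at h1 h2
  have hdc : (d : ZMod 3) ≠ 0 := by
    rw [Ne, ZMod.natCast_eq_zero_iff]; exact hd
  have hc : c ^ d ≠ 0 := by
    intro h
    rw [h] at h1
    simp at h1
  rcases h2 with h2 | h2 | h2
  · exact hc h2
  · exact hdc h2
  · exact pow_ne_zero _ (by decide) h2

lemma sb_pow (c : ZMod 3) (d e : ℕ) : sb c (d * 3 ^ e) = sb c d ^ 3 ^ e := by
  unfold sb
  rw [sub_pow_char_pow (p := 3), one_pow, mul_pow, ← map_pow, ← pow_mul, ← pow_mul]

/-- the multiplicity of the root `-1` of `1 - c^d T^d` -/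
lemma mu_sb (c : ZMod 3) {d : ℕ} (hd : d ≠ 0) :
    mu (sb c d) ≤ if (-c) ^ d = 1 then 3 ^ padicValNat 3 d else 0 := by
  split_ifs with h
  · obtain ⟨e, d', hd', hdd⟩ := Nat.exists_eq_pow_mul_and_not_dvd hd 3 (by norm_num)
    have hd'0 : d' ≠ 0 := by rintro rfl; exact hd' (dvd_zero 3)
    have he : padicValNat 3 d = e := by
      rw [hdd, padicValNat.mul (pow_ne_zero _ (by norm_num)) hd'0, padicValNat.prime_pow,
        padicValNat.eq_zero_of_not_dvd hd', add_zero]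
    rw [he, hdd, mul_comm (3 ^ e), sb_pow, mu_pow (sb_ne_zero c hd'0)]
    calc 3 ^ e * mu (sb c d') ≤ 3 ^ e * 1 := Nat.mul_le_mul_left _ (mu_sb_le_one c hd')
      _ = 3 ^ e := mul_one _
  · rw [mu_eq_zero]
    unfold sb
    simp only [eval_sub, eval_one, eval_mul, eval_C, eval_pow, eval_X]
    intro h1
    apply h
    rw [← mul_pow] at h1
    have : c * -1 = -c := by ring
    rw [this] at h1
    exact (sub_eq_zero.mp h1).symm

variable {k : Type} [Field k] [Finite k]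

open Classical in
/-- the bound for the analytic rank, plus two -/
noncomputable def anBound (a b : k[X]) : ℕ :=
  (∑ π ∈ primesOf b, 3 ^ padicValNat 3 π.natDegree) +
  (∑ π ∈ (primesOf (a ^ 3 - 27 * b)).filter (fun π => Even π.natDegree),
    3 ^ padicValNat 3 π.natDegree) +
  (if 3 ∣ b.natDegree ∧ 3 * a.natDegree ≤ b.natDegree then 0 else 1)

lemma primesOf_spec {D π : k[X]} (h : π ∈ primesOf D) : π.Monic ∧ Irreducible π ∧ π ∣ D := by
  unfold primesOf at h
  classical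
  rw [Finset.mem_filter, mem_irrLE] at h
  exact ⟨h.1.1, h.1.2.1, h.2⟩

lemma mem_primesOf_iff {D π : k[X]} (hD : D ≠ 0) :
    π ∈ primesOf D ↔ π.Monic ∧ Irreducible π ∧ π ∣ D := by
  refine ⟨primesOf_spec, fun ⟨h1, h2, h4⟩ => ?_⟩
  unfold primesOf
  classical
  rw [Finset.mem_filter, mem_irrLE]
  exact ⟨⟨h1, h2, natDegree_le_of_dvd h4 hD⟩, h4⟩

/-- **the bound for the analytic rank** -/
theorem analytic_bound (h2 : (2 : k) ≠ 0) (h3 : (3 : k) ≠ 0) (hq : Nat.card k % 3 = 2)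
    (a b : k[X]) (hb : b ≠ 0) (hc : a ^ 3 - 27 * b ≠ 0)
    (hmin : ∀ π : k[X], π.Monic → Irreducible π → π ∣ a → ¬ π ^ 3 ∣ b) (m : ℕ) (g : ℤ[X])
    (hg : (((1 - C (Nat.card k : ℤ) * X) ^ m * g : ℤ[X]) : PowerSeries ℤ) = LSeries k (E3 a b)) :
    m + 2 ≤ anBound a b := by
  classical
  obtain ⟨δ, h⟩ := LSeries_mod3 h2 h3 a b hb hc hmin
  rw [← hg, coe_map, ← Polynomial.coe_mul, Polynomial.coe_inj] at h
  have hqm := cast_of_mod2 hq
  rw [hqm] at h
  have hq' : (Polynomial.map (Int.castRingHom (ZMod 3)) ((1 - C (Nat.card k : ℤ) * X) ^ m * g)) =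
      (1 + X) ^ m * g.map (Int.castRingHom (ZMod 3)) := by
    rw [Polynomial.map_mul, Polynomial.map_pow, Polynomial.map_sub, Polynomial.map_one,
      Polynomial.map_mul, Polynomial.map_C, Polynomial.map_X]
    have : (Int.castRingHom (ZMod 3)) (Nat.card k : ℤ) = -1 := by
      simp [hqm]
    rw [this]
    simp
  rw [hq'] at h
  set G := g.map (Int.castRingHom (ZMod 3)) with hG
  have e1 : (1 - C (-1 : ZMod 3) * X : (ZMod 3)[X]) = 1 + X := by simp
  rw [e1] at h
  have n1 : (1 + X : (ZMod 3)[X]) ≠ 0 := by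
    intro h
    have := congrArg (eval 0) h
    simp at this
  have n2 : (1 - X : (ZMod 3)[X]) ≠ 0 := by
    intro h
    have := congrArg (eval 0) h
    simp at this
  have nb : ∀ (c : ZMod 3) (D : k[X]), ∏ π ∈ primesOf D, sb c π.natDegree ≠ 0 := fun c D =>
    Finset.prod_ne_zero_iff.mpr fun π hπ => sb_ne_zero c (primesOf_spec hπ).2.1.natDegree_pos.ne'
  have n3 : (1 - X : (ZMod 3)[X]) ^ δ *
      (if 3 ∣ b.natDegree ∧ 3 * a.natDegree ≤ b.natDegree then 1 else 1 + X) ≠ 0 := by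
    apply mul_ne_zero (pow_ne_zero _ n2)
    split_ifs
    · exact one_ne_zero
    · exact n1
  have hR : ((1 - X : (ZMod 3)[X]) ^ δ *
      (if 3 ∣ b.natDegree ∧ 3 * a.natDegree ≤ b.natDegree then 1 else 1 + X)) *
      ((∏ π ∈ primesOf b, sb (-1) π.natDegree) *
        ∏ π ∈ primesOf (a ^ 3 - 27 * b), sb 1 π.natDegree) ≠ 0 :=
    mul_ne_zero n3 (mul_ne_zero (nb _ _) (nb _ _))
  have hGne : G ≠ 0 := by
    intro hG0
    apply hR
    rw [← h, hG0]
    ring
  have m1 : mu (1 + X : (ZMod 3)[X]) = 1 := by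
    have : (1 + X : (ZMod 3)[X]) = X - C (-1) := by simp [add_comm]
    rw [mu, this, rootMultiplicity_X_sub_C_self]
  have m2 : mu (1 - X : (ZMod 3)[X]) = 0 := by
    apply mu_eq_zero
    simp only [eval_sub, eval_one, eval_X]
    decide
  have hmu := congrArg mu h
  rw [mu_mul (mul_ne_zero (pow_ne_zero _ n1) hGne) (pow_ne_zero _ (mul_ne_zero n2 n1)),
    mu_mul (pow_ne_zero _ n1) hGne, mu_pow n1, mu_pow (mul_ne_zero n2 n1), mu_mul n2 n1, m1, m2,
    mu_mul n3 (mul_ne_zero (nb _ _) (nb _ _)), mu_mul (nb _ _) (nb _ _),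
    mu_prod _ _ (fun π hπ => sb_ne_zero _ (primesOf_spec hπ).2.1.natDegree_pos.ne'),
    mu_prod _ _ (fun π hπ => sb_ne_zero _ (primesOf_spec hπ).2.1.natDegree_pos.ne')] at hmu
  have b1 : ∑ π ∈ primesOf b, mu (sb (-1) π.natDegree) ≤
      ∑ π ∈ primesOf b, 3 ^ padicValNat 3 π.natDegree := by
    apply Finset.sum_le_sum
    intro π hπ
    refine (mu_sb (-1) (primesOf_spec hπ).2.1.natDegree_pos.ne').trans ?_
    rw [neg_neg, one_pow, if_pos rfl]
  have b2 : ∑ π ∈ primesOf (a ^ 3 - 27 * b), mu (sb 1 π.natDegree) ≤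
      ∑ π ∈ (primesOf (a ^ 3 - 27 * b)).filter (fun π => Even π.natDegree),
        3 ^ padicValNat 3 π.natDegree := by
    rw [Finset.sum_filter]
    apply Finset.sum_le_sum
    intro π hπ
    refine (mu_sb 1 (primesOf_spec hπ).2.1.natDegree_pos.ne').trans ?_
    rcases Nat.even_or_odd π.natDegree with hev | hodd
    · rw [if_pos hev, hev.neg_one_pow, if_pos rfl]
    · rw [hodd.neg_one_pow, if_neg (by decide)]
      exact Nat.zero_le _
  have b3 : mu ((1 - X : (ZMod 3)[X]) ^ δ *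
      (if 3 ∣ b.natDegree ∧ 3 * a.natDegree ≤ b.natDegree then 1 else 1 + X)) ≤
      (if 3 ∣ b.natDegree ∧ 3 * a.natDegree ≤ b.natDegree then 0 else 1) := by
    split_ifs
    · rw [mul_one, mu_pow n2, m2, mul_zero]
    · rw [mu_mul (pow_ne_zero _ n2) n1, mu_pow n2, m2, m1, mul_zero]
  unfold anBound
  omega

/-- the bound for the analytic rank -/
theorem analyticRank_le (h2 : (2 : k) ≠ 0) (h3 : (3 : k) ≠ 0) (hq : Nat.card k % 3 = 2)
    (a b : k[X]) (hb : b ≠ 0) (hc : a ^ 3 - 27 * b ≠ 0)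
    (hmin : ∀ π : k[X], π.Monic → Irreducible π → π ∣ a → ¬ π ^ 3 ∣ b) :
    analyticRank k (E3 a b) ≤ anBound a b - 2 := by
  unfold analyticRank
  rcases Set.eq_empty_or_nonempty {n : ℕ | ∃ g : ℤ[X],
    (((1 - C (Nat.card k : ℤ) * X) ^ n * g : ℤ[X]) : PowerSeries ℤ) = LSeries k (E3 a b)} with h | h
  · rw [h, csSup_empty]
    exact Nat.zero_le _
  · apply csSup_le h
    rintro m ⟨g, hg⟩
    have := analytic_bound h2 h3 hq a b hb hc hmin m g hg
    omega

end Pool.Agent.BSDFF.Three
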